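import Pool.Agent.HHP.Defs

/-!
Project HHP: comparison of masses by injective relations.
-/

namespace Pool.Agent.HHP

open scoped ENNReal

lemma tsum_rel {α β : Type*} (f : α → ℝ≥0∞) (g : β → ℝ≥0∞) (ρ : α → β → Prop)
    (h1 : ∀ a, ∃ b, ρ a b ∧ f a ≤ g b) (h2 : ∀ a a' b, ρ a b → ρ a' b → a = a') :
    ∑' a, f a ≤ ∑' b, g b := by
  choose φ h3 h4 using h1
  have hinj : Function.Injective φ := by
    intro a a' h
    exact h2 a a' (φ a) (h3 a) (h ▸ h3 a')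
  exact (ENNReal.tsum_le_tsum h4).trans (ENNReal.tsum_comp_le_tsum_of_injective hinj g)

/-- Words to words. -/
lemma ms_rel {y c : ℝ≥0∞} {P Q : List Bool → Prop} (ρ : List Bool → List Bool → Prop)
    (h1 : ∀ W, P W → ∃ W', Q W' ∧ ρ W W' ∧ y ^ (W.length + 1) ≤ c * y ^ (W'.length + 1))
    (h2 : ∀ W1 W2 W', P W1 → P W2 → Q W' → ρ W1 W' → ρ W2 W' → W1 = W2) : ms y P ≤ c * ms y Q := by
  unfold ms
  rw [← ENNReal.tsum_mul_left]
  refine tsum_rel _ _ (fun a b => ρ a.1 b.1) ?_ ?_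
  · rintro ⟨W, hW⟩
    obtain ⟨W', h3, h4, h5⟩ := h1 W hW
    exact ⟨⟨W', h3⟩, h4, h5⟩
  · rintro ⟨W1, hW1⟩ ⟨W2, hW2⟩ ⟨W', hW'⟩ h3 h4
    exact Subtype.ext (h2 W1 W2 W' hW1 hW2 hW' h3 h4)

/-- Words to pairs. -/
lemma ms_rel2 {y c : ℝ≥0∞} {P : List Bool → Prop} {Q : List Bool × List Bool → Prop}
    (ρ : List Bool → List Bool → List Bool → Prop)
    (h1 : ∀ W, P W → ∃ A B, Q (A, B) ∧ ρ W A B ∧ y ^ (W.length + 1) ≤ c * (y ^ (A.length + 1) * y ^ (B.length + 1)))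
    (h2 : ∀ W1 W2 A B, P W1 → P W2 → Q (A, B) → ρ W1 A B → ρ W2 A B → W1 = W2) : ms y P ≤ c * ms2 y Q := by
  unfold ms ms2
  rw [← ENNReal.tsum_mul_left]
  refine tsum_rel _ _ (fun a b => ρ a.1 b.1.1 b.1.2) ?_ ?_
  · rintro ⟨W, hW⟩
    obtain ⟨A, B, h3, h4, h5⟩ := h1 W hW
    exact ⟨⟨(A, B), h3⟩, h4, h5⟩
  · rintro ⟨W1, hW1⟩ ⟨W2, hW2⟩ ⟨⟨A, B⟩, hW'⟩ h3 h4
    exact Subtype.ext (h2 W1 W2 A B hW1 hW2 hW' h3 h4)

/-- Pairs to pairs. -/
lemma ms2_rel {y c : ℝ≥0∞} {P Q : List Bool × List Bool → Prop}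
    (ρ : List Bool → List Bool → List Bool → List Bool → Prop)
    (h1 : ∀ X Y, P (X, Y) → ∃ A B, Q (A, B) ∧ ρ X Y A B ∧
      y ^ (X.length + 1) * y ^ (Y.length + 1) ≤ c * (y ^ (A.length + 1) * y ^ (B.length + 1)))
    (h2 : ∀ X Y X' Y' A B, P (X, Y) → P (X', Y') → Q (A, B) → ρ X Y A B → ρ X' Y' A B → X = X' ∧ Y = Y') :
    ms2 y P ≤ c * ms2 y Q := by
  unfold ms2
  rw [← ENNReal.tsum_mul_left]
  refine tsum_rel _ _ (fun a b => ρ a.1.1 a.1.2 b.1.1 b.1.2) ?_ ?_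
  · rintro ⟨⟨X, Y⟩, hW⟩
    obtain ⟨A, B, h3, h4, h5⟩ := h1 X Y hW
    exact ⟨⟨(A, B), h3⟩, h4, h5⟩
  · rintro ⟨⟨X, Y⟩, hW1⟩ ⟨⟨X', Y'⟩, hW2⟩ ⟨⟨A, B⟩, hW'⟩ h3 h4
    have := h2 X Y X' Y' A B hW1 hW2 hW' h3 h4
    exact Subtype.ext (Prod.ext this.1 this.2)

lemma ms_mono {y : ℝ≥0∞} {P Q : List Bool → Prop} (h : ∀ W, P W → Q W) : ms y P ≤ ms y Q := by
  have := ms_rel (y := y) (c := 1) (P := P) (Q := Q) (fun W W' => W = W')
    (fun W hW => ⟨W, h W hW, rfl, by rw [one_mul]⟩) (fun W1 W2 W' _ _ _ h1 h2 => h1.trans h2.symm)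
  rwa [one_mul] at this

lemma ms2_mono {y : ℝ≥0∞} {P Q : List Bool × List Bool → Prop} (h : ∀ W, P W → Q W) : ms2 y P ≤ ms2 y Q := by
  have := ms2_rel (y := y) (c := 1) (P := P) (Q := Q) (fun X Y A B => X = A ∧ Y = B)
    (fun X Y hW => ⟨X, Y, h _ hW, ⟨rfl, rfl⟩, by rw [one_mul]⟩)
    (fun X Y X' Y' A B _ _ _ h1 h2 => ⟨h1.1.trans h2.1.symm, h1.2.trans h2.2.symm⟩)
  rwa [one_mul] at this

open Classical in
lemma ms_ind (y : ℝ≥0∞) (P : List Bool → Prop) :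
    ms y P = ∑' W : List Bool, if P W then y ^ (W.length + 1) else 0 := by
  unfold ms
  exact (tsum_subtype {W | P W} (fun W => y ^ (W.length + 1))).trans (tsum_congr fun W => by
    simp [Set.indicator_apply])

open Classical in
lemma ms2_ind (y : ℝ≥0∞) (P : List Bool × List Bool → Prop) :
    ms2 y P = ∑' p : List Bool × List Bool, if P p then y ^ (p.1.length + 1) * y ^ (p.2.length + 1) else 0 := by
  unfold ms2
  exact (tsum_subtype {p | P p} (fun p : List Bool × List Bool => y ^ (p.1.length + 1) * y ^ (p.2.length + 1))).trans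
    (tsum_congr fun W => by simp [Set.indicator_apply])

/-- Finite unions. -/
lemma ms_union {ι : Type*} (s : Finset ι) {y : ℝ≥0∞} {P : List Bool → Prop} {Q : ι → List Bool → Prop}
    (h : ∀ W, P W → ∃ i ∈ s, Q i W) : ms y P ≤ ∑ i ∈ s, ms y (Q i) := by
  classical
  simp only [ms_ind]
  rw [← Summable.tsum_finsetSum (fun i _ => ENNReal.summable)]
  refine ENNReal.tsum_le_tsum fun W => ?_
  split_ifs with hW
  · obtain ⟨i, hi, hQ⟩ := h W hW
    have := Finset.single_le_sum (f := fun i => if Q i W then y ^ (W.length + 1) else 0)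
      (fun _ _ => bot_le) hi
    simpa only [hQ, if_true] using this
  · exact bot_le

lemma ms2_union {ι : Type*} (s : Finset ι) {y : ℝ≥0∞} {P : List Bool × List Bool → Prop}
    {Q : ι → List Bool × List Bool → Prop} (h : ∀ W, P W → ∃ i ∈ s, Q i W) :
    ms2 y P ≤ ∑ i ∈ s, ms2 y (Q i) := by
  classical
  simp only [ms2_ind]
  rw [← Summable.tsum_finsetSum (fun i _ => ENNReal.summable)]
  refine ENNReal.tsum_le_tsum fun W => ?_
  split_ifs with hW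
  · obtain ⟨i, hi, hQ⟩ := h W hW
    have := Finset.single_le_sum (f := fun i => if Q i W then y ^ (W.1.length + 1) * y ^ (W.2.length + 1) else 0)
      (fun _ _ => bot_le) hi
    simpa only [hQ, if_true] using this
  · exact bot_le

lemma ms_or {y : ℝ≥0∞} {P Q R : List Bool → Prop} (h : ∀ W, P W → Q W ∨ R W) : ms y P ≤ ms y Q + ms y R := by
  classical
  simp only [ms_ind]
  rw [← ENNReal.tsum_add]
  refine ENNReal.tsum_le_tsum fun W => ?_
  by_cases hW : P W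
  · rw [if_pos hW]
    rcases h W hW with h1 | h1
    · rw [if_pos h1]; exact le_self_add
    · rw [if_pos h1]; exact le_add_self
  · rw [if_neg hW]; exact bot_le

lemma ms2_or {y : ℝ≥0∞} {P Q R : List Bool × List Bool → Prop} (h : ∀ W, P W → Q W ∨ R W) :
    ms2 y P ≤ ms2 y Q + ms2 y R := by
  classical
  simp only [ms2_ind]
  rw [← ENNReal.tsum_add]
  refine ENNReal.tsum_le_tsum fun W => ?_
  by_cases hW : P W
  · rw [if_pos hW]
    rcases h W hW with h1 | h1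
    · rw [if_pos h1]; exact le_self_add
    · rw [if_pos h1]; exact le_add_self
  · rw [if_neg hW]; exact bot_le

/-- Products. -/
lemma ms_mul (y : ℝ≥0∞) (P Q : List Bool → Prop) : ms2 y (fun p => P p.1 ∧ Q p.2) = ms y P * ms y Q := by
  classical
  rw [ms_ind, ms_ind, ms2_ind, ← ENNReal.tsum_mul_right]
  refine ENNReal.tsum_prod'.trans (tsum_congr fun W => ?_)
  rw [← ENNReal.tsum_mul_left]
  refine tsum_congr fun W' => ?_
  by_cases h1 : P W <;> by_cases h2 : Q W' <;> simp [h1, h2]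

/-- Concatenation of a word of `A` and a word of `B`. -/
lemma ms_cat {y : ℝ≥0∞} {R A B : List Bool → Prop} (f : List Bool → List Bool → List Bool)
    (hf : ∀ P Q, (f P Q).length = P.length + 1 + Q.length)
    (h : ∀ W, R W → ∃ P Q, W = f P Q ∧ A P ∧ B Q) : ms y R ≤ ms y A * ms y B := by
  rw [← ms_mul]
  have := ms_rel2 (y := y) (c := 1) (P := R) (Q := fun p => A p.1 ∧ B p.2) (fun W P Q => W = f P Q)
    (fun W hW => by
      obtain ⟨P, Q, h1, h2, h3⟩ := h W hW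
      refine ⟨P, Q, ⟨h2, h3⟩, h1, le_of_eq ?_⟩
      rw [one_mul, h1, hf, ← pow_add]; ring_nf) (fun W1 W2 P Q _ _ _ h1 h2 => h1.trans h2.symm)
  rwa [one_mul] at this

/-- Triples: `R W` implies `W = f P P' Q` with `A (P, P')` and `B Q`. -/
lemma ms_cat3 {y : ℝ≥0∞} {R B : List Bool → Prop} {A : List Bool × List Bool → Prop}
    (f : List Bool → List Bool → List Bool → List Bool)
    (hf : ∀ P P' Q, (f P P' Q).length = P.length + 1 + (P'.length + 1) + Q.length)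
    (h : ∀ W, R W → ∃ P P' Q, W = f P P' Q ∧ A (P, P') ∧ B Q) : ms y R ≤ ms2 y A * ms y B := by
  unfold ms ms2
  rw [← ENNReal.tsum_mul_right]
  simp_rw [← ENNReal.tsum_mul_left]
  rw [← ENNReal.tsum_prod (f := fun (p : {p : List Bool × List Bool // A p}) (q : {W : List Bool // B W}) =>
    y ^ (p.1.1.length + 1) * y ^ (p.1.2.length + 1) * y ^ (q.1.length + 1))]
  refine tsum_rel _ _ (fun a b => a.1 = f b.1.1.1 b.1.1.2 b.2.1) ?_ ?_
  · rintro ⟨W, hW⟩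
    obtain ⟨P, P', Q, h1, h2, h3⟩ := h W hW
    refine ⟨(⟨(P, P'), h2⟩, ⟨Q, h3⟩), h1, le_of_eq ?_⟩
    simp only [h1, hf, ← pow_add]; ring_nf
  · rintro ⟨W1, hW1⟩ ⟨W2, hW2⟩ b h3 h4
    exact Subtype.ext (h3.trans h4.symm)

/-- Pairs to (word, pair). -/
lemma ms2_rel3 {y : ℝ≥0∞} {P Q : List Bool × List Bool → Prop} {A : List Bool → Prop}
    (ρ : List Bool × List Bool → List Bool → List Bool × List Bool → Prop)
    (h1 : ∀ X Y, P (X, Y) → ∃ B C D, A B ∧ Q (C, D) ∧ ρ (X, Y) B (C, D) ∧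
      X.length + 1 + (Y.length + 1) = B.length + 1 + (C.length + 1 + (D.length + 1)))
    (h2 : ∀ p p' b q, P p → P p' → A b → Q q → ρ p b q → ρ p' b q → p = p') :
    ms2 y P ≤ ms y A * ms2 y Q := by
  unfold ms ms2
  rw [← ENNReal.tsum_mul_right]
  simp_rw [← ENNReal.tsum_mul_left]
  rw [← ENNReal.tsum_prod (f := fun (p : {W : List Bool // A W}) (q : {p : List Bool × List Bool // Q p}) =>
    y ^ (p.1.length + 1) * (y ^ (q.1.1.length + 1) * y ^ (q.1.2.length + 1)))]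
  refine tsum_rel _ _ (fun a b => ρ a.1 b.1.1 b.2.1) ?_ ?_
  · rintro ⟨⟨X, Y⟩, hW⟩
    obtain ⟨B, C, D, g1, g2, g3, g4⟩ := h1 X Y hW
    refine ⟨(⟨B, g1⟩, ⟨(C, D), g2⟩), g3, le_of_eq ?_⟩
    simp only [← pow_add, g4]
  · rintro ⟨p1, hp1⟩ ⟨p2, hp2⟩ ⟨⟨b, hb⟩, ⟨q, hq⟩⟩ g3 g4
    exact Subtype.ext (h2 p1 p2 b q hp1 hp2 hb hq g3 g4)

/-- (word, word, pair) to pairs. -/
lemma ms_rel4 {y : ℝ≥0∞} {A B : List Bool → Prop} {P Q : List Bool × List Bool → Prop}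
    (f : List Bool → List Bool → List Bool × List Bool → List Bool × List Bool)
    (h1 : ∀ X Y p, A X → B Y → P p → Q (f X Y p) ∧
      X.length + 1 + (Y.length + 1) + (p.1.length + 1 + (p.2.length + 1)) = (f X Y p).1.length + 1 + ((f X Y p).2.length + 1))
    (h2 : ∀ X Y p X' Y' p', A X → B Y → P p → A X' → B Y' → P p' → f X Y p = f X' Y' p' →
      X = X' ∧ Y = Y' ∧ p = p') :
    ms y A * ms y B * ms2 y P ≤ ms2 y Q := by
  rw [← ms_mul]
  unfold ms2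
  rw [← ENNReal.tsum_mul_right]
  simp_rw [← ENNReal.tsum_mul_left]
  rw [← ENNReal.tsum_prod (f := fun (r : {p : List Bool × List Bool // A p.1 ∧ B p.2})
    (q : {p : List Bool × List Bool // P p}) => y ^ (r.1.1.length + 1) * y ^ (r.1.2.length + 1) *
      (y ^ (q.1.1.length + 1) * y ^ (q.1.2.length + 1)))]
  refine tsum_rel _ _ (fun a b => b.1 = f a.1.1.1 a.1.1.2 a.2.1) ?_ ?_
  · rintro ⟨⟨⟨X, Y⟩, hX, hY⟩, ⟨p, hp⟩⟩
    have := h1 X Y p hX hY hp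
    refine ⟨⟨f X Y p, this.1⟩, rfl, le_of_eq ?_⟩
    simp only [← pow_add, this.2]
  · rintro ⟨⟨⟨X, Y⟩, hX, hY⟩, ⟨p, hp⟩⟩ ⟨⟨⟨X', Y'⟩, hX', hY'⟩, ⟨p', hp'⟩⟩ b g3 g4
    obtain ⟨e1, e2, e3⟩ := h2 X Y p X' Y' p' hX hY hp hX' hY' hp' (g3.symm.trans g4)
    subst e1 e2 e3
    rfl

/-- Disjoint unions. -/
lemma ms_disj {ι : Type*} (s : Finset ι) {y : ℝ≥0∞} {P : List Bool → Prop} {Q : ι → List Bool → Prop}
    (h : ∀ i ∈ s, ∀ W, Q i W → P W) (h' : ∀ i ∈ s, ∀ j ∈ s, ∀ W, Q i W → Q j W → i = j) :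
    ∑ i ∈ s, ms y (Q i) ≤ ms y P := by
  classical
  simp only [ms_ind]
  rw [← Summable.tsum_finsetSum (fun i _ => ENNReal.summable)]
  refine ENNReal.tsum_le_tsum fun W => ?_
  by_cases hex : ∃ i ∈ s, Q i W
  · obtain ⟨i, hi, hQ⟩ := hex
    rw [Finset.sum_eq_single_of_mem i hi, if_pos hQ, if_pos (h i hi W hQ)]
    intro j hj hne
    rw [if_neg]
    intro hj'
    exact hne (h' j hj i hi W hj' hQ)
  · rw [Finset.sum_eq_zero]
    · exact bot_le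
    · intro i hi
      rw [if_neg]
      exact fun hQ => hex ⟨i, hi, hQ⟩

lemma ms2_disj {ι : Type*} (s : Finset ι) {y : ℝ≥0∞} {P : List Bool × List Bool → Prop}
    {Q : ι → List Bool × List Bool → Prop}
    (h : ∀ i ∈ s, ∀ W, Q i W → P W) (h' : ∀ i ∈ s, ∀ j ∈ s, ∀ W, Q i W → Q j W → i = j) :
    ∑ i ∈ s, ms2 y (Q i) ≤ ms2 y P := by
  classical
  simp only [ms2_ind]
  rw [← Summable.tsum_finsetSum (fun i _ => ENNReal.summable)]
  refine ENNReal.tsum_le_tsum fun W => ?_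
  by_cases hex : ∃ i ∈ s, Q i W
  · obtain ⟨i, hi, hQ⟩ := hex
    rw [Finset.sum_eq_single_of_mem i hi, if_pos hQ, if_pos (h i hi W hQ)]
    intro j hj hne
    rw [if_neg]
    intro hj'
    exact hne (h' j hj i hi W hj' hQ)
  · rw [Finset.sum_eq_zero]
    · exact bot_le
    · intro i hi
      rw [if_neg]
      exact fun hQ => hex ⟨i, hi, hQ⟩

/-- A smaller fugacity. -/
lemma ms_pow_le {θ y : ℝ≥0∞} (hθ : θ ≤ 1) {k : ℕ} {P : List Bool → Prop} (h : ∀ W, P W → k ≤ W.length + 1) :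
    ms (θ * y) P ≤ θ ^ k * ms y P := by
  unfold ms
  rw [← ENNReal.tsum_mul_left]
  refine ENNReal.tsum_le_tsum fun W => ?_
  rw [mul_pow]
  exact mul_le_mul_left (pow_le_pow_right_of_le_one' hθ (h W.1 W.2)) _

lemma ms2_pow_le {θ y : ℝ≥0∞} (hθ : θ ≤ 1) {k : ℕ} {P : List Bool × List Bool → Prop}
    (h : ∀ A B, P (A, B) → k ≤ A.length + 1 + (B.length + 1)) : ms2 (θ * y) P ≤ θ ^ k * ms2 y P := by
  unfold ms2
  rw [← ENNReal.tsum_mul_left]
  refine ENNReal.tsum_le_tsum fun W => ?_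
  rw [mul_pow, mul_pow]
  have h1 : θ ^ (W.1.1.length + 1) * θ ^ (W.1.2.length + 1) ≤ θ ^ k := by
    rw [← pow_add]; exact pow_le_pow_right_of_le_one' hθ (h _ _ W.2)
  calc θ ^ (W.1.1.length + 1) * y ^ (W.1.1.length + 1) * (θ ^ (W.1.2.length + 1) * y ^ (W.1.2.length + 1))
      = θ ^ (W.1.1.length + 1) * θ ^ (W.1.2.length + 1) * (y ^ (W.1.1.length + 1) * y ^ (W.1.2.length + 1)) := by ring
    _ ≤ _ := by gcongr

end Pool.Agent.HHP
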