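import Pool.Agent.HHP.Geo
import Pool.Agent.HHP.Tsum

/-!
Project HHP: the first step of the Hammersley-Welsh unfolding, and the recursion for the masses of `SS n`.
-/

namespace Pool.Agent.HHP

open Pool.Agent.Hhelper14.SAW Finset
open scoped ENNReal

lemma stepA {n : ℕ} {W : List Bool} (h : SS n W) : (∃ k ≤ n, Fi k W) ∨
    ∃ k P Q, 1 ≤ k ∧ k ≤ n ∧ W = P ++ lt P :: Q ∧ Be k P ∧ SS (k - 1) Q := by
  obtain ⟨⟨hN, hin⟩, hlast⟩ := h
  -- the extreme column
  obtain ⟨z0, hz0, hmax⟩ := (V W).toFinset.exists_max_image (fun z => F0 z / 3) ⟨(0, 0), by simp [o_mem]⟩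
  rw [List.mem_toFinset] at hz0
  have hmax' : ∀ z ∈ V W, F0 z / 3 ≤ F0 z0 / 3 := fun z hz => hmax z (by simpa using hz)
  have hz1 := hin z0 hz0
  obtain ⟨k, hk⟩ : ∃ k : ℕ, F0 z0 / 3 = k := ⟨(F0 z0 / 3).toNat, by omega⟩
  have hkn : k ≤ n := by omega
  have hle : ∀ z ∈ V W, F0 z ≤ 3 * k + 1 := by
    intro z hz
    have h1 := hmax' z hz
    have h2 := res_std hz
    omega
  rcases split_last (fun z => 3 * (k : ℤ) ≤ F0 z) (W := W) ⟨z0, hz0, by omega⟩ with h1 | ⟨P, b, Q, rfl, h1, h2⟩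
  · left
    exact ⟨k, hkn, ⟨⟨⟨hN, fun z hz => ⟨(hin z hz).1, hle z hz⟩⟩, hlast⟩, h1⟩⟩
  · right
    have hlt : F0 (E P + tn b (Dr P)) < 3 * (k : ℤ) := not_le.1 (h2 _ (head_mem _ _ _))
    have hc := cross_left (gd_std P) (b := b) h1 hlt
    obtain rfl := lt_unique hc.1
    obtain ⟨e1, e2, e3⟩ := app_left (Q := Q) hc.1
    have hE : F0 (E P + (-1, 0)) = 3 * k - 2 := by rw [← hc.1]; exact hc.2.2
    rw [e1] at hN hin hle
    have hk1 : 1 ≤ k := by
      have := hin _ (List.mem_append_right _ (List.mem_map_of_mem (f := fun z => (E P + (-1, 0)) - z) (o_mem Q)))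
      rw [F0_sub, hE] at this
      have e : F0 ((0, 0) : ℤ × ℤ) = 0 := by decide
      rw [e] at this
      omega
    refine ⟨k, P, Q, hk1, hkn, rfl, ⟨⟨(List.nodup_append.1 hN).1, ?_⟩, hc.2.1, ?_⟩, ⟨⟨?_, ?_⟩, ?_⟩⟩
    · intro z hz
      exact ⟨(hin z (List.mem_append_left _ hz)).1, hle z (List.mem_append_left _ hz)⟩
    · exact not_hz_of_tn (gd_std P) (Or.inr hc.1)
    · exact List.Nodup.of_map _ (List.nodup_append.1 hN).2.1
    · intro z hz
      have hz' := List.mem_map_of_mem (f := fun z => (E P + (-1, 0)) - z) hz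
      have g1 := hin _ (List.mem_append_right _ hz')
      have g2 := h2 ((E P + (-1, 0)) - z) (by rw [hc.1, vs_left]; exact hz')
      have g3 := res_std hz
      rw [F0_sub, hE] at g1 g2
      have : ((k - 1 : ℕ) : ℤ) = (k : ℤ) - 1 := by omega
      rw [this]; omega
    · right
      rcases hlast with h3 | h3
      · exact absurd h3 (by simp)
      · rw [e3] at h3
        exact fun h4 => h3 (hz_neg.2 h4)

lemma SS.mono {n m : ℕ} (h : n ≤ m) {W : List Bool} (hW : SS n W) : SS m W := ⟨hW.1.mono h, hW.2⟩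

/-- The recursion: two folds at a time, the avoidance is kept inside the pair of folds. -/
theorem SS_rec (y : ℝ≥0∞) (n : ℕ) : ms y (SS n) ≤ ∑ k ∈ range (n + 1), ms y (Fi k) +
    ∑ a ∈ range (n + 1), ∑ b ∈ range a, ms y (Be a) * ms y (Fi b) +
    ∑ a ∈ range (n + 1), ∑ b ∈ range a, ms2 y (JP a b) * ms y (SS b) := by
  have key : ∀ W, SS n W → ((∃ k ∈ range (n + 1), Fi k W) ∨
      (∃ a ∈ range (n + 1), ∃ b ∈ range a, ∃ P Q, W = P ++ lt P :: Q ∧ Be a P ∧ Fi b Q)) ∨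
      (∃ a ∈ range (n + 1), ∃ b ∈ range a, ∃ P P' Q, W = P ++ lt P :: (P' ++ lt P' :: Q) ∧
        JP a b (P, P') ∧ SS b Q) := by
    intro W hW
    rcases stepA hW with ⟨k, hk, h1⟩ | ⟨a, P, Q, ha, han, rfl, hP, hQ⟩
    · exact Or.inl (Or.inl ⟨k, mem_range.2 (by omega), h1⟩)
    rcases stepA hQ with ⟨b, hb, h1⟩ | ⟨b, P', Q', hb, hba, rfl, hP', hQ'⟩
    · exact Or.inl (Or.inr ⟨a, mem_range.2 (by omega), b, mem_range.2 (by omega), P, Q, rfl, hP, h1⟩)
    · refine Or.inr ⟨a, mem_range.2 (by omega), b, mem_range.2 (by omega), P, P', Q', rfl, ⟨hP, hP', ?_⟩,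
        hQ'.mono (by omega)⟩
      have h1 := hW.1.1
      have e : P ++ lt P :: (P' ++ lt P' :: Q') = (P ++ lt P :: P') ++ lt P' :: Q' := by simp
      rw [e, V_append] at h1
      exact (List.nodup_append.1 h1).1
  refine (ms_or key).trans (add_le_add ((ms_or fun W h => h).trans (add_le_add ?_ ?_)) ?_)
  · exact ms_union _ fun W h => h
  · refine (ms_union (range (n + 1)) (Q := fun a W => ∃ b ∈ range a, ∃ P Q, W = P ++ lt P :: Q ∧ Be a P ∧ Fi b Q)
      fun W h => h).trans (sum_le_sum fun a _ => ?_)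
    refine (ms_union (range a) (Q := fun b W => ∃ P Q, W = P ++ lt P :: Q ∧ Be a P ∧ Fi b Q)
      fun W h => h).trans (sum_le_sum fun b _ => ?_)
    exact ms_cat (fun P Q => P ++ lt P :: Q) (fun P Q => by simp; omega) fun W h => h
  · refine (ms_union (range (n + 1)) (Q := fun a W => ∃ b ∈ range a, ∃ P P' Q, W = P ++ lt P :: (P' ++ lt P' :: Q) ∧
      JP a b (P, P') ∧ SS b Q) fun W h => h).trans (sum_le_sum fun a _ => ?_)
    refine (ms_union (range a) (Q := fun b W => ∃ P P' Q, W = P ++ lt P :: (P' ++ lt P' :: Q) ∧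
      JP a b (P, P') ∧ SS b Q) fun W h => h).trans (sum_le_sum fun b _ => ?_)
    exact ms_cat3 (fun P P' Q => P ++ lt P :: (P' ++ lt P' :: Q)) (fun P P' Q => by simp; omega) fun W h => h

end Pool.Agent.HHP
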