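import Pool.Agent.HHP.Lib

/-!
Project HHP: critical masses of bridges and arcs.

PAPER PROOFS. `Br_one`: `ms_le_of_count` with
`F n = (saw (St k) n).filter (fun P => F0 P.headI = 3 * k + 1)`, `M = 1`, `strip_mass`. (`Br k W` gives
`St k z` for the vertices by `V_hon`, so `isSaw_toL`, `mem_saw`, and `toL_headI`.)

`Arc_sum`: the sets `Arc (r + 1)`, `r < R`, are disjoint (the largest column of the word is `r + 1`); let `P` be
their union, so `∑ r < R, ms xE (Arc (r + 1)) <= ms xE P` by `ms_disj`. Claim `ms xE P <= 3`. It is enough to bound, for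
every `N`, the words of length `< N` (for instance use `ms_le_of_count` with
`F n = (saw (St R) n).filter (fun P => F0 P.headI = 0 ∧ 0 < n)`, and bound `∑ n < N, xc ^ (n + 1) * card (F n)`).
Let `c : Par := ⟨N + R + 5, N + 5, N + 5, 0, N + 5, N + 5, 0⟩`. The map `P ↦ (P.headI + (-1, 0)) :: P` sends `F n`
injectively into `ex c 3 n ∪ ex c (-3) n`, `n < N`: `P = v :: w :: r` is in `D c` (vertices of the strip with few
steps, as in the proof of `strip_mass`, `saw_near`), `F0 v = 0`, `v ≠ o` because `n > 0` and `P` is nodup with last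
two vertices `o, o'`; `u = v + (-1, 0)` has `F0 u = -2`, so `u` is not in `D c` (`F3 u = 2 > 0`; if `u.2 = 0` then
`v = (0, 0) = o`, excluded, so `u` is not in the slit); `u ≠ w` (`w` is in the strip or `w = o'`; if `w = o'` then
`v = o`); `hon u` and adjacency are clear; the kind of the exit is `3` or `-3` by `exit_class` and `u - v = (-1, 0)`.
So `∑ n < N, xc ^ (n + 1) * card (F n) <= mass c 3 + mass c (-3)` (`mass_eq`, as in `strip_mass`). Real part of
`mass_ident c`, `no_slit` and `cos_nonneg_of` (as in `mass0_le`): `cos (3 pi / 8) * (mass c 3 + mass c (-3)) <= 1`,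
and `cos (3 pi / 8) = sin (pi / 8) >= 0.35` (`sin_bound` in `Low.lean`), `1 / 0.35 < 3`.
-/

namespace Pool.Agent.HHP

open Pool.Agent.Hhelper14.SAW Finset
open scoped ENNReal

/-- The critical fugacity in `[0, ∞]`. -/
noncomputable def xE : ℝ≥0∞ := ENNReal.ofReal xc

lemma one_le_mu : 1 ≤ mu := by
  unfold mu
  rw [Real.cos_pi_div_eight]
  have h1 : 0 ≤ Real.sqrt 2 := Real.sqrt_nonneg _
  have h2 : 1 ≤ Real.sqrt (2 + Real.sqrt 2) := by
    apply Real.le_sqrt_of_sq_le; nlinarith
  linarith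

lemma xE_le : xE ≤ 1 := by
  unfold xE
  refine ENNReal.ofReal_le_one.2 ?_
  unfold xc
  rw [div_le_one mu_pos]
  exact one_le_mu

lemma xE_ne : xE ≠ 0 ∧ xE ≠ ∞ :=
  ⟨(ENNReal.ofReal_pos.2 xc_pos).ne', ENNReal.ofReal_ne_top⟩

theorem Br_one (k : ℕ) : ms xE (Br k) ≤ 1 := by
  have := ms_le_of_count (P := Br k) (fun n => (saw (St k) n).filter (fun P => F0 P.headI = 3 * k + 1))
    (by
      intro W hW
      rw [Finset.mem_filter, mem_saw (St_dom k), toL_headI]
      exact ⟨isSaw_toL (St_dom k) hW.1.1 (fun z hz => ⟨V_hon hz, hW.1.2 z hz⟩), hW.2⟩)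
    xc_pos.le (M := 1) (fun N => strip_mass k N)
  rw [ENNReal.ofReal_one] at this
  exact this

lemma sin_ge : 0.35 ≤ Real.sin (Real.pi / 8) := by
  rw [Real.sin_pi_div_eight]
  have h2 : Real.sqrt 2 ≤ 1.5 := by
    rw [Real.sqrt_le_left (by norm_num)]; norm_num
  have : 0.7 ≤ Real.sqrt (2 - Real.sqrt 2) := by
    apply Real.le_sqrt_of_sq_le; nlinarith
  linarith

lemma cos3 : Real.cos (((3 : ℤ) : ℝ) * (Real.pi / 8)) = Real.sin (Real.pi / 8) := by
  rw [← Real.cos_pi_div_two_sub]; congr 1; push_cast; ring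

lemma cos3' : Real.cos (((-3 : ℤ) : ℝ) * (Real.pi / 8)) = Real.sin (Real.pi / 8) := by
  have : ((-3 : ℤ) : ℝ) * (Real.pi / 8) = -(((3 : ℤ) : ℝ) * (Real.pi / 8)) := by push_cast; ring
  rw [this, Real.cos_neg, cos3]

/-- The total mass of the exits to the left of a domain that ends at the start. -/
lemma mass3_le (c : Par) (ha : c.a3 = 0) (hb : c.b3 = 0) : mass c 3 + mass c (-3) ≤ 3 := by
  have h := congrArg Complex.re (mass_ident c)
  rw [Complex.re_sum] at h
  have e : ∀ k ∈ Finset.Icc (-5 : ℤ) 5, (zt k * (mass c k : ℂ)).re = Real.cos (k * (Real.pi / 8)) * mass c k := by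
    intro k _
    rw [Complex.re_mul_ofReal, zt_re]
  rw [Finset.sum_congr rfl e, Complex.one_re] at h
  have hnn : ∀ k ∈ Finset.Icc (-5 : ℤ) 5, 0 ≤ Real.cos (k * (Real.pi / 8)) * mass c k := by
    intro k _
    by_cases hk : 3 < k ∨ k < -3
    · rw [no_slit c ha hb hk]; simp
    · push Not at hk
      exact mul_nonneg (cos_nonneg_of hk.2 hk.1) (mass_nonneg _ _)
  have h0 : ∑ k ∈ ({3, -3} : Finset ℤ), Real.cos (k * (Real.pi / 8)) * mass c k ≤
      ∑ k ∈ Finset.Icc (-5 : ℤ) 5, Real.cos (k * (Real.pi / 8)) * mass c k :=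
    Finset.sum_le_sum_of_subset_of_nonneg (by
      intro x hx
      rw [Finset.mem_insert, Finset.mem_singleton] at hx
      rw [Finset.mem_Icc]
      omega) (fun k hk _ => hnn k hk)
  rw [h, Finset.sum_pair (by norm_num), cos3, cos3'] at h0
  have h1 := sin_ge
  have h2 := mass_nonneg c 3
  have h3 := mass_nonneg c (-3)
  have h4 := mul_le_mul_of_nonneg_right h1 h2
  have h5 := mul_le_mul_of_nonneg_right h1 h3
  linarith

/-- The walks of a strip that come back to the left border. -/
theorem arc_mass (R N : ℕ) : ∑ n ∈ range N, xc ^ (n + 1) *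
    (((saw (St R) n).filter (fun P => F0 P.headI = 0 ∧ 0 < n)).card : ℝ) ≤ 3 := by
  set c : Par := ⟨N + R + 5, N + 5, N + 5, 0, N + 5, N + 5, 0⟩ with hc
  obtain ⟨B, hB⟩ := saw_empty' c
  refine le_trans ?_ (mass3_le c rfl rfl)
  have hBm : ∀ n, max B N ≤ n → saw (D c) n = ∅ := fun n hn => hB n (le_trans (le_max_left _ _) hn)
  rw [mass_eq hBm, mass_eq hBm, ← Finset.sum_add_distrib]
  have hx := xc_pos
  refine le_trans (Finset.sum_le_sum (g := fun n => xc ^ (n + 1) * ((ex c 3 n).card : ℝ) +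
      xc ^ (n + 1) * ((ex c (-3) n).card : ℝ)) ?_)
    (Finset.sum_le_sum_of_subset_of_nonneg (by
      intro n hn; rw [Finset.mem_range] at *; exact lt_of_lt_of_le hn (le_max_right _ _)) (fun n _ _ => by positivity))
  intro n hn
  rw [Finset.mem_range] at hn
  rw [← mul_add]
  refine mul_le_mul_of_nonneg_left ?_ (by positivity)
  norm_cast
  refine le_trans ?_ (Finset.card_union_le _ _)
  refine Finset.card_le_card_of_injOn (fun P => (P.headI + (-1, 0)) :: P) ?_ ?_
  · intro P hP
    rw [Finset.mem_coe, Finset.mem_filter, mem_saw (St_dom R)] at hP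
    obtain ⟨hP, hF, hn0⟩ := hP
    obtain ⟨v, w, r, rfl, hvw, hv⟩ := hP.cases
    simp only [List.headI_cons] at hF ⊢
    have hnear := saw_near (St_dom R) n _ hP
    have hvo : v ≠ o := by
      obtain ⟨h1, h2, h3, t, h4, h5⟩ := hP
      rintro rfl
      cases t with
      | nil =>
        rw [h4] at h1
        simp at h1
        omega
      | cons a t =>
        simp only [List.cons_append, List.cons.injEq] at h4
        have : o ∈ w :: r := by rw [h4.2]; simp
        exact (List.nodup_cons.1 h2).1 this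
    have hvo' : ¬ (v.1 = 0 ∧ v.2 = 0) := fun h => hvo (Prod.ext h.1 h.2)
    have hP' : IsSaw (D c) n (v :: w :: r) := by
      obtain ⟨h1, h2, h3, t, h4, h5⟩ := hP
      refine ⟨h1, h2, h3, t, h4, ?_⟩
      intro x hx
      have h6 := h5 x hx
      have h7 := hnear x (by
        rw [h4]; simp only [List.mem_append, List.mem_cons, List.not_mem_nil, or_false] at hx ⊢
        tauto)
      have h8 := (St_dom R).off x h6
      obtain ⟨g1, g2, g3⟩ := h6
      refine ⟨g1, h8, ?_⟩
      simp only [hc, F0, F1, F2, F3, F4, F5] at *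
      push_cast
      refine ⟨?_, ?_, ?_, ?_, ?_⟩ <;> omega
    have hadj : Adj (v + (-1, 0)) v := by
      have h9 := hv.1
      refine ⟨?_, h9, ?_⟩
      · simp only [hon, F0, Prod.fst_add, Prod.snd_add] at *; omega
      · simp [U]
    have hs : ¬ slit (v + (-1, 0)) := by
      simp only [slit, F0, Prod.fst_add, Prod.snd_add] at *; omega
    have huw : v + (-1, 0) ≠ w := by
      rintro rfl
      have hw : v + (-1, 0) ∈ v :: (v + (-1, 0)) :: r := by simp
      obtain ⟨h1, h2, h3, t, h4, h5⟩ := hP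
      rw [h4] at hw
      simp only [List.mem_append, List.mem_cons, List.not_mem_nil, or_false] at hw
      have hw2 : St R (v + (-1, 0)) ∨ v + (-1, 0) = o' := by
        rcases hw with hw | hw | hw
        · left; exact h5 _ (by simp [hw])
        · left; exact h5 _ (by simp [hw])
        · right; exact hw
      rcases hw2 with hw2 | hw2
      · simp only [St, F0, Prod.fst_add, Prod.snd_add] at *; omega
      · exact hs (hw2 ▸ slit_o')
    have hu : ¬ D c (v + (-1, 0)) := by
      rintro ⟨-, -, -, -, -, h5, h6⟩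
      simp only [hc, F0, F3, Prod.fst_add, Prod.snd_add] at *
      rcases lt_or_ge (v.2 + 0) 0 with hy | hy
      · have := (h6 hy).2; omega
      · have := (h5 hy).2; omega
    rw [Finset.mem_coe, Finset.mem_union, mem_ex, mem_ex]
    have hk := exit_class hP' hadj huw hu
    have he : v + (-1, 0) - v = (-1, 0) := by ring
    have hT : Tn ((v + (-1, 0)) :: v :: w :: r) = 3 ∨ Tn ((v + (-1, 0)) :: v :: w :: r) = -3 := by
      generalize Tn ((v + (-1, 0)) :: v :: w :: r) = k at hk
      unfold ExitKind at hk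
      rw [he] at hk
      simp only [Prod.mk.injEq] at hk
      omega
    rcases hT with hT | hT
    · left; exact ⟨v + (-1, 0), v, w, r, rfl, hP', hadj, huw, hu, hT⟩
    · right; exact ⟨v + (-1, 0), v, w, r, rfl, hP', hadj, huw, hu, hT⟩
  · intro P _ P' _ h
    simp only [List.cons.injEq] at h
    exact h.2

theorem Arc_sum (R : ℕ) : ∑ r ∈ range R, ms xE (Arc (r + 1)) ≤ 3 := by
  have h1 : ∑ r ∈ range R, ms xE (Arc (r + 1)) ≤
      ms xE (fun W => In R W ∧ F0 (E W) = 0 ∧ W ≠ []) := by
    refine ms_disj _ ?_ ?_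
    · rintro r hr W ⟨g1, g2, g3, g4⟩
      rw [Finset.mem_range] at hr
      exact ⟨g1.mono hr, g3, g4⟩
    · rintro r - r' - W ⟨g1, ⟨z, hz, hz'⟩, -, -⟩ ⟨g1', ⟨y, hy, hy'⟩, -, -⟩
      have a1 := (g1.2 y hy).2
      have a2 := (g1'.2 z hz).2
      push_cast at *
      omega
  refine h1.trans ?_
  have h2 := ms_le_of_count (P := fun W => In R W ∧ F0 (E W) = 0 ∧ W ≠ [])
    (fun n => (saw (St R) n).filter (fun P => F0 P.headI = 0 ∧ 0 < n))
    (by
      rintro W ⟨hW, hE, hne⟩
      rw [Finset.mem_filter, mem_saw (St_dom R), toL_headI]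
      exact ⟨isSaw_toL (St_dom R) hW.1 (fun z hz => ⟨V_hon hz, hW.2 z hz⟩), hE,
        List.length_pos_of_ne_nil hne⟩)
    xc_pos.le (M := 3) (fun N => arc_mass R N)
  have h3 : ENNReal.ofReal 3 = 3 := by
    simp
  rw [h3] at h2
  exact h2

end Pool.Agent.HHP
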