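import Pool.Agent.HHP.Basic

/-!
Project HHP: geometry of words (residues of `F0`, crossings of the lines between the columns, frames).
-/

namespace Pool.Agent.HHP

open Pool.Agent.Hhelper14.SAW

lemma F0_add (a b : ℤ × ℤ) : F0 (a + b) = F0 a + F0 b := by
  simp only [F0, Prod.fst_add, Prod.snd_add]; ring
lemma F0_sub (a b : ℤ × ℤ) : F0 (a - b) = F0 a - F0 b := by
  simp only [F0, Prod.fst_sub, Prod.snd_sub]; ring

/-- Admissible states (vertex, direction in which it is entered). -/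
def Gd (p d : ℤ × ℤ) : Prop :=
  (F0 p % 3 = 0 ∧ (d = (1, 0) ∨ d = (0, -1) ∨ d = (-1, 1))) ∨
    (F0 p % 3 = 1 ∧ (d = (-1, 0) ∨ d = (0, 1) ∨ d = (1, -1)))

lemma Gd.step {p d : ℤ × ℤ} (h : Gd p d) (b : Bool) : Gd (p + tn b d) (tn b d) := by
  obtain ⟨x, y⟩ := p
  rcases h with ⟨h, rfl | rfl | rfl⟩ | ⟨h, rfl | rfl | rfl⟩ <;> cases b <;>
    simp only [Gd, tn, L, R, F0, Prod.mk_add_mk, Prod.mk.injEq, if_true, if_false, Bool.false_eq_true] at h ⊢ <;>
    norm_num <;> omega

lemma Gd.end {p d : ℤ × ℤ} (h : Gd p d) (W : List Bool) : Gd (ep p d W) (ed d W) := by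
  induction W generalizing p d with
  | nil => exact h
  | cons b W ih => exact ih (h.step b)

lemma gd_o : Gd (0, 0) (1, 0) := by
  left; exact ⟨by decide, Or.inl rfl⟩

lemma gd_std (W : List Bool) : Gd (E W) (Dr W) := gd_o.end W

lemma Gd.res {p d : ℤ × ℤ} (h : Gd p d) : F0 p % 3 = 0 ∨ F0 p % 3 = 1 := by
  rcases h with h | h
  · exact Or.inl h.1
  · exact Or.inr h.1

lemma Gd.mem {p d : ℤ × ℤ} (h : Gd p d) {W : List Bool} {z : ℤ × ℤ} (hz : z ∈ vs p d W) :
    F0 z % 3 = 0 ∨ F0 z % 3 = 1 := by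
  induction W generalizing p d with
  | nil => simp only [vs, List.mem_singleton] at hz; rw [hz]; exact h.res
  | cons b W ih =>
    simp only [vs, List.mem_cons] at hz
    rcases hz with rfl | hz
    · exact h.res
    · exact ih (h.step b) hz

lemma res_std {W : List Bool} {z : ℤ × ℤ} (hz : z ∈ V W) : F0 z % 3 = 0 ∨ F0 z % 3 = 1 := gd_o.mem hz

/-- Crossing a line to the right. -/
lemma cross_right {p d : ℤ × ℤ} (h : Gd p d) {b : Bool} {i : ℤ} (h1 : F0 p < 3 * i)
    (h2 : 3 * i ≤ F0 (p + tn b d)) : tn b d = (1, 0) ∧ F0 p = 3 * i - 2 ∧ F0 (p + tn b d) = 3 * i := by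
  obtain ⟨x, y⟩ := p
  rcases h with ⟨h, rfl | rfl | rfl⟩ | ⟨h, rfl | rfl | rfl⟩ <;> cases b <;>
    simp only [tn, L, R, F0, Prod.mk_add_mk, Prod.mk.injEq, if_true, if_false, Bool.false_eq_true] at * <;> omega

/-- Crossing a line to the left. -/
lemma cross_left {p d : ℤ × ℤ} (h : Gd p d) {b : Bool} {i : ℤ} (h1 : 3 * i ≤ F0 p)
    (h2 : F0 (p + tn b d) < 3 * i) : tn b d = (-1, 0) ∧ F0 p = 3 * i ∧ F0 (p + tn b d) = 3 * i - 2 := by
  obtain ⟨x, y⟩ := p
  rcases h with ⟨h, rfl | rfl | rfl⟩ | ⟨h, rfl | rfl | rfl⟩ <;> cases b <;>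
    simp only [tn, L, R, F0, Prod.mk_add_mk, Prod.mk.injEq, if_true, if_false, Bool.false_eq_true, true_and] at * <;> omega

/-- No two consecutive horizontal directions. -/
lemma not_hz_of_tn {p d : ℤ × ℤ} (h : Gd p d) {b : Bool} (h1 : hz (tn b d)) : ¬ hz d := by
  unfold hz at *
  rcases h with ⟨h, rfl | rfl | rfl⟩ | ⟨h, rfl | rfl | rfl⟩ <;> cases b <;> revert h1 <;> decide

lemma rt_spec {W : List Bool} (h : F0 (E W) % 3 = 1) (h' : ¬ hz (Dr W)) : tn (rt W) (Dr W) = (1, 0) := by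
  rcases gd_std W with ⟨h1, -⟩ | ⟨-, h1 | h1 | h1⟩
  · omega
  · exact absurd (Or.inr h1) h'
  · have : rt W = false := by unfold rt; rw [h1]; decide
    rw [this, h1]; decide
  · have : rt W = true := by unfold rt; rw [h1]; decide
    rw [this, h1]; decide

lemma lt_spec {W : List Bool} (h : F0 (E W) % 3 = 0) (h' : ¬ hz (Dr W)) : tn (lt W) (Dr W) = (-1, 0) := by
  rcases gd_std W with ⟨-, h1 | h1 | h1⟩ | ⟨h1, -⟩
  · exact absurd (Or.inl h1) h'
  · have : lt W = false := by unfold lt; rw [h1]; decide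
    rw [this, h1]; decide
  · have : lt W = true := by unfold lt; rw [h1]; decide
    rw [this, h1]; decide
  · omega

lemma rt_unique {W : List Bool} {b : Bool} (h : tn b (Dr W) = (1, 0)) : b = rt W := by
  have hg := gd_std W
  rcases hg with ⟨-, h1 | h1 | h1⟩ | ⟨-, h1 | h1 | h1⟩ <;> cases b <;> unfold rt <;> rw [h1] at h ⊢ <;>
    revert h <;> decide

lemma lt_unique {W : List Bool} {b : Bool} (h : tn b (Dr W) = (-1, 0)) : b = lt W := by
  have hg := gd_std W
  rcases hg with ⟨-, h1 | h1 | h1⟩ | ⟨-, h1 | h1 | h1⟩ <;> cases b <;> unfold lt <;> rw [h1] at h ⊢ <;>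
    revert h <;> decide

/-- Turning to the right border: frame of the rest. -/
lemma app_right {P Q : List Bool} {b : Bool} (h : tn b (Dr P) = (1, 0)) :
    V (P ++ b :: Q) = V P ++ (V Q).map (fun z => (E P + (1, 0)) + z) ∧
      E (P ++ b :: Q) = (E P + (1, 0)) + E Q ∧ Dr (P ++ b :: Q) = Dr Q := by
  refine ⟨?_, ?_, ?_⟩
  · rw [V_append, h, vs_right]
  · rw [E_append, h, ep_right]
  · rw [Dr_append, h]; rfl

/-- Turning back to the left: frame of the rest. -/
lemma app_left {P Q : List Bool} {b : Bool} (h : tn b (Dr P) = (-1, 0)) :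
    V (P ++ b :: Q) = V P ++ (V Q).map (fun z => (E P + (-1, 0)) - z) ∧
      E (P ++ b :: Q) = (E P + (-1, 0)) - E Q ∧ Dr (P ++ b :: Q) = - Dr Q := by
  refine ⟨?_, ?_, ?_⟩
  · rw [V_append, h, vs_left]
  · rw [E_append, h, ep_left]
  · rw [Dr_append, h, ed_left]

lemma hz_neg {d : ℤ × ℤ} : hz (-d) ↔ hz d := by
  obtain ⟨x, y⟩ := d
  simp only [hz, Prod.neg_mk, Prod.mk.injEq]; omega

/-- A word of `Br k` does not end with a horizontal step. -/
lemma Br.not_hz {k : ℕ} {W : List Bool} (h : Br k W) : ¬ hz (Dr W) := by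
  obtain ⟨⟨hN, hin⟩, hE⟩ := h
  rcases List.eq_nil_or_concat W with rfl | ⟨W', b, rfl⟩
  · simp [E_nil, F0] at hE; omega
  · rw [List.concat_eq_append] at *
    have e1 : V (W' ++ [b]) = V W' ++ [E W' + tn b (Dr W')] := by rw [V_append]; rfl
    have e2 : E (W' ++ [b]) = E W' + tn b (Dr W') := by rw [E_append]; rfl
    have e3 : Dr (W' ++ [b]) = tn b (Dr W') := by rw [Dr_append]; rfl
    rw [e3]
    have h1 := hin (E W') (by rw [e1]; exact List.mem_append_left _ (E_mem W'))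
    rw [e2, F0_add] at hE
    rintro (h2 | h2) <;> rw [h2] at hE <;> simp only [F0] at hE h1
    · have := gd_std W'
      rcases this with ⟨h3, h4⟩ | ⟨h3, h4⟩
      · rcases h4 with h4 | h4 | h4 <;> rw [h4] at h2 <;> revert h2 <;> cases b <;> decide
      · simp only [F0] at h3; omega
    · omega

lemma Br.tn_rt {k : ℕ} {W : List Bool} (h : Br k W) : tn (rt W) (Dr W) = (1, 0) :=
  rt_spec (by rw [h.2]; omega) h.not_hz

lemma Be.tn_lt {k : ℕ} {W : List Bool} (h : Be k W) : tn (lt W) (Dr W) = (-1, 0) :=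
  lt_spec (by rw [h.2.1]; omega) h.2.2

lemma In.mono {n m : ℕ} (h : n ≤ m) {W : List Bool} (hW : In n W) : In m W :=
  ⟨hW.1, fun z hz => ⟨(hW.2 z hz).1, by have := (hW.2 z hz).2; omega⟩⟩

/-- Concatenation of a bridge and a word. -/
lemma join {a n : ℕ} {P Q : List Bool} (hP : Br a P) (hQ : In n Q) :
    In (a + 1 + n) (P ++ rt P :: Q) ∧ Ren (a + 1) (P ++ rt P :: Q) := by
  obtain ⟨e1, e2, e3⟩ := app_right (Q := Q) hP.tn_rt
  have hE : F0 (E P + (1, 0)) = 3 * a + 3 := by rw [F0_add, hP.2]; simp [F0]; ring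
  refine ⟨⟨?_, ?_⟩, ?_⟩
  · rw [e1, List.nodup_append]
    refine ⟨hP.1.1, hQ.1.map (fun x y h => by simpa using h), ?_⟩
    intro x hx y hy hxy
    obtain ⟨z, hz, rfl⟩ := List.mem_map.1 hy
    have h1 := (hP.1.2 x hx).2
    have h2 := (hQ.2 z hz).1
    rw [hxy, F0_add, hE] at h1
    omega
  · intro z hz
    rw [e1, List.mem_append] at hz
    rcases hz with hz | hz
    · have := hP.1.2 z hz; push_cast; omega
    · obtain ⟨w, hw, rfl⟩ := List.mem_map.1 hz
      have := hQ.2 w hw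
      rw [F0_add, hE]; push_cast; omega
  · refine ⟨P, rt P, Q, rfl, ?_, ?_⟩
    · intro z hz
      have := (hP.1.2 z hz).2; push_cast; omega
    · intro z hz
      rw [hP.tn_rt, vs_right] at hz
      obtain ⟨w, hw, rfl⟩ := List.mem_map.1 hz
      have := hQ.2 w hw
      rw [F0_add, hE]; push_cast; omega

lemma join_Br {a c : ℕ} {P Q : List Bool} (hP : Br a P) (hQ : Br c Q) : Br (a + 1 + c) (P ++ rt P :: Q) := by
  refine ⟨(join hP hQ.1).1, ?_⟩
  rw [(app_right hP.tn_rt).2.1, F0_add, F0_add, hP.2, hQ.2]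
  simp [F0]; ring

lemma join_Be {a c : ℕ} {P Q : List Bool} (hP : Br a P) (hQ : Be c Q) : Be (a + 1 + c) (P ++ rt P :: Q) := by
  refine ⟨(join hP hQ.1).1, ?_, ?_⟩
  · rw [(app_right hP.tn_rt).2.1, F0_add, F0_add, hP.2, hQ.2.1]
    simp [F0]; ring
  · rw [(app_right hP.tn_rt).2.2]; exact hQ.2.2

/-- Uniqueness of the crossing of a renewal line. -/
lemma ren_uniq {i : ℤ} {W1 W1' : List Bool} {b b' : Bool} {W2 W2' : List Bool}
    (h : W1 ++ b :: W2 = W1' ++ b' :: W2') (h1 : ∀ z ∈ V W1, F0 z < 3 * i)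
    (h2 : ∀ z ∈ vs (E W1 + tn b (Dr W1)) (tn b (Dr W1)) W2, 3 * i ≤ F0 z)
    (h1' : ∀ z ∈ V W1', F0 z < 3 * i)
    (h2' : ∀ z ∈ vs (E W1' + tn b' (Dr W1')) (tn b' (Dr W1')) W2', 3 * i ≤ F0 z) :
    W1 = W1' ∧ b = b' ∧ W2 = W2' :=
  split_uniq (fun z => F0 z < 3 * i) h (h1 _ (E_mem _)) (fun z hz => not_lt.2 (h2 z hz)) (h1' _ (E_mem _))
    (fun z hz => not_lt.2 (h2' z hz))

/-- Cutting a word of `In n` at a renewal line. -/
lemma ren_split {n i : ℕ} {W : List Bool} (hW : In n W) (hi : 1 ≤ i) (hin : i ≤ n) (hr : Ren i W) :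
    ∃ P Q, W = P ++ rt P :: Q ∧ Br (i - 1) P ∧ In (n - i) Q := by
  obtain ⟨P, b, Q, rfl, h1, h2⟩ := hr
  have hc := cross_right (gd_std P) (b := b) (i := i) (h1 _ (E_mem P))
    (h2 _ (head_mem _ _ _))
  obtain rfl := rt_unique hc.1
  obtain ⟨e1, e2, e3⟩ := app_right (Q := Q) hc.1
  have hE : F0 (E P + (1, 0)) = 3 * i := by rw [← hc.1]; exact hc.2.2
  obtain ⟨hN, hin'⟩ := hW
  rw [e1] at hN hin'
  refine ⟨P, Q, rfl, ⟨⟨(List.nodup_append.1 hN).1, ?_⟩, ?_⟩, ⟨?_, ?_⟩⟩
  · intro z hz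
    have g1 := h1 z hz
    have g2 := hin' z (List.mem_append_left _ hz)
    have g3 := res_std hz
    refine ⟨g2.1, ?_⟩
    have : ((i - 1 : ℕ) : ℤ) = (i : ℤ) - 1 := by omega
    rw [this]; omega
  · have : ((i - 1 : ℕ) : ℤ) = (i : ℤ) - 1 := by omega
    rw [hc.2.1, this]; ring
  · exact List.Nodup.of_map _ (List.nodup_append.1 hN).2.1
  · intro z hz
    have g1 := hin' _ (List.mem_append_right _ (List.mem_map_of_mem (f := fun z => (E P + (1, 0)) + z) hz))
    have g2 := h2 ((E P + (1, 0)) + z) (by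
      rw [hc.1, vs_right]; exact List.mem_map_of_mem (f := fun z => (E P + (1, 0)) + z) hz)
    rw [F0_add, hE] at g1 g2
    have : ((n - i : ℕ) : ℤ) = (n : ℤ) - i := by omega
    rw [this]; omega

lemma prefix_cases {A B C D : List Bool} {b c : Bool} (h : A ++ b :: C = B ++ c :: D) :
    (∃ X, A = B ++ c :: X ∧ D = X ++ b :: C) ∨ (A = B ∧ b = c ∧ C = D) ∨ ∃ X, B = A ++ b :: X ∧ C = X ++ c :: D := by
  rcases List.append_eq_append_iff.1 h with ⟨Y, hY1, hY2⟩ | ⟨Y, hY1, hY2⟩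
  · cases Y with
    | nil =>
      right; left
      simp at hY1 hY2
      exact ⟨hY1.symm, hY2.1, hY2.2⟩
    | cons y Y =>
      right; right
      simp only [List.cons_append, List.cons.injEq] at hY2
      exact ⟨Y, by rw [hY1, hY2.1], hY2.2⟩
  · cases Y with
    | nil =>
      right; left
      simp at hY1 hY2
      exact ⟨hY1, hY2.1.symm, hY2.2.symm⟩
    | cons y Y =>
      left
      simp only [List.cons_append, List.cons.injEq] at hY2
      exact ⟨Y, by rw [hY1, hY2.1], hY2.2⟩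

/-- Renewal lines of a concatenation, beyond the junction. -/
lemma ren_high {a n : ℕ} {P Q : List Bool} (hP : Br a P) (hQ : In n Q) {j : ℕ} (hj : 1 ≤ j) :
    Ren (a + 1 + j) (P ++ rt P :: Q) ↔ Ren j Q := by
  have hE : F0 (E P + (1, 0)) = 3 * a + 3 := by rw [F0_add, hP.2]; simp [F0]; ring
  constructor
  · rintro ⟨W1, b, W2, e, h1, h2⟩
    rcases prefix_cases e.symm with ⟨X, hX1, hX2⟩ | ⟨hX1, hX2, hX3⟩ | ⟨X, hX1, hX2⟩
    · -- the word continues after `W1`
      subst hX1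
      obtain ⟨e1, e2, e3⟩ := app_right (Q := X) hP.tn_rt
      refine ⟨X, b, W2, hX2, ?_, ?_⟩
      · intro z hz
        have := h1 ((E P + (1, 0)) + z) (by
          rw [e1]; exact List.mem_append_right _ (List.mem_map_of_mem (f := fun z => (E P + (1, 0)) + z) hz))
        rw [F0_add, hE] at this; push_cast at this; omega
      · intro z hz
        rw [e2, e3, add_assoc, vs_shift] at h2
        have := h2 ((E P + (1, 0)) + z) (List.mem_map_of_mem (f := fun z => (E P + (1, 0)) + z) hz)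
        rw [F0_add, hE] at this; push_cast at this; omega
    · exfalso
      subst hX1
      have := h2 _ (head_mem _ _ _)
      rw [hX2, hP.tn_rt, hE] at this
      push_cast at this; omega
    · exfalso
      have := h2 (E P) (by
        rw [hX1, E_append, hX2, vs_append]
        exact List.mem_append_left _ (ep_mem _ _ _))
      rw [hP.2] at this
      push_cast at this; omega
  · rintro ⟨X, b, W2, rfl, h1, h2⟩
    obtain ⟨e1, e2, e3⟩ := app_right (Q := X) hP.tn_rt
    refine ⟨P ++ rt P :: X, b, W2, by simp, ?_, ?_⟩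
    · intro z hz
      rw [e1, List.mem_append] at hz
      rcases hz with hz | hz
      · have := (hP.1.2 z hz).2; push_cast; omega
      · obtain ⟨w, hw, rfl⟩ := List.mem_map.1 hz
        have := h1 w hw
        rw [F0_add, hE]; push_cast; omega
    · intro z hz
      rw [e2, e3, add_assoc, vs_shift] at hz
      obtain ⟨w, hw, rfl⟩ := List.mem_map.1 hz
      have := h2 w hw
      rw [F0_add, hE]; push_cast; omega

/-- Renewal lines of a concatenation, before the junction. -/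
lemma ren_low {a n : ℕ} {P Q : List Bool} (hP : Br a P) (hQ : In n Q) {i : ℕ} (hi : i ≤ a) :
    Ren i (P ++ rt P :: Q) ↔ Ren i P := by
  have hE : F0 (E P + (1, 0)) = 3 * a + 3 := by rw [F0_add, hP.2]; simp [F0]; ring
  have hE0 := hP.2
  have hEP : ¬ F0 (E P) < 3 * (i : ℤ) := by rw [hE0]; omega
  constructor
  · rintro ⟨W1, b, W2, e, h1, h2⟩
    rcases prefix_cases e.symm with ⟨X, hX1, hX2⟩ | ⟨hX1, hX2, hX3⟩ | ⟨X, hX1, hX2⟩
    · exfalso
      exact hEP (h1 _ (by rw [hX1, V_append]; exact List.mem_append_left _ (E_mem P)))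
    · exfalso
      exact hEP (h1 _ (by rw [hX1]; exact E_mem P))
    · refine ⟨W1, b, X, hX1, h1, ?_⟩
      intro z hz
      apply h2
      rw [hX2, vs_append]
      exact List.mem_append_left _ hz
  · rintro ⟨W1, b, X, e, h1, h2⟩
    refine ⟨W1, b, X ++ rt P :: Q, ?_, h1, ?_⟩
    · have e0 : P ++ rt P :: Q = (W1 ++ b :: X) ++ rt P :: Q := by rw [← e]
      rw [e0]
      simp
    · intro z hz
      rw [vs_append, List.mem_append] at hz
      rcases hz with hz | hz
      · exact h2 z hz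
      · have e1 : ep (E W1 + tn b (Dr W1)) (tn b (Dr W1)) X = E P := by rw [e, E_append]
        have e2 : ed (tn b (Dr W1)) X = Dr P := by rw [e, Dr_append]
        rw [e1, e2, hP.tn_rt, vs_right] at hz
        obtain ⟨w, hw, rfl⟩ := List.mem_map.1 hz
        have := (hQ.2 w hw).1
        rw [F0_add, hE]; omega

lemma Gd.ep_le {p d : ℤ × ℤ} (h : Gd p d) (W : List Bool) : F0 (ep p d W) ≤ F0 p + 2 * W.length := by
  induction W generalizing p d with
  | nil => simp [ep]
  | cons b W ih =>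
    have h1 := ih (h.step b)
    have h2 : F0 (tn b d) ≤ 2 := by
      rcases h with ⟨-, rfl | rfl | rfl⟩ | ⟨-, rfl | rfl | rfl⟩ <;> cases b <;> decide
    rw [F0_add] at h1
    simp only [ep, List.length_cons]
    push_cast
    omega

/-- The length of a word is at least the column of its last vertex. -/
lemma len_ge {W : List Bool} {k : ℕ} (h : 3 * (k : ℤ) ≤ F0 (E W)) : k ≤ W.length := by
  have := gd_o.ep_le W
  have e : F0 ((0, 0) : ℤ × ℤ) = 0 := by decide
  rw [e] at this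
  change F0 (E W) ≤ _ at this
  omega

end Pool.Agent.HHP
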