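import Pool.Agent.HHP.Geo
import Pool.Agent.HHP.Tsum
import Pool.Agent.Hhelper14.SAW.Quant

/-!
Project HHP: words and the lists of vertices of `Hhelper14/SAW`.

A word `W` gives the list `toL W = (V W).reverse ++ [o']` (latest vertex first), an element of
`saw p W.length` whenever all the vertices of `W` are in `p` and `V W` is nodup and does not contain `o'`.

PAPER PROOFS. `isSaw_toL`: the length is `vs_length`; `HChain`: consecutive vertices of `vs p d W` differ by a
unit vector and are honeycomb vertices: for an admissible state `Gd p d` we have `hon p`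
(`F0 p % 3` is 0 or 1, and `(p.1 - p.2) % 3 = - F0 p % 3`), `hon (p - d)`, and `p - d` is the vertex before `p`.
Induction on `W` from the end (`List.reverseRecOn`) with `isSaw_succ_iff`/`IsSaw.cons` is convenient: for
`W ++ [b]`, `toL (W ++ [b]) = (E W + tn b (Dr W)) :: toL W` and `toL W = E W :: (E W - Dr W) :: r`.
`toL_surj`: induction on `n`; `isSaw_succ_iff` and `hex_nbr` (the new vertex is `v + L (v - w)` or `v + R (v - w)`).
`toL_inj`: from `toL (W ++ [b])` one reads `toL W` and then `b` because `L d ≠ R d` (`LR_ne`).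
`ms_le_of_count`: `ms` is the supremum of its finite sums; a finite set of words of `P` is mapped injectively by
`toL`; group by the length.
`gf_le`: `x * gf (card (saw (St T) .)) x N = ∑ n < N, ∑ P in saw (St T) n, x ^ (n + 1)`; every such `P` is `toL W` with
`|W| = n`, `In T W` (choose `W` for each `P`; different `P` have different `W`), a finite sum of terms of `ms`.
-/

namespace Pool.Agent.HHP

open Pool.Agent.Hhelper14.SAW Pool.Agent.Hhelper63.HW Finset
open scoped ENNReal

/-- The list of vertices, latest first. -/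
def toL (W : List Bool) : List (ℤ × ℤ) := (V W).reverse ++ [o']

lemma V_snoc (W : List Bool) (b : Bool) : V (W ++ [b]) = V W ++ [E W + tn b (Dr W)] := by
  rw [V_append]; rfl

lemma E_snoc (W : List Bool) (b : Bool) : E (W ++ [b]) = E W + tn b (Dr W) := by
  rw [E_append]; rfl

lemma Dr_snoc (W : List Bool) (b : Bool) : Dr (W ++ [b]) = tn b (Dr W) := by
  rw [Dr_append]; rfl

lemma toL_nil : toL [] = [o, o'] := rfl

lemma toL_snoc (W : List Bool) (b : Bool) : toL (W ++ [b]) = (E W + tn b (Dr W)) :: toL W := by
  unfold toL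
  rw [V_snoc]
  simp

lemma toL_cases (W : List Bool) : ∃ r, toL W = E W :: (E W - Dr W) :: r := by
  induction W using List.reverseRecOn with
  | nil => exact ⟨[], rfl⟩
  | append_singleton W b ih =>
    obtain ⟨r, hr⟩ := ih
    refine ⟨(E W - Dr W) :: r, ?_⟩
    rw [toL_snoc, E_snoc, Dr_snoc, hr]
    congr 2
    ring

lemma toL_length (W : List Bool) : (toL W).length = W.length + 2 := by
  unfold toL V
  rw [List.length_append, List.length_reverse, vs_length]
  rfl

lemma U_Dr (W : List Bool) : U (Dr W) := by
  rcases gd_std W with ⟨-, h | h | h⟩ | ⟨-, h | h | h⟩ <;> rw [h] <;> unfold U <;> simp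

lemma U_tn (W : List Bool) (b : Bool) : U (tn b (Dr W)) := by
  have := U_Dr (W ++ [b])
  rwa [Dr_snoc] at this

lemma tn_inj {d : ℤ × ℤ} (hd : U d) {b b' : Bool} (h : tn b d = tn b' d) : b = b' := by
  have hne := LR_ne hd
  cases b <;> cases b' <;> simp only [tn, if_true, if_false, Bool.false_eq_true] at h ⊢
  · exact absurd h.symm hne
  · exact absurd h hne

lemma toL_headI (W : List Bool) : (toL W).headI = E W := by
  obtain ⟨r, hr⟩ := toL_cases W
  rw [hr]
  rfl

lemma toL_inj {W W' : List Bool} (h : toL W = toL W') : W = W' := by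
  induction W using List.reverseRecOn generalizing W' with
  | nil =>
    have := congrArg List.length h
    rw [toL_length, toL_length] at this
    simp only [List.length_nil] at this
    exact (List.length_eq_zero_iff.1 (by omega)).symm
  | append_singleton W b ih =>
    rcases List.eq_nil_or_concat W' with rfl | ⟨X, c, rfl⟩
    · have := congrArg List.length h
      rw [toL_length, toL_length] at this
      simp at this
    · rw [List.concat_eq_append] at h ⊢
      rw [toL_snoc, toL_snoc, List.cons.injEq] at h
      obtain rfl := ih h.2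
      rw [tn_inj (U_Dr W) (add_left_cancel h.1)]

lemma V_hon {W : List Bool} {z : ℤ × ℤ} (h : z ∈ V W) : hon z := by
  have := res_std h
  unfold F0 at this
  unfold hon
  omega

lemma isSaw_toL {p : ℤ × ℤ → Prop} (hp : Dom p) {W : List Bool} (h1 : (V W).Nodup) (h2 : ∀ z ∈ V W, p z) :
    IsSaw p W.length (toL W) := by
  induction W using List.reverseRecOn with
  | nil => exact isSaw_zero hp
  | append_singleton W b ih =>
    have hV := V_snoc W b
    rw [hV] at h1
    have h3 := List.nodup_append.1 h1
    have h4 : ∀ z ∈ V W, p z := fun z hz => h2 z (by rw [hV]; exact List.mem_append_left _ hz)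
    have h5 : p (E W + tn b (Dr W)) := h2 _ (by rw [hV]; simp)
    have h6 := ih h3.1 h4
    have h7 : E W + tn b (Dr W) ∉ V W := fun hmem => h3.2.2 _ hmem _ (by simp) rfl
    obtain ⟨r, hr⟩ := toL_cases W
    have hlen : (W ++ [b]).length = W.length + 1 := by simp
    have hnot : E W + tn b (Dr W) ∉ toL W := by
      unfold toL
      rw [List.mem_append, List.mem_reverse, List.mem_singleton]
      rintro (h | h)
      · exact h7 h
      · exact hp.off _ h5 (by rw [h]; exact slit_o')
    have hadj : Adj (E W + tn b (Dr W)) (E W) := by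
      refine ⟨hp.hon _ h5, V_hon (E_mem W), ?_⟩
      rw [add_sub_cancel_left]
      exact U_tn W b
    rw [toL_snoc, hlen]
    rw [hr] at h6 hnot ⊢
    exact h6.cons hadj h5 hnot

lemma toL_surj {p : ℤ × ℤ → Prop} (hp : Dom p) {n : ℕ} {P : List (ℤ × ℤ)} (h : IsSaw p n P) :
    ∃ W : List Bool, W.length = n ∧ (V W).Nodup ∧ (∀ z ∈ V W, p z) ∧ toL W = P := by
  induction n generalizing P with
  | zero =>
    rw [isSaw_zero_iff hp] at h
    refine ⟨[], rfl, ?_, ?_, h.symm⟩
    · rw [V_nil]; simp
    · intro z hz
      rw [V_nil, List.mem_singleton] at hz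
      rw [hz]; exact hp.start
  | succ n ih =>
    obtain ⟨u, v, w, r, rfl, h1, h2, h3, h4⟩ := isSaw_succ_iff.1 h
    obtain ⟨W, h5, h6, h7, h8⟩ := ih h1
    obtain ⟨r', hr⟩ := toL_cases W
    rw [h8] at hr
    simp only [List.cons.injEq] at hr
    have hv : E W = v := hr.1.symm
    have hw : E W - Dr W = w := hr.2.1.symm
    have hd : Dr W = v - w := by rw [← hw, hv]; ring
    have hadj : Adj v w := (List.isChain_cons_cons.1 h1.2.2.1).1
    have hne : u ≠ w := fun e => h4 (by simp [e])
    obtain ⟨b, hb⟩ : ∃ b, u = v + tn b (Dr W) := by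
      rcases hex_nbr h2 hadj hne with h | h
      · refine ⟨true, ?_⟩
        simp only [tn, if_true]
        rw [hd, ← h]; ring
      · refine ⟨false, ?_⟩
        simp only [tn, if_false, Bool.false_eq_true]
        rw [hd, ← h]; ring
    have hu : E W + tn b (Dr W) = u := by rw [hv, hb]
    refine ⟨W ++ [b], by simp [h5], ?_, ?_, ?_⟩
    · rw [V_snoc, hu, List.nodup_append]
      refine ⟨h6, by simp, ?_⟩
      intro x hx y hy hxy
      rw [List.mem_singleton] at hy
      apply h4
      rw [← h8]
      unfold toL
      rw [List.mem_append, List.mem_reverse]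
      left
      rw [← hy, ← hxy]
      exact hx
    · intro z hz
      rw [V_snoc, hu, List.mem_append, List.mem_singleton] at hz
      rcases hz with hz | hz
      · exact h7 z hz
      · rw [hz]; exact h3
    · rw [toL_snoc, hu, h8]

/-- An upper bound for a mass from counting. -/
lemma ms_le_of_count {P : List Bool → Prop} (F : ℕ → Finset (List (ℤ × ℤ)))
    (h : ∀ W, P W → toL W ∈ F W.length) {x M : ℝ} (hx : 0 ≤ x)
    (hM : ∀ N, ∑ n ∈ range N, x ^ (n + 1) * ((F n).card : ℝ) ≤ M) : ms (ENNReal.ofReal x) P ≤ ENNReal.ofReal M := by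
  classical
  unfold ms
  rw [ENNReal.tsum_eq_iSup_sum]
  refine iSup_le fun s => ?_
  obtain ⟨N, hN⟩ : ∃ N, ∀ W ∈ s, W.1.length < N :=
    ⟨s.sup (fun W => W.1.length) + 1, fun W hW =>
      Nat.lt_succ_of_le (Finset.le_sup (f := fun W : {W : List Bool // P W} => W.1.length) hW)⟩
  have h1 : ∑ W ∈ s, ENNReal.ofReal x ^ (W.1.length + 1) =
      ∑ n ∈ range N, ∑ W ∈ s with W.1.length = n, ENNReal.ofReal x ^ (W.1.length + 1) :=
    (Finset.sum_fiberwise_of_maps_to (fun W hW => Finset.mem_range.2 (hN W hW)) _).symm
  rw [h1]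
  calc ∑ n ∈ range N, ∑ W ∈ s with W.1.length = n, ENNReal.ofReal x ^ (W.1.length + 1)
      ≤ ∑ n ∈ range N, ENNReal.ofReal (x ^ (n + 1) * ((F n).card : ℝ)) := by
        refine Finset.sum_le_sum fun n _ => ?_
        have h2 : ∑ W ∈ s with W.1.length = n, ENNReal.ofReal x ^ (W.1.length + 1) =
            ((s.filter (fun W => W.1.length = n)).card : ℝ≥0∞) * ENNReal.ofReal x ^ (n + 1) := by
          rw [← nsmul_eq_mul]
          refine Finset.sum_eq_card_nsmul fun W hW => ?_
          rw [(Finset.mem_filter.1 hW).2]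
        have h3 : (s.filter (fun W => W.1.length = n)).card ≤ (F n).card := by
          refine Finset.card_le_card_of_injOn (fun W => toL W.1) ?_ ?_
          · intro W hW
            have h4 := (Finset.mem_filter.1 (Finset.mem_coe.1 hW)).2
            have h5 := h W.1 W.2
            rw [h4] at h5
            exact h5
          · intro W _ W' _ hWW
            exact Subtype.ext (toL_inj hWW)
        rw [h2, ENNReal.ofReal_mul (by positivity), ENNReal.ofReal_pow hx, ENNReal.ofReal_natCast, mul_comm]
        gcongr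
    _ = ENNReal.ofReal (∑ n ∈ range N, x ^ (n + 1) * ((F n).card : ℝ)) := by
        rw [ENNReal.ofReal_sum_of_nonneg]
        intro n _
        positivity
    _ ≤ ENNReal.ofReal M := ENNReal.ofReal_le_ofReal (hM N)

/-- The generating function of the strips. -/
lemma gf_le {x : ℝ} (hx : 0 ≤ x) (T N : ℕ) :
    ENNReal.ofReal (x * gf (fun n => (saw (St T) n).card) x N) ≤ ms (ENNReal.ofReal x) (In T) := by
  classical
  have hex : ∀ q : (_ : ℕ) × List (ℤ × ℤ), ∃ W : List Bool, q ∈ (range N).sigma (fun n => saw (St T) n) →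
      W.length = q.1 ∧ In T W ∧ toL W = q.2 := by
    intro q
    by_cases hq : q ∈ (range N).sigma (fun n => saw (St T) n)
    · have h1 := (Finset.mem_sigma.1 hq).2
      rw [mem_saw (St_dom T)] at h1
      obtain ⟨W, h2, h3, h4, h5⟩ := toL_surj (St_dom T) h1
      exact ⟨W, fun _ => ⟨h2, ⟨h3, fun z hz => (h4 z hz).2⟩, h5⟩⟩
    · exact ⟨[], fun h => absurd h hq⟩
  choose φ hφ using hex
  have h1 : ENNReal.ofReal (x * gf (fun n => (saw (St T) n).card) x N) =
      ∑ q ∈ (range N).sigma (fun n => saw (St T) n), ENNReal.ofReal x ^ ((φ q).length + 1) := by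
    unfold gf
    rw [Finset.mul_sum, ENNReal.ofReal_sum_of_nonneg (fun n _ => by positivity), Finset.sum_sigma]
    refine Finset.sum_congr rfl fun n hn => ?_
    have h2 : ∀ P ∈ saw (St T) n, ENNReal.ofReal x ^ ((φ ⟨n, P⟩).length + 1) = ENNReal.ofReal x ^ (n + 1) := by
      intro P hP
      rw [(hφ ⟨n, P⟩ (Finset.mem_sigma.2 ⟨hn, hP⟩)).1]
    rw [Finset.sum_congr rfl h2, Finset.sum_const, nsmul_eq_mul, ← mul_assoc, ← pow_succ',
      ENNReal.ofReal_mul (by positivity), ENNReal.ofReal_pow hx, ENNReal.ofReal_natCast, mul_comm]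
  rw [h1]
  have hinj : ∀ q ∈ (range N).sigma (fun n => saw (St T) n), ∀ q' ∈ (range N).sigma (fun n => saw (St T) n),
      φ q = φ q' → q = q' := by
    intro q hq q' hq' he
    have a := hφ q hq
    have b := hφ q' hq'
    obtain ⟨n, P⟩ := q
    obtain ⟨n', P'⟩ := q'
    have e1 : n = n' := by
      have h3 := a.1
      have h4 := b.1
      simp only at h3 h4
      rw [← h3, ← h4, he]
    have e2 : P = P' := by
      have h3 := a.2.2
      have h4 := b.2.2
      simp only at h3 h4
      rw [← h3, ← h4, he]
    subst e1 e2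
    rfl
  rw [ms_ind]
  calc ∑ q ∈ (range N).sigma (fun n => saw (St T) n), ENNReal.ofReal x ^ ((φ q).length + 1)
      = ∑ q ∈ (range N).sigma (fun n => saw (St T) n),
          (fun W => if In T W then ENNReal.ofReal x ^ (W.length + 1) else 0) (φ q) := by
        refine Finset.sum_congr rfl fun q hq => ?_
        simp only
        rw [if_pos (hφ q hq).2.1]
    _ = ∑ W ∈ ((range N).sigma (fun n => saw (St T) n)).image φ,
          (if In T W then ENNReal.ofReal x ^ (W.length + 1) else 0) :=
        (Finset.sum_image (f := fun W => if In T W then ENNReal.ofReal x ^ (W.length + 1) else 0)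
          fun q hq q' hq' he => hinj q hq q' hq' he).symm
    _ ≤ _ := by
        refine (ENNReal.sum_le_tsum _).trans (le_of_eq (tsum_congr fun W => ?_))
        congr

end Pool.Agent.HHP
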