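import Pool.Agent.HHP.Final
import Pool.Agent.Hhelper14.SAW.Main

/-!
Project HHP: the final statement.
-/

namespace Pool.Agent.HHP

open Pool.Agent.Hhelper14.SAW

theorem main : ∃ C : ℝ, 0 < C ∧ ∀ n : ℕ, 1 ≤ n →
    (Pool.Agent.Hhelper14.Honeycomb.a n : ℝ) ≤
      Pool.Agent.Hhelper14.Honeycomb.muL ^ n * Real.exp (C * (n : ℝ) ^ (1 / 3 : ℝ)) ∧
    Real.exp (-(C * (n : ℝ) ^ (1 / 3 : ℝ))) ≤ Pool.Agent.Hhelper14.Honeycomb.P n := by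
  obtain ⟨C, hC, h⟩ := an_upper
  have hmuL := muL_eq hw_quant
  refine ⟨2 * C, by linarith, fun n hn => ?_⟩
  have h1 := h n hn
  have ht : 0 ≤ (n : ℝ) ^ (1 / 3 : ℝ) := by positivity
  have hmun : 0 < mu ^ n := pow_pos mu_pos n
  constructor
  · rw [hmuL, a_eq]
    refine h1.trans (mul_le_mul_of_nonneg_left (Real.exp_le_exp.2 ?_) hmun.le)
    nlinarith
  · rw [P_eq, a_eq, a_eq]
    have h2 := mu_pow_le (2 * n) (by omega)
    have han : (0 : ℝ) < an n := lt_of_lt_of_le hmun (mu_pow_le n hn)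
    rw [le_div_iff₀ (by positivity)]
    have h3 : (an n : ℝ) ^ 2 ≤ (mu ^ n * Real.exp (C * (n : ℝ) ^ (1 / 3 : ℝ))) ^ 2 :=
      pow_le_pow_left₀ han.le h1 2
    calc Real.exp (-(2 * C * (n : ℝ) ^ (1 / 3 : ℝ))) * (an n : ℝ) ^ 2
        ≤ Real.exp (-(2 * C * (n : ℝ) ^ (1 / 3 : ℝ))) * (mu ^ n * Real.exp (C * (n : ℝ) ^ (1 / 3 : ℝ))) ^ 2 :=
          mul_le_mul_of_nonneg_left h3 (Real.exp_pos _).le
      _ = mu ^ (2 * n) := by
          rw [mul_pow, ← pow_mul, ← Real.exp_nat_mul]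
          have e : Real.exp (-(2 * C * (n : ℝ) ^ (1 / 3 : ℝ))) * (mu ^ (n * 2) *
              Real.exp (((2 : ℕ) : ℝ) * (C * (n : ℝ) ^ (1 / 3 : ℝ)))) = mu ^ (n * 2) *
              (Real.exp (-(2 * C * (n : ℝ) ^ (1 / 3 : ℝ))) * Real.exp (((2 : ℕ) : ℝ) * (C * (n : ℝ) ^ (1 / 3 : ℝ)))) := by
            ring
          rw [e, ← Real.exp_add]
          have e2 : -(2 * C * (n : ℝ) ^ (1 / 3 : ℝ)) + ((2 : ℕ) : ℝ) * (C * (n : ℝ) ^ (1 / 3 : ℝ)) = 0 := by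
            push_cast; ring
          rw [e2, Real.exp_zero, mul_one, mul_comm n 2]
      _ ≤ _ := h2

end Pool.Agent.HHP
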