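import Mathlib

/-!
Project HHP, analysis: a renewal inequality.

PAPER PROOF of `anRen`. If `x = ∞` there is nothing to prove. All numbers are finite: `B <= 1`, `u <= 1`, and
`c d <= x` (term `i = 0`). Let `0 < z < 1`, `U = ∑' i, u i * z ^ i` (`1 <= U < ∞`). For every `M`,
`(∑ i < M, u i z ^ i) * (∑ j < D, c j z ^ j) <= ∑ d < M + D, z ^ d * ∑ i <= d, u i * c (d - i)
  <= x * ∑' d, z ^ d * B (d + s) * B d`; and `B (d + s) * B d <= (B (d + s) ^ 2 + B d ^ 2) / 2`,
`∑' d, z ^ d * B (d + s) ^ 2 = z ^ (- s - 1) * ∑' d, z ^ (d + s + 1) * u (d + s + 1) <= z ^ (- s - 1) * U`,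
`∑' d, z ^ d * B d ^ 2 = z ^ (-1) * ∑' d, z ^ (d + 1) u (d + 1) <= z ^ (-1) * U <= z ^ (- s - 1) * U`. So, `M → ∞`,
`U * ∑ j < D, c j z ^ j <= x * z ^ (- s - 1) * U`, that is `z ^ (s + 1) * ∑ j < D, c j z ^ j <= x`. Let `z → 1`.
(A proof with real numbers is fine: `ENNReal.toReal`, or first the same statement for real sequences.)
-/

namespace Pool.Agent.HHP

open Finset
open scoped ENNReal

private theorem anRen_amgm (a b : ℝ≥0∞) : 2 * (a * b) ≤ a ^ 2 + b ^ 2 := by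
  rcases le_total a b with hab | hab
  · obtain ⟨t, rfl⟩ := exists_add_of_le hab
    calc 2 * (a * (a + t)) = a ^ 2 + (a ^ 2 + 2 * a * t) := by ring
      _ ≤ a ^ 2 + (a ^ 2 + 2 * a * t + t ^ 2) := add_le_add le_rfl le_self_add
      _ = a ^ 2 + (a + t) ^ 2 := by ring
  · obtain ⟨t, rfl⟩ := exists_add_of_le hab
    calc 2 * ((b + t) * b) = (b ^ 2 + 2 * b * t) + b ^ 2 := by ring
      _ ≤ (b ^ 2 + 2 * b * t + t ^ 2) + b ^ 2 := add_le_add le_self_add le_rfl
      _ = (b + t) ^ 2 + b ^ 2 := by ring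

private theorem anRen_cauchy (f g : ℕ → ℝ≥0∞) :
    (∑' i, f i) * ∑' j, g j = ∑' n, ∑ p ∈ antidiagonal n, f p.1 * g p.2 := by
  rw [← ENNReal.tsum_mul_right]
  have h1 : ∀ i, f i * ∑' j, g j = ∑' j, f i * g j := fun i => ENNReal.tsum_mul_left.symm
  simp_rw [h1]
  rw [← ENNReal.tsum_prod (f := fun i j => f i * g j),
    ← (Finset.HasAntidiagonal.sigmaAntidiagonalEquivProd (A := ℕ)).tsum_eq
      fun p : ℕ × ℕ => f p.1 * g p.2,
    ENNReal.tsum_sigma']
  refine tsum_congr fun n => ?_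
  rw [tsum_fintype, ← Finset.sum_coe_sort (antidiagonal n)]
  rfl

private theorem anRen_z (B c u : ℕ → ℝ≥0∞) (x : ℝ≥0∞) (hB : ∀ n, B n ≤ 1) (hu0 : u 0 = 1)
    (hu : ∀ i, u (i + 1) = B i ^ 2) (s : ℕ)
    (h : ∀ d, ∑ i ∈ range (d + 1), u i * c (d - i) ≤ x * (B (d + s) * B d)) (z : ℝ≥0∞)
    (hz : z < 1) : z ^ (s + 1) * ∑' j, c j * z ^ j ≤ x := by
  have hu1 : ∀ i, u i ≤ 1 := by
    intro i
    cases i with
    | zero => rw [hu0]
    | succ i =>
      rw [hu]
      exact pow_le_one₀ zero_le (hB i)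
  set U : ℝ≥0∞ := ∑' i, u i * z ^ i with hU
  have hU0 : U ≠ 0 := by
    have h1 : u 0 * z ^ 0 ≤ U := ENNReal.le_tsum 0
    rw [hu0, pow_zero, mul_one] at h1
    exact (lt_of_lt_of_le zero_lt_one h1).ne'
  have hUt : U ≠ ⊤ := by
    have h1 : U ≤ ∑' i, z ^ i := by
      refine ENNReal.tsum_le_tsum fun i => ?_
      calc u i * z ^ i ≤ 1 * z ^ i := by gcongr; exact hu1 i
        _ = z ^ i := one_mul _
    rw [ENNReal.tsum_geometric] at h1
    refine ne_top_of_le_ne_top ?_ h1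
    rw [Ne, ENNReal.inv_eq_top, tsub_eq_zero_iff_le, not_le]
    exact hz
  have h1 : U * ∑' j, c j * z ^ j ≤ ∑' n, z ^ n * (x * (B (n + s) * B n)) := by
    rw [hU, anRen_cauchy]
    refine ENNReal.tsum_le_tsum fun n => ?_
    calc ∑ p ∈ antidiagonal n, u p.1 * z ^ p.1 * (c p.2 * z ^ p.2)
        = ∑ p ∈ antidiagonal n, z ^ n * (u p.1 * c p.2) := by
          refine Finset.sum_congr rfl fun p hp => ?_
          rw [← mem_antidiagonal.1 hp, pow_add]
          ring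
      _ = z ^ n * ∑ i ∈ range (n + 1), u i * c (n - i) := by
          rw [← Finset.mul_sum, Finset.Nat.sum_antidiagonal_eq_sum_range_succ
            (fun i j => u i * c j)]
      _ ≤ z ^ n * (x * (B (n + s) * B n)) := by gcongr; exact h n
  have hz1 : z ≤ 1 := hz.le
  have h2 : z ^ (s + 1) * ∑' n, z ^ n * B (n + s) ^ 2 ≤ U := by
    rw [← ENNReal.tsum_mul_left]
    calc ∑' n, z ^ (s + 1) * (z ^ n * B (n + s) ^ 2)
        = ∑' n, u (n + (s + 1)) * z ^ (n + (s + 1)) := by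
          refine tsum_congr fun n => ?_
          rw [show n + (s + 1) = (n + s) + 1 by ring, hu]
          ring
      _ ≤ U := ENNReal.tsum_comp_le_tsum_of_injective (add_left_injective (s + 1))
            fun i => u i * z ^ i
  have h3 : z ^ (s + 1) * ∑' n, z ^ n * B n ^ 2 ≤ U := by
    rw [← ENNReal.tsum_mul_left]
    calc ∑' n, z ^ (s + 1) * (z ^ n * B n ^ 2)
        ≤ ∑' n, u (n + 1) * z ^ (n + 1) := by
          refine ENNReal.tsum_le_tsum fun n => ?_
          rw [hu]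
          calc z ^ (s + 1) * (z ^ n * B n ^ 2) = z ^ s * (B n ^ 2 * z ^ (n + 1)) := by ring
            _ ≤ 1 * (B n ^ 2 * z ^ (n + 1)) := by
                gcongr
                exact pow_le_one₀ zero_le hz1
            _ = B n ^ 2 * z ^ (n + 1) := one_mul _
      _ ≤ U := ENNReal.tsum_comp_le_tsum_of_injective (add_left_injective 1)
            fun i => u i * z ^ i
  have h4 : 2 * (z ^ (s + 1) * ∑' n, z ^ n * (x * (B (n + s) * B n))) ≤ x * (U + U) := by
    calc 2 * (z ^ (s + 1) * ∑' n, z ^ n * (x * (B (n + s) * B n)))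
        = x * (z ^ (s + 1) * ∑' n, z ^ n * (2 * (B (n + s) * B n))) := by
          have e1 : ∑' n, z ^ n * (x * (B (n + s) * B n)) =
              x * ∑' n, z ^ n * (B (n + s) * B n) := by
            rw [← ENNReal.tsum_mul_left]
            exact tsum_congr fun n => by ring
          have e2 : ∑' n, z ^ n * (2 * (B (n + s) * B n)) =
              2 * ∑' n, z ^ n * (B (n + s) * B n) := by
            rw [← ENNReal.tsum_mul_left]
            exact tsum_congr fun n => by ring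
          rw [e1, e2]
          ring
      _ ≤ x * (z ^ (s + 1) * ∑' n, z ^ n * (B (n + s) ^ 2 + B n ^ 2)) := by
          gcongr
          exact anRen_amgm _ _
      _ = x * (z ^ (s + 1) * ∑' n, z ^ n * B (n + s) ^ 2 +
            z ^ (s + 1) * ∑' n, z ^ n * B n ^ 2) := by
          rw [← mul_add, ← ENNReal.tsum_add]
          simp_rw [mul_add]
      _ ≤ x * (U + U) := by gcongr
  have h5 : U * (z ^ (s + 1) * ∑' j, c j * z ^ j) ≤ U * x := by
    have h6 : 2 * (U * (z ^ (s + 1) * ∑' j, c j * z ^ j)) ≤ 2 * (U * x) := by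
      calc 2 * (U * (z ^ (s + 1) * ∑' j, c j * z ^ j))
          = 2 * (z ^ (s + 1) * (U * ∑' j, c j * z ^ j)) := by ring
        _ ≤ 2 * (z ^ (s + 1) * ∑' n, z ^ n * (x * (B (n + s) * B n))) := by gcongr
        _ ≤ x * (U + U) := h4
        _ = 2 * (U * x) := by ring
    exact (ENNReal.mul_le_mul_iff_right two_ne_zero ENNReal.ofNat_ne_top).1 h6
  exact (ENNReal.mul_le_mul_iff_right hU0 hUt).1 h5

theorem anRen (B c u : ℕ → ℝ≥0∞) (x : ℝ≥0∞) (hB : ∀ n, B n ≤ 1) (hu0 : u 0 = 1) (hu : ∀ i, u (i + 1) = B i ^ 2)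
    (s : ℕ) (h : ∀ d, ∑ i ∈ range (d + 1), u i * c (d - i) ≤ x * (B (d + s) * B d)) (D : ℕ) :
    ∑ d ∈ range D, c d ≤ x := by
  have h1 : ∀ z : ℝ≥0∞, z < 1 → z ^ (s + 1 + D) * ∑ d ∈ range D, c d ≤ x := by
    intro z hz
    refine le_trans ?_ (anRen_z B c u x hB hu0 hu s h z hz)
    rw [pow_add, mul_assoc]
    gcongr
    calc z ^ D * ∑ d ∈ range D, c d = ∑ d ∈ range D, c d * z ^ D := by
          rw [Finset.mul_sum]
          exact Finset.sum_congr rfl fun _ _ => mul_comm _ _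
      _ ≤ ∑ d ∈ range D, c d * z ^ d := by
          refine Finset.sum_le_sum fun d hd => ?_
          exact mul_le_mul' le_rfl (pow_le_pow_of_le_one zero_le hz.le (Finset.mem_range.1 hd).le)
      _ ≤ ∑' j, c j * z ^ j := ENNReal.sum_le_tsum _
  have h2 : Filter.Tendsto (fun z : ℝ≥0∞ => z ^ (s + 1 + D) * ∑ d ∈ range D, c d)
      (nhdsWithin 1 (Set.Iio 1)) (nhds (1 ^ (s + 1 + D) * ∑ d ∈ range D, c d)) := by
    refine ENNReal.Tendsto.mul_const ?_ (Or.inl (by simp))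
    exact ((ENNReal.continuous_pow (s + 1 + D)).tendsto 1).mono_left nhdsWithin_le_nhds
  rw [one_pow, one_mul] at h2
  have : (nhdsWithin (1 : ℝ≥0∞) (Set.Iio 1)).NeBot :=
    nhdsLT_neBot_of_exists_lt ⟨0, zero_lt_one⟩
  exact le_of_tendsto h2 (Filter.eventually_of_mem self_mem_nhdsWithin h1)

end Pool.Agent.HHP
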