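import Pool.Agent.HHP.Defs

/-!
Project HHP: lists of vertices of words.
-/

namespace Pool.Agent.HHP

open Pool.Agent.Hhelper14.SAW

lemma vs_length (p d : ℤ × ℤ) (W : List Bool) : (vs p d W).length = W.length + 1 := by
  induction W generalizing p d with
  | nil => simp [vs]
  | cons b W ih => simp [vs, ih]

lemma vs_ne (p d : ℤ × ℤ) (W : List Bool) : vs p d W ≠ [] := by
  intro h
  have := vs_length p d W
  rw [h] at this
  simp at this

lemma vs_append (p d : ℤ × ℤ) (W1 : List Bool) (b : Bool) (W2 : List Bool) :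
    vs p d (W1 ++ b :: W2) =
      vs p d W1 ++ vs (ep p d W1 + tn b (ed d W1)) (tn b (ed d W1)) W2 := by
  induction W1 generalizing p d with
  | nil => simp [vs, ep, ed]
  | cons c W ih => simp [vs, ep, ed, ih]

lemma ep_append (p d : ℤ × ℤ) (W1 W2 : List Bool) :
    ep p d (W1 ++ W2) = ep (ep p d W1) (ed d W1) W2 := by
  induction W1 generalizing p d with
  | nil => simp [ep, ed]
  | cons c W ih => simp [ep, ed, ih]

lemma ed_append (d : ℤ × ℤ) (W1 W2 : List Bool) : ed d (W1 ++ W2) = ed (ed d W1) W2 := by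
  induction W1 generalizing d with
  | nil => simp [ed]
  | cons c W ih => simp [ed, ih]

lemma ep_mem (p d : ℤ × ℤ) (W : List Bool) : ep p d W ∈ vs p d W := by
  induction W generalizing p d with
  | nil => simp [vs, ep]
  | cons c W ih => simp only [vs, ep]; exact List.mem_cons_of_mem _ (ih _ _)

lemma head_mem (p d : ℤ × ℤ) (W : List Bool) : p ∈ vs p d W := by
  cases W <;> simp [vs]

lemma vs_getLast? (p d : ℤ × ℤ) (W : List Bool) : (vs p d W).getLast? = some (ep p d W) := by
  induction W generalizing p d with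
  | nil => simp [vs, ep]
  | cons c W ih =>
    simp only [vs, ep]
    rw [List.getLast?_cons, ih]
    rfl

lemma vs_head? (p d : ℤ × ℤ) (W : List Bool) : (vs p d W).head? = some p := by
  cases W <;> simp [vs]

lemma vs_shift (a p d : ℤ × ℤ) (W : List Bool) : vs (a + p) d W = (vs p d W).map (fun z => a + z) := by
  induction W generalizing p d with
  | nil => simp [vs]
  | cons c W ih => simp only [vs, List.map_cons]; rw [← ih, add_assoc]

lemma ep_shift (a p d : ℤ × ℤ) (W : List Bool) : ep (a + p) d W = a + ep p d W := by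
  induction W generalizing p d with
  | nil => simp [ep]
  | cons c W ih => simp only [ep]; rw [← ih, add_assoc]

lemma tn_neg (b : Bool) (d : ℤ × ℤ) : tn b (-d) = - tn b d := by
  obtain ⟨x, y⟩ := d
  cases b <;> simp [tn, L, R, Prod.ext_iff] <;> ring

lemma vs_neg (p d : ℤ × ℤ) (W : List Bool) : vs (-p) (-d) W = (vs p d W).map (fun z => -z) := by
  induction W generalizing p d with
  | nil => simp [vs]
  | cons c W ih =>
    simp only [vs, List.map_cons]
    rw [← ih, tn_neg, neg_add]

lemma ep_neg (p d : ℤ × ℤ) (W : List Bool) : ep (-p) (-d) W = - ep p d W := by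
  induction W generalizing p d with
  | nil => simp [ep]
  | cons c W ih =>
    simp only [ep]
    rw [← ih, tn_neg, neg_add]

lemma ed_neg (d : ℤ × ℤ) (W : List Bool) : ed (-d) W = - ed d W := by
  induction W generalizing d with
  | nil => simp [ed]
  | cons c W ih =>
    simp only [ed]
    rw [← ih, tn_neg]

lemma vs_right (a : ℤ × ℤ) (W : List Bool) : vs a (1, 0) W = (V W).map (fun z => a + z) := by
  have := vs_shift a (0, 0) (1, 0) W
  have e : a + ((0, 0) : ℤ × ℤ) = a := by ext <;> simp
  rw [e] at this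
  exact this

lemma ep_right (a : ℤ × ℤ) (W : List Bool) : ep a (1, 0) W = a + E W := by
  have := ep_shift a (0, 0) (1, 0) W
  have e : a + ((0, 0) : ℤ × ℤ) = a := by ext <;> simp
  rw [e] at this
  exact this

lemma vs_left (a : ℤ × ℤ) (W : List Bool) : vs a (-1, 0) W = (V W).map (fun z => a - z) := by
  have h1 := vs_shift a (-(0, 0)) (-(1, 0)) W
  rw [vs_neg] at h1
  have e : a + -((0, 0) : ℤ × ℤ) = a := by ext <;> simp
  have e2 : -((1, 0) : ℤ × ℤ) = (-1, 0) := by ext <;> simp
  rw [e, e2, List.map_map] at h1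
  rw [h1]
  unfold V
  refine List.map_congr_left fun z _ => ?_
  simp [sub_eq_add_neg]

lemma ep_left (a : ℤ × ℤ) (W : List Bool) : ep a (-1, 0) W = a - E W := by
  have h1 := ep_shift a (-(0, 0)) (-(1, 0)) W
  rw [ep_neg] at h1
  have e : a + -((0, 0) : ℤ × ℤ) = a := by ext <;> simp
  have e2 : -((1, 0) : ℤ × ℤ) = (-1, 0) := by ext <;> simp
  rw [e, e2] at h1
  rw [h1, E, sub_eq_add_neg]

lemma ed_left (W : List Bool) : ed (-1, 0) W = - Dr W := by
  have h1 := ed_neg (1, 0) W
  have e2 : -((1, 0) : ℤ × ℤ) = (-1, 0) := by ext <;> simp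
  rw [e2] at h1
  exact h1

/-- Splitting a word at a letter, in the standard frame. -/
lemma V_append (W1 : List Bool) (b : Bool) (W2 : List Bool) :
    V (W1 ++ b :: W2) = V W1 ++ vs (E W1 + tn b (Dr W1)) (tn b (Dr W1)) W2 := vs_append _ _ _ _ _

lemma E_append (W1 : List Bool) (b : Bool) (W2 : List Bool) :
    E (W1 ++ b :: W2) = ep (E W1 + tn b (Dr W1)) (tn b (Dr W1)) W2 := by
  unfold E Dr
  rw [ep_append]
  rfl

lemma Dr_append (W1 : List Bool) (b : Bool) (W2 : List Bool) :
    Dr (W1 ++ b :: W2) = ed (tn b (Dr W1)) W2 := by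
  unfold Dr
  rw [ed_append]
  rfl

lemma V_nil : V [] = [(0, 0)] := rfl
lemma E_nil : E [] = (0, 0) := rfl
lemma Dr_nil : Dr [] = (1, 0) := rfl

lemma E_mem (W : List Bool) : E W ∈ V W := ep_mem _ _ _
lemma o_mem (W : List Bool) : ((0, 0) : ℤ × ℤ) ∈ V W := head_mem _ _ _

/-- Last vertex with a property. -/
lemma split_last (p : ℤ × ℤ → Prop) {W : List Bool} (h : ∃ z ∈ V W, p z) :
    p (E W) ∨ ∃ W1 b W2, W = W1 ++ b :: W2 ∧ p (E W1) ∧
      ∀ z ∈ vs (E W1 + tn b (Dr W1)) (tn b (Dr W1)) W2, ¬ p z := by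
  classical
  have key : ∀ (W : List Bool) (q d : ℤ × ℤ), (∃ z ∈ vs q d W, p z) → p (ep q d W) ∨
      ∃ W1 b W2, W = W1 ++ b :: W2 ∧ p (ep q d W1) ∧
        ∀ z ∈ vs (ep q d W1 + tn b (ed d W1)) (tn b (ed d W1)) W2, ¬ p z := by
    intro W
    induction W with
    | nil =>
      intro q d h
      obtain ⟨z, hz, hp⟩ := h
      simp only [vs, List.mem_singleton] at hz
      left; simp only [ep]; rw [← hz]; exact hp
    | cons c W ih =>
      intro q d h
      by_cases h1 : ∃ z ∈ vs (q + tn c d) (tn c d) W, p z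
      · rcases ih _ _ h1 with h2 | ⟨W1, b, W2, e, h2, h3⟩
        · left; simpa only [ep] using h2
        · right
          refine ⟨c :: W1, b, W2, by rw [e]; rfl, ?_, ?_⟩
          · simpa only [ep] using h2
          · simpa only [ep, ed] using h3
      · right
        refine ⟨[], c, W, rfl, ?_, ?_⟩
        · obtain ⟨z, hz, hp⟩ := h
          simp only [vs, List.mem_cons] at hz
          rcases hz with rfl | hz
          · simpa only [ep] using hp
          · exact absurd ⟨z, hz, hp⟩ h1
        · intro z hz hp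
          exact h1 ⟨z, by simpa only [ep, ed] using hz, hp⟩
  exact key W (0, 0) (1, 0) h

/-- Uniqueness of the split at the last vertex with a property. -/
lemma split_uniq (p : ℤ × ℤ → Prop) {W1 W1' : List Bool} {b b' : Bool} {W2 W2' : List Bool}
    (h : W1 ++ b :: W2 = W1' ++ b' :: W2') (h1 : p (E W1))
    (h2 : ∀ z ∈ vs (E W1 + tn b (Dr W1)) (tn b (Dr W1)) W2, ¬ p z) (h1' : p (E W1'))
    (h2' : ∀ z ∈ vs (E W1' + tn b' (Dr W1')) (tn b' (Dr W1')) W2', ¬ p z) :
    W1 = W1' ∧ b = b' ∧ W2 = W2' := by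
  have key : ∀ (W1 W1' : List Bool) (b b' : Bool) (W2 W2' : List Bool), W1 ++ b :: W2 = W1' ++ b' :: W2' →
      p (E W1') → (∀ z ∈ vs (E W1 + tn b (Dr W1)) (tn b (Dr W1)) W2, ¬ p z) → W1'.length ≤ W1.length := by
    intro W1 W1' b b' W2 W2' h h1' h2
    by_contra hlt
    push Not at hlt
    obtain ⟨X, hX⟩ : ∃ X, W1' = W1 ++ b :: X := by
      rcases List.append_eq_append_iff.1 h with ⟨A, hA1, hA2⟩ | ⟨A, hA1, hA2⟩
      · cases A with
        | nil => simp at hA1; rw [hA1] at hlt; simp at hlt
        | cons c A =>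
          simp only [List.cons_append, List.cons.injEq] at hA2
          exact ⟨A, by rw [hA1, hA2.1]⟩
      · rw [hA1] at hlt; simp at hlt
    subst hX
    refine h2 (E (W1 ++ b :: X)) ?_ h1'
    rw [E_append]
    have e : W2 = X ++ b' :: W2' := by
      have := h
      rw [List.append_assoc] at this
      have := List.append_cancel_left this
      simpa using this
    rw [e, vs_append]
    exact List.mem_append_left _ (ep_mem _ _ _)
  have hle := key W1 W1' b b' W2 W2' h h1' h2
  have hge := key W1' W1 b' b W2' W2 h.symm h1 h2'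
  have := List.append_inj h (le_antisymm hge hle)
  refine ⟨this.1, ?_, ?_⟩
  · have := this.2; simp only [List.cons.injEq] at this; exact this.1
  · have := this.2; simp only [List.cons.injEq] at this; exact this.2

end Pool.Agent.HHP
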