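import Pool.Agent.HHP.Geo
import Pool.Agent.HHP.Tsum

/-!
Project HHP: pairs without any common renewal level.

PAPER PROOF of `CP'_le`. Let `(W1, W2)` be in `CP' s t`. `W1` is in `Be (t + s + 1)`, so `W1 = P ++ [b]` with `P` in
`Br (t + s + 1)` (the last step of `W1` is not horizontal and ends at the left border of the column, so the vertex
before it is the right border of the same column) and `b = !rt P`. Let `Q = [true] ++ false :: W2`; `[true]` is in
`Br 0`, `rt [true] = false`, so `Q` is in `Be (t + 1)` by `join_Be` (`0 + 1 + t = t + 1`).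
Case A: not `Ren (t + s + 1) P`. Then `(P, Q)` is in `CP s (t + 1)`: for `r = 1` this is the case assumption; for
`2 <= r <= t + 1`, `Ren r Q` is `Ren (r - 1) W2` by `ren_high`, and `Ren (t + s + 2 - r) P` implies
`Ren (t + s + 1 - (r - 1)) W1` (the extra vertex `E W1` has `F0 = 3 (t + s + 1)`, on the right of the line), against `NC`.
Mass: `y * y ^ (|W1| + 1) * y ^ (|W2| + 1) = y ^ (|P| + 1) * y ^ (|Q| + 1)`.
Case B: `Ren (t + s + 1) P`. By `ren_split`, `P = Pl ++ rt Pl :: Pu`, `Pl` in `Br (t + s)`, `Pu` in `Br 0`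
(`In 0`, `F0 (E Pu) = 1`). `(Pl, W2)` is in `CP s t` (`ren_low`, and again prefixes). Mass:
`y * y ^ (|W1| + 1) * y ^ (|W2| + 1) = y ^ 2 * y ^ (|Pu| + 1) * (y ^ (|Pl| + 1) * y ^ (|W2| + 1))`, and
`y ^ 2 <= ms y (Br 0)` because `[true]` is in `Br 0`; so case B contributes at most
`y ^ 2 * ms y (Br 0) * ms2 y (CP s t)`. (Injectivity: `W1` is `P ++ [!rt P]`.)
-/

namespace Pool.Agent.HHP

open Pool.Agent.Hhelper14.SAW Finset
open scoped ENNReal

lemma V_snoc (P : List Bool) (b : Bool) : V (P ++ [b]) = V P ++ [E P + tn b (Dr P)] := by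
  rw [V_append]; rfl
lemma E_snoc (P : List Bool) (b : Bool) : E (P ++ [b]) = E P + tn b (Dr P) := by
  rw [E_append]; rfl
lemma Dr_snoc (P : List Bool) (b : Bool) : Dr (P ++ [b]) = tn b (Dr P) := by
  rw [Dr_append]; rfl

/-- Prefixes. -/
lemma In.init {n : ℕ} {P : List Bool} {b : Bool} (h : In n (P ++ [b])) : In n P := by
  obtain ⟨h1, h2⟩ := h
  rw [V_snoc] at h1 h2
  exact ⟨(List.nodup_append.1 h1).1, fun z hz => h2 z (List.mem_append_left _ hz)⟩

/-- A word of `Be k` without its last letter. -/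
lemma Be_drop {k : ℕ} {W : List Bool} (h : Be k W) : ∃ P, Br k P ∧ W = P ++ [!rt P] := by
  rcases List.eq_nil_or_concat W with rfl | ⟨P, b, rfl⟩
  · exact absurd (Or.inl rfl) h.2.2
  · rw [List.concat_eq_append] at *
    obtain ⟨h1, h2, h3⟩ := h
    have hg := gd_std (P ++ [b])
    have hE : F0 (E P) = 3 * k + 1 := by
      rw [E_snoc, Dr_snoc] at hg
      rw [Dr_snoc] at h3
      rw [E_snoc] at h2
      rcases hg with ⟨h4, h5⟩ | ⟨h4, -⟩
      · rw [F0_add] at h2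
        rcases h5 with h5 | h5 | h5
        · exact absurd (Or.inl h5) h3
        · rw [h5] at h2; simp only [F0] at h2 ⊢; omega
        · rw [h5] at h2; simp only [F0] at h2 ⊢; omega
      · omega
    have hB : Br k P := ⟨h1.init, hE⟩
    refine ⟨P, hB, ?_⟩
    have hb : b ≠ rt P := by
      rintro rfl
      rw [Dr_snoc, hB.tn_rt] at h3
      exact h3 (Or.inl rfl)
    have : b = !rt P := by
      revert hb
      cases b <;> cases rt P <;> simp
    rw [this]

/-- The last letter of a word of `Fi k`. -/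
lemma Fi_cases {k : ℕ} {W : List Bool} (h : Fi k W) : Br k W ∨ W = [] ∨ ∃ P, Br k P ∧ W = P ++ [!rt P] := by
  obtain ⟨⟨h1, h2⟩, h3⟩ := h
  have h4 := h1.2 _ (E_mem W)
  by_cases h5 : F0 (E W) = 3 * k + 1
  · exact Or.inl ⟨h1, h5⟩
  · right
    rcases h2 with h2 | h2
    · exact Or.inl h2
    · exact Or.inr (Be_drop ⟨h1, by omega, h2⟩)

/-- The last letter of a word of `In n`. -/
lemma In_cases {n : ℕ} {W : List Bool} (h : In n W) : SS n W ∨
    ∃ P b, SS n P ∧ W = P ++ [b] ∧ hz (tn b (Dr P)) := by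
  by_cases h1 : hz (Dr W)
  · rcases List.eq_nil_or_concat W with rfl | ⟨P, b, rfl⟩
    · exact Or.inl ⟨h, Or.inl rfl⟩
    · rw [List.concat_eq_append] at *
      rw [Dr_snoc] at h1
      exact Or.inr ⟨P, b, ⟨h.init, Or.inr (not_hz_of_tn (gd_std P) h1)⟩, rfl, h1⟩
  · exact Or.inl ⟨h, Or.inr h1⟩

/-- Words of the form `P ++ [!rt P]`. -/
lemma ms_snoc_le (y : ℝ≥0∞) (k : ℕ) :
    ms y (fun W => ∃ P, Br k P ∧ W = P ++ [!rt P]) ≤ y * ms y (Br k) := by
  refine ms_rel (fun W W' => W = W' ++ [!rt W']) ?_ ?_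
  · rintro W ⟨P, hP, rfl⟩
    refine ⟨P, hP, rfl, le_of_eq ?_⟩
    rw [List.length_append, List.length_singleton, pow_succ' y (P.length + 1)]
  · intro W1 W2 W' _ _ _ h1 h2
    exact h1.trans h2.symm

lemma Be_le (y : ℝ≥0∞) (k : ℕ) : ms y (Be k) ≤ y * ms y (Br k) :=
  (ms_mono fun _ hW => Be_drop hW).trans (ms_snoc_le y k)

lemma Fi_le (y : ℝ≥0∞) (k : ℕ) : ms y (Fi k) ≤ (1 + y) * ms y (Br k) + y := by
  have h1 : ms y (Fi k) ≤ ms y (Br k) + ms y (fun W => W = [] ∨ ∃ P, Br k P ∧ W = P ++ [!rt P]) :=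
    ms_or fun W hW => Fi_cases hW
  have h2 : ms y (fun W => W = [] ∨ ∃ P, Br k P ∧ W = P ++ [!rt P]) ≤
      ms y (fun W => W = []) + ms y (fun W => ∃ P, Br k P ∧ W = P ++ [!rt P]) := ms_or fun W hW => hW
  have h3 : ms y (fun W => W = []) ≤ y := by
    rw [ms_ind, tsum_eq_single ([] : List Bool)]
    · simp
    · intro W hW
      simp [hW]
  calc ms y (Fi k) ≤ ms y (Br k) + (y + y * ms y (Br k)) :=
        h1.trans (add_le_add le_rfl (h2.trans (add_le_add h3 (ms_snoc_le y k))))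
    _ = (1 + y) * ms y (Br k) + y := by ring

lemma tn_hz_unique {P : List Bool} {b b' : Bool} (h : hz (tn b (Dr P))) (h' : hz (tn b' (Dr P))) : b = b' := by
  unfold hz at *
  rcases gd_std P with ⟨-, h1 | h1 | h1⟩ | ⟨-, h1 | h1 | h1⟩ <;> rw [h1] at h h' <;> cases b <;> cases b' <;>
    revert h h' <;> decide

lemma In_le (y : ℝ≥0∞) (n : ℕ) : ms y (In n) ≤ (1 + y) * ms y (SS n) := by
  have h1 : ms y (In n) ≤ ms y (SS n) + ms y (fun W => ∃ P b, SS n P ∧ W = P ++ [b] ∧ hz (tn b (Dr P))) :=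
    ms_or fun W hW => In_cases hW
  have h2 : ms y (fun W => ∃ P b, SS n P ∧ W = P ++ [b] ∧ hz (tn b (Dr P))) ≤ y * ms y (SS n) := by
    refine ms_rel (fun W W' => ∃ b, W = W' ++ [b] ∧ hz (tn b (Dr W'))) ?_ ?_
    · rintro W ⟨P, b, hP, rfl, hb⟩
      refine ⟨P, hP, ⟨b, rfl, hb⟩, le_of_eq ?_⟩
      rw [List.length_append, List.length_singleton, pow_succ' y (P.length + 1)]
    · rintro W1 W2 W' _ _ _ ⟨b, rfl, hb⟩ ⟨b', rfl, hb'⟩
      rw [tn_hz_unique hb hb']
  calc ms y (In n) ≤ ms y (SS n) + y * ms y (SS n) := h1.trans (add_le_add le_rfl h2)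
    _ = (1 + y) * ms y (SS n) := by ring

lemma Br_true : Br 0 [true] := by
  refine ⟨⟨by decide, ?_⟩, by decide⟩
  intro z hz
  have : z = (0, 0) ∨ z = (0, 1) := by
    have e : V [true] = [(0, 0), (0, 1)] := by decide
    rw [e] at hz
    simpa using hz
  rcases this with rfl | rfl <;> decide

lemma Br_zero (y : ℝ≥0∞) : y ^ 2 ≤ ms y (Br 0) := by
  unfold ms
  exact ENNReal.le_tsum (f := fun W : {W : List Bool // Br 0 W} => y ^ (W.1.length + 1)) ⟨[true], Br_true⟩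

/-- A renewal line of a bridge is a renewal line after one more step inside the last column. -/
lemma ren_snoc {i k : ℕ} {P : List Bool} {b : Bool} (hr : Ren i P) (hE : F0 (E (P ++ [b])) = 3 * k) (hik : i ≤ k) :
    Ren i (P ++ [b]) := by
  obtain ⟨W1, c, W2, rfl, h1, h2⟩ := hr
  refine ⟨W1, c, W2 ++ [b], by simp, h1, ?_⟩
  intro z hz
  rw [vs_append, List.mem_append] at hz
  rcases hz with hz | hz
  · exact h2 z hz
  · simp only [vs, List.mem_singleton] at hz
    have e : E ((W1 ++ c :: W2) ++ [b]) = z := by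
      rw [E_snoc, E_append, Dr_append, hz]
    rw [e] at hE
    rw [hE]; omega

theorem CP'_le (y : ℝ≥0∞) (s t : ℕ) :
    y * ms2 y (CP' s t) ≤ ms2 y (CP s (t + 1)) + ms y (Br 0) ^ 2 * ms2 y (CP s t) := by
  -- the two cases
  have hsplit : ms2 y (CP' s t) ≤
      ms2 y (fun p => CP' s t p ∧ ∃ P, Br (t + s + 1) P ∧ p.1 = P ++ [!rt P] ∧ ¬ Ren (t + s + 1) P) +
      ms2 y (fun p => CP' s t p ∧ ∃ P, Br (t + s + 1) P ∧ p.1 = P ++ [!rt P] ∧ Ren (t + s + 1) P) := by
    refine ms2_or fun p hp => ?_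
    obtain ⟨P, hP, e⟩ := Be_drop hp.1
    by_cases h : Ren (t + s + 1) P
    · exact Or.inr ⟨hp, P, hP, e, h⟩
    · exact Or.inl ⟨hp, P, hP, e, h⟩
  have hrt : rt [true] = false := by decide
  -- Case A
  have hA : y * ms2 y (fun p => CP' s t p ∧ ∃ P, Br (t + s + 1) P ∧ p.1 = P ++ [!rt P] ∧ ¬ Ren (t + s + 1) P) ≤
      ms2 y (CP s (t + 1)) := by
    unfold ms2
    rw [← ENNReal.tsum_mul_left]
    refine tsum_rel _ _ (fun a b => a.1.1 = b.1.1 ++ [!rt b.1.1] ∧ b.1.2 = true :: false :: a.1.2) ?_ ?_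
    · rintro ⟨⟨W1, W2⟩, ⟨hp1, hp2, hnc⟩, P, hP, e, hren⟩
      simp only at hp1 hp2 e hren
      subst e
      have hQ := join_Be Br_true hp2
      rw [hrt] at hQ
      refine ⟨⟨(P, true :: false :: W2), ⟨?_, ?_, ?_⟩⟩, ⟨rfl, rfl⟩, le_of_eq ?_⟩
      · have : t + 1 + s = t + s + 1 := by omega
        rw [this]; exact hP
      · have : t + 1 = 0 + 1 + t := by omega
        rw [this]; exact hQ
      · rintro r hr1 hr2 ⟨hr3, hr4⟩
        simp only at hr3 hr4
        rcases Nat.lt_or_ge r 2 with h2 | h2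
        · obtain rfl : r = 1 := by omega
          have : t + 1 + s + 1 - 1 = t + s + 1 := by omega
          rw [this] at hr3
          exact hren hr3
        · obtain ⟨j, rfl⟩ : ∃ j, r = 0 + 1 + j := ⟨r - 1, by omega⟩
          have h5 : Ren j W2 := by
            have h6 := (ren_high Br_true hp2.1 (j := j) (by omega)).1
            rw [hrt] at h6
            exact h6 hr4
          have e7 : t + 1 + s + 1 - (0 + 1 + j) = t + s + 1 - j := by omega
          rw [e7] at hr3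
          exact hnc j (by omega) (by omega) ⟨ren_snoc hr3 hp1.2.1 (by omega), h5⟩
      · simp only [List.length_append, List.length_cons, List.length_nil]
        ring
    · rintro ⟨⟨X, Y⟩, hX⟩ ⟨⟨X', Y'⟩, hX'⟩ ⟨⟨A, B⟩, hAB⟩ ⟨h1, h2⟩ ⟨h3, h4⟩
      simp only at h1 h2 h3 h4
      rw [h2] at h4
      simp only [List.cons.injEq, true_and] at h4
      exact Subtype.ext (Prod.ext (h1.trans h3.symm) h4)
  -- Case B
  have hB : ms2 y (fun p => CP' s t p ∧ ∃ P, Br (t + s + 1) P ∧ p.1 = P ++ [!rt P] ∧ Ren (t + s + 1) P) ≤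
      ms y (fun W => ∃ Pu, Br 0 Pu ∧ W = true :: Pu) * ms2 y (CP s t) := by
    refine ms2_rel3 (fun p b q => p.1 = (q.1 ++ rt q.1 :: b.tail) ++ [!rt (q.1 ++ rt q.1 :: b.tail)] ∧ p.2 = q.2)
      ?_ ?_
    · rintro W1 W2 ⟨⟨hp1, hp2, hnc⟩, P, hP, e, hren⟩
      simp only at hp1 hp2 e hren
      obtain ⟨Pl, Pu, rfl, h1, h2⟩ := ren_split hP.1 (by omega) le_rfl hren
      have e1 : t + s + 1 - 1 = t + s := by omega
      have e2 : t + s + 1 - (t + s + 1) = 0 := by omega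
      rw [e1] at h1
      rw [e2] at h2
      have h3 : F0 (E Pu) = 1 := by
        have h4 := hP.2
        rw [(app_right h1.tn_rt).2.1, F0_add, F0_add, h1.2] at h4
        have e3 : F0 ((1, 0) : ℤ × ℤ) = 2 := by decide
        rw [e3] at h4
        push_cast at h4
        omega
      have hPu : Br 0 Pu := ⟨h2, by rw [h3]; norm_num⟩
      refine ⟨true :: Pu, Pl, W2, ⟨Pu, hPu, rfl⟩, ⟨h1, hp2, ?_⟩, ⟨e, rfl⟩, ?_⟩
      · rintro r hr1 hr2 ⟨hr3, hr4⟩
        simp only at hr3 hr4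
        refine hnc r hr1 hr2 ⟨?_, hr4⟩
        simp only
        have h5 := (ren_low h1 h2 (i := t + s + 1 - r) (by omega)).2 hr3
        subst e
        exact ren_snoc h5 hp1.2.1 (by omega)
      · subst e
        simp only [List.length_append, List.length_cons, List.length_nil]
        omega
    · rintro ⟨X, Y⟩ ⟨X', Y'⟩ b ⟨C, D⟩ _ _ _ _ ⟨h1, h2⟩ ⟨h3, h4⟩
      exact Prod.ext (h1.trans h3.symm) (h2.trans h4.symm)
  have hA1 : ms y (fun W => ∃ Pu, Br 0 Pu ∧ W = true :: Pu) ≤ y * ms y (Br 0) := by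
    refine ms_rel (fun W W' => W = true :: W') ?_ ?_
    · rintro W ⟨P, hP, rfl⟩
      refine ⟨P, hP, rfl, le_of_eq ?_⟩
      rw [List.length_cons, pow_succ' y (P.length + 1)]
    · intro W1 W2 W' _ _ _ h1 h2
      exact h1.trans h2.symm
  calc y * ms2 y (CP' s t) ≤ y * (ms2 y (fun p => CP' s t p ∧ ∃ P, Br (t + s + 1) P ∧ p.1 = P ++ [!rt P] ∧
        ¬ Ren (t + s + 1) P) +
      ms2 y (fun p => CP' s t p ∧ ∃ P, Br (t + s + 1) P ∧ p.1 = P ++ [!rt P] ∧ Ren (t + s + 1) P)) := by gcongr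
    _ ≤ ms2 y (CP s (t + 1)) + y * (y * ms y (Br 0) * ms2 y (CP s t)) := by
        rw [mul_add]
        refine add_le_add hA ?_
        gcongr
        exact hB.trans (by gcongr)
    _ = ms2 y (CP s (t + 1)) + y ^ 2 * ms y (Br 0) * ms2 y (CP s t) := by ring
    _ ≤ ms2 y (CP s (t + 1)) + ms y (Br 0) * ms y (Br 0) * ms2 y (CP s t) := by
        gcongr
        exact Br_zero y
    _ = ms2 y (CP s (t + 1)) + ms y (Br 0) ^ 2 * ms2 y (CP s t) := by ring

end Pool.Agent.HHP
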