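import Pool.Agent.Hhelper14.SAW.Base

/-!
Project HHP, definitions. Self-avoiding walks of the honeycomb lattice as words of turns.
Vertices are points `(a, b)` of the triangular lattice with `hon`, the column of a vertex `z` is `F0 z / 3`,
`F0 (a, b) = 2 a + b` (see Hhelper14/SAW). A word `W : List Bool` (earliest turn first, `true` = left by 60
degrees, `false` = right) describes the walk that enters its first vertex in a given direction and then follows
the turns. Standard frame: first vertex `o = (0, 0)`, first direction `(1, 0)`.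
-/

namespace Pool.Agent.HHP

open Pool.Agent.Hhelper14.SAW

/-- The new direction after a turn. -/
def tn (b : Bool) (d : ℤ × ℤ) : ℤ × ℤ := if b then L d else R d

/-- The vertices (earliest first) of the walk that enters `p` in direction `d` and then follows the word. -/
def vs : ℤ × ℤ → ℤ × ℤ → List Bool → List (ℤ × ℤ)
  | p, _, [] => [p]
  | p, d, b :: W => p :: vs (p + tn b d) (tn b d) W

/-- Its last vertex. -/
def ep : ℤ × ℤ → ℤ × ℤ → List Bool → ℤ × ℤ
  | p, _, [] => p
  | p, d, b :: W => ep (p + tn b d) (tn b d) W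

/-- Its last direction. -/
def ed : ℤ × ℤ → List Bool → ℤ × ℤ
  | d, [] => d
  | d, b :: W => ed (tn b d) W

/-- Vertices in the standard frame. -/
def V (W : List Bool) : List (ℤ × ℤ) := vs (0, 0) (1, 0) W
/-- Last vertex in the standard frame. -/
def E (W : List Bool) : ℤ × ℤ := ep (0, 0) (1, 0) W
/-- Last direction in the standard frame. -/
def Dr (W : List Bool) : ℤ × ℤ := ed (1, 0) W

/-- Horizontal directions. -/
def hz (d : ℤ × ℤ) : Prop := d = (1, 0) ∨ d = (-1, 0)

/-- Self-avoiding words of the columns `0, ..., n`. -/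
def In (n : ℕ) (W : List Bool) : Prop := (V W).Nodup ∧ ∀ z ∈ V W, 0 ≤ F0 z ∧ F0 z ≤ 3 * n + 1

/-- Bridges of `k + 1` columns: the word ends at the right border of column `k`. -/
def Br (k : ℕ) (W : List Bool) : Prop := In k W ∧ F0 (E W) = 3 * k + 1

/-- Words that end at the left border of the column `k` by a step inside the column. -/
def Be (k : ℕ) (W : List Bool) : Prop := In k W ∧ F0 (E W) = 3 * k ∧ ¬ hz (Dr W)

/-- Words of `In n` that do not end with a horizontal step. -/
def SS (n : ℕ) (W : List Bool) : Prop := In n W ∧ (W = [] ∨ ¬ hz (Dr W))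

/-- Words of `SS k` that end in the column `k`. -/
def Fi (k : ℕ) (W : List Bool) : Prop := SS k W ∧ 3 * (k : ℤ) ≤ F0 (E W)

/-- Arcs of height `k`: they reach the column `k` and end at the left border of column `0`. -/
def Arc (k : ℕ) (W : List Bool) : Prop :=
  In k W ∧ (∃ z ∈ V W, 3 * (k : ℤ) ≤ F0 z) ∧ F0 (E W) = 0 ∧ W ≠ []

/-- The turn after which the direction is `(-1, 0)` (at the end of a word of `Be k`). -/
def lt (W : List Bool) : Bool := decide (Dr W = (-1, 1))

/-- The turn after which the direction is `(1, 0)` (at the end of a word of `Br k`). -/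
def rt (W : List Bool) : Bool := decide (Dr W = (1, -1))

/-- Pairs of words at a fold: heights `h1`, `h2`, jointly self-avoiding. -/
def JP (h1 h2 : ℕ) (p : List Bool × List Bool) : Prop :=
  Be h1 p.1 ∧ Be h2 p.2 ∧ (V (p.1 ++ lt p.1 :: p.2)).Nodup

/-- Renewal: the word crosses the line between the columns `i - 1` and `i` exactly once. -/
def Ren (i : ℕ) (W : List Bool) : Prop :=
  ∃ W1 b W2, W = W1 ++ b :: W2 ∧ (∀ z ∈ V W1, F0 z < 3 * (i : ℤ)) ∧
    ∀ z ∈ vs (E W1 + tn b (Dr W1)) (tn b (Dr W1)) W2, 3 * (i : ℤ) ≤ F0 z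

/-- No common renewal level: `p.1` has its top at the line `H`, the second word goes down from there, `d` levels. -/
def NC (H d : ℕ) (p : List Bool × List Bool) : Prop :=
  ∀ r, 1 ≤ r → r ≤ d → ¬ (Ren (H - r) p.1 ∧ Ren r p.2)

/-- Pairs (bridge of `d + s + 1` columns, word of `Be d`) without common renewal level. -/
def CP (s d : ℕ) (p : List Bool × List Bool) : Prop := Br (d + s) p.1 ∧ Be d p.2 ∧ NC (d + s + 1) d p

/-- Pairs (word of `Be (t + s + 1)`, word of `Be t`) without common renewal level. -/
def CP' (s t : ℕ) (p : List Bool × List Bool) : Prop :=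
  Be (t + s + 1) p.1 ∧ Be t p.2 ∧ NC (t + s + 1) t p

open scoped ENNReal

/-- Mass of a set of words: weight `y` per vertex. -/
noncomputable def ms (y : ℝ≥0∞) (P : List Bool → Prop) : ℝ≥0∞ := ∑' W : {W : List Bool // P W}, y ^ (W.1.length + 1)

/-- Mass of a set of pairs of words. -/
noncomputable def ms2 (y : ℝ≥0∞) (P : List Bool × List Bool → Prop) : ℝ≥0∞ :=
  ∑' p : {p : List Bool × List Bool // P p}, y ^ (p.1.1.length + 1) * y ^ (p.1.2.length + 1)

/-- The renewal weights of pairs of bridges with `i` columns. -/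
noncomputable def uu (y : ℝ≥0∞) : ℕ → ℝ≥0∞
  | 0 => 1
  | i + 1 => ms y (Br i) ^ 2

end Pool.Agent.HHP
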