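import Pool.Agent.HHP.SBound
import Pool.Agent.Hhelper14.SAW.Quant
import Pool.Agent.Hhelper14.SAW.Low

/-!
Project HHP: the bound for the number of walks.
-/

namespace Pool.Agent.HHP

open Pool.Agent.Hhelper14.SAW Pool.Agent.Hhelper63.HW Finset
open scoped ENNReal

lemma gf_real {C ε : ℝ} (hC : 0 < C) (hε : 0 < ε) (hε2 : ε ≤ 1 / 2)
    (h : ∀ n : ℕ, ms (ENNReal.ofReal ((1 - ε) * xc)) (In n) ≤
      ENNReal.ofReal (C / ε ^ 2 * Real.exp (C / Real.sqrt ε))) (T N : ℕ) :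
    (1 - ε) * xc * gf (fun n => (saw (St T) n).card) ((1 - ε) * xc) N ≤
      C / ε ^ 2 * Real.exp (C / Real.sqrt ε) := by
  have hx : 0 ≤ (1 - ε) * xc := mul_nonneg (by linarith) Pool.Agent.Hhelper14.SAW.xc_pos.le
  have h1 := (gf_le hx T N).trans (h T)
  exact (ENNReal.ofReal_le_ofReal_iff (by positivity)).1 h1

theorem an_upper : ∃ C : ℝ, 0 < C ∧ ∀ n : ℕ, 1 ≤ n → (an n : ℝ) ≤ mu ^ n * Real.exp (C * (n : ℝ) ^ (1 / 3 : ℝ)) := by
  obtain ⟨C, hC, hS⟩ := SBound
  have hlog : 0 ≤ Real.log (112 * (1 + C) ^ 2) := Real.log_nonneg (by nlinarith)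
  refine ⟨9 + 4 * C + Real.log (112 * (1 + C) ^ 2), by linarith, fun n hn => ?_⟩
  set t : ℝ := (n : ℝ) ^ (1 / 3 : ℝ) with ht
  have hn1 : (1 : ℝ) ≤ n := by exact_mod_cast hn
  have ht1 : 1 ≤ t := Real.one_le_rpow hn1 (by norm_num)
  have ht0 : 0 < t := by linarith
  have ht3 : t ^ 3 = n := by
    rw [ht, ← Real.rpow_natCast, ← Real.rpow_mul (by linarith)]
    norm_num
  set ε : ℝ := 1 / (2 * t ^ 2) with hεd
  have hε : 0 < ε := by positivity
  have hε2 : ε ≤ 1 / 2 := by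
    rw [hεd, div_le_div_iff₀ (by positivity) (by norm_num)]
    nlinarith
  set G : ℝ := C / ε ^ 2 * Real.exp (C / Real.sqrt ε) with hG
  have hG0 : 0 < G := by positivity
  have hxc := Pool.Agent.Hhelper14.SAW.xc_pos
  set x : ℝ := (1 - ε) * xc with hx
  have hx0 : 0 < x := mul_pos (by linarith) hxc
  have hgf := gf_real hC hε hε2 (hS ε hε hε2)
  have h1 := hw_of_M hx0 (M := G / x) (fun T N => by
    rw [le_div_iff₀ hx0, mul_comm]; exact hgf T N) n
  have h2 : G / x + (x * (G / x) + 2 * (x ^ 2 * (G / x * (G / x)))) = G / x + (G + 2 * G ^ 2) := by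
    field_simp
  rw [h2] at h1
  -- `1 / x <= 4`
  have hmu := mu_bounds
  have hxinv : 1 / x ≤ 4 := by
    have h3 : xc * mu = 1 := xc_mu
    have h4 : 1 / 4 ≤ x := by
      have h5 : (1 : ℝ) / 2 ≤ 1 - ε := by linarith
      have h6 : (1 : ℝ) / 2 ≤ xc := by nlinarith
      rw [hx]; nlinarith
    rw [div_le_iff₀ hx0]; linarith
  have h3 : G / x ≤ 4 * G := by
    have : G / x = 1 / x * G := by ring
    rw [this]; exact mul_le_mul_of_nonneg_right hxinv hG0.le
  have h4 : (an n : ℝ) * x ^ n ≤ 7 * (1 + G) ^ 2 := by nlinarith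
  have hsq : 1 / Real.sqrt ε ≤ 2 * t := by
    have h5 : 1 / (2 * t) ≤ Real.sqrt ε := by
      apply Real.le_sqrt_of_sq_le
      rw [hεd, div_pow, one_pow, div_le_div_iff₀ (by positivity) (by positivity)]
      nlinarith [sq_nonneg t]
    rw [div_le_iff₀ (by positivity)]
    calc (1 : ℝ) = 2 * t * (1 / (2 * t)) := by field_simp
      _ ≤ 2 * t * Real.sqrt ε := by gcongr
  have hE1 : 1 ≤ 1 / ε ^ 2 := by
    rw [le_div_iff₀ (by positivity)]; nlinarith
  have hE2 : 1 ≤ Real.exp (C / Real.sqrt ε) := Real.one_le_exp (by positivity)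
  have h5 : 1 + G ≤ (1 + C) * (1 / ε ^ 2 * Real.exp (C / Real.sqrt ε)) := by
    have : 1 ≤ 1 / ε ^ 2 * Real.exp (C / Real.sqrt ε) := by nlinarith
    have h6 : G = C * (1 / ε ^ 2 * Real.exp (C / Real.sqrt ε)) := by rw [hG]; ring
    rw [h6]; linarith
  have h6 : 1 / ε ^ 2 = 4 * t ^ 4 := by rw [hεd]; field_simp; norm_num
  have h7 : Real.exp (C / Real.sqrt ε) ≤ Real.exp (2 * C * t) := by
    apply Real.exp_le_exp.2
    calc C / Real.sqrt ε = C * (1 / Real.sqrt ε) := by ring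
      _ ≤ C * (2 * t) := by gcongr
      _ = 2 * C * t := by ring
  have h8 : t ^ 4 ≤ Real.exp (4 * t) := by
    have : t ≤ Real.exp t := by linarith [Real.add_one_le_exp t]
    calc t ^ 4 ≤ Real.exp t ^ 4 := by gcongr
      _ = Real.exp (4 * t) := by rw [← Real.exp_nat_mul]; norm_num
  have h9 : 1 + G ≤ (1 + C) * 4 * Real.exp ((4 + 2 * C) * t) := by
    refine h5.trans ?_
    rw [h6]
    calc (1 + C) * (4 * t ^ 4 * Real.exp (C / Real.sqrt ε))
        ≤ (1 + C) * (4 * Real.exp (4 * t) * Real.exp (2 * C * t)) := by gcongr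
      _ = (1 + C) * 4 * Real.exp ((4 + 2 * C) * t) := by
          have : Real.exp ((4 + 2 * C) * t) = Real.exp (4 * t) * Real.exp (2 * C * t) := by
            rw [← Real.exp_add]; ring_nf
          rw [this]; ring
  have h10 : 7 * (1 + G) ^ 2 ≤ 112 * (1 + C) ^ 2 * Real.exp ((8 + 4 * C) * t) := by
    calc 7 * (1 + G) ^ 2 ≤ 7 * ((1 + C) * 4 * Real.exp ((4 + 2 * C) * t)) ^ 2 := by gcongr
      _ = 112 * (1 + C) ^ 2 * Real.exp ((8 + 4 * C) * t) := by
          have : Real.exp ((8 + 4 * C) * t) = Real.exp ((4 + 2 * C) * t) ^ 2 := by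
            rw [← Real.exp_nat_mul]; congr 1; push_cast; ring
          rw [this]; ring
  -- the factor `(1 - ε) ^ n`
  have h11 : 1 ≤ (1 - ε) ^ n * Real.exp t := by
    have b1 : 1 ≤ (1 - ε) * Real.exp (2 * ε) := by
      have := Real.add_one_le_exp (2 * ε)
      nlinarith
    have b2 := one_le_pow₀ b1 (n := n)
    rw [mul_pow, ← Real.exp_nat_mul] at b2
    have b3 : (n : ℝ) * (2 * ε) = t := by rw [← ht3, hεd]; field_simp
    rwa [b3] at b2
  have h12 : (an n : ℝ) ≤ (an n : ℝ) * x ^ n * (mu ^ n * Real.exp t) := by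
    have b0 : xc ^ n * mu ^ n = 1 := by rw [← mul_pow, xc_mu, one_pow]
    have b1 : (an n : ℝ) * x ^ n * (mu ^ n * Real.exp t) = (an n : ℝ) * ((1 - ε) ^ n * Real.exp t) := by
      rw [hx, mul_pow]
      calc (an n : ℝ) * ((1 - ε) ^ n * xc ^ n) * (mu ^ n * Real.exp t)
          = (an n : ℝ) * ((1 - ε) ^ n * Real.exp t) * (xc ^ n * mu ^ n) := by ring
        _ = _ := by rw [b0, mul_one]
    rw [b1]
    exact le_mul_of_one_le_right (by positivity) h11
  have hmun : 0 < mu ^ n := pow_pos mu_pos n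
  calc (an n : ℝ) ≤ (an n : ℝ) * x ^ n * (mu ^ n * Real.exp t) := h12
    _ ≤ 112 * (1 + C) ^ 2 * Real.exp ((8 + 4 * C) * t) * (mu ^ n * Real.exp t) :=
        mul_le_mul_of_nonneg_right (h4.trans h10) (by positivity)
    _ = mu ^ n * (112 * (1 + C) ^ 2 * Real.exp ((9 + 4 * C) * t)) := by
        have : Real.exp ((9 + 4 * C) * t) = Real.exp ((8 + 4 * C) * t) * Real.exp t := by
          rw [← Real.exp_add]; ring_nf
        rw [this]; ring
    _ ≤ mu ^ n * Real.exp ((9 + 4 * C + Real.log (112 * (1 + C) ^ 2)) * t) := by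
        refine mul_le_mul_of_nonneg_left ?_ hmun.le
        have e : 112 * (1 + C) ^ 2 = Real.exp (Real.log (112 * (1 + C) ^ 2)) :=
          (Real.exp_log (by positivity)).symm
        rw [e, ← Real.exp_add]
        apply Real.exp_le_exp.2
        rw [← e]
        nlinarith

end Pool.Agent.HHP
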