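import Pool.Agent.HHP.Geo
import Pool.Agent.HHP.Tsum

/-!
Project HHP: the mass of a fold. Last common renewal level.

PAPER PROOF of `JP_le`. Let `(W1, W2)` be in `JP (t + s + 1) t`, `H = t + s + 1`. If `NC H t (W1, W2)` the pair is
in `CP' s t`. Otherwise let `r` be the LARGEST number in `1, ..., t` with `Ren (H - r) W1` and `Ren r W2`.
`ren_split` for `W1` at the line `H - r`: `W1 = Xl ++ rt Xl :: Xu`, `Xl` in `Br (H - r - 1) = Br ((t - r) + s)`,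
`Xu` in `In r`; `app_right` gives `F0 (E Xu) = 3 r` and `Dr Xu = Dr W1`, so `Xu` is in `Be r` and `lt Xu = lt W1`.
`ren_split` for `W2` at the line `r`: `W2 = Yu ++ rt Yu :: Yl`, `Yu` in `Br (r - 1)`, `Yl` in `Be (t - r)`.
The word `A = Xu ++ lt Xu :: Yu` is in `Arc r`: the list `V (W1 ++ lt W1 :: W2)` is
`V Xl ++ (translate of V A) ++ rest` (use `vs_append`, `vs_right`, `vs_left`), so `V A` is nodup; by `app_left` the
vertices of `A` are those of `Xu` and `(E Xu + (-1, 0)) - z` for `z` in `V Yu`, with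
`F0 = 3 r - 2 - F0 z`, `0 <= F0 z <= 3 (r - 1) + 1`; `E A = (E Xu + (-1, 0)) - E Yu` has `F0 = 0`; `E Xu` is in
column `r`.
`(Xl, Yl)` is in `CP s (t - r)`: if `1 <= j <= t - r`, `Ren ((t - r) + s + 1 - j) Xl` and `Ren j Yl`, then by
`ren_low` and `ren_high` the level `r + j <= t` is a common renewal of `(W1, W2)`, against the choice of `r`.
Lengths: `|W1| + 1 + |W2| + 1 = (|A| + 1) + (|Xl| + 1) + (|Yl| + 1)`.
Injectivity (for fixed `r`): `Xu`, `Yu` are found from `A` by `split_uniq` with the property `3 r <= F0 z`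
(`E Xu` is the last vertex of `A` with this property).
Now sum over `r = r' + 1`, `r' < t` with `ms2_or`, `ms2_union`, `ms2_rel3`.
-/

namespace Pool.Agent.HHP

open Pool.Agent.Hhelper14.SAW Finset
open scoped ENNReal

lemma fold_core {s t r : ℕ} {X Y : List Bool} (hJ : JP (t + s + 1) t (X, Y)) (hr1 : 1 ≤ r) (hrt : r ≤ t)
    (hX : Ren (t + s + 1 - r) X) (hY : Ren r Y)
    (hmax : ∀ j, r < j → j ≤ t → ¬ (Ren (t + s + 1 - j) X ∧ Ren j Y)) :
    ∃ Xl Xu Yu Yl, X = Xl ++ rt Xl :: Xu ∧ Y = Yu ++ rt Yu :: Yl ∧ Arc r (Xu ++ lt Xu :: Yu) ∧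
      CP s (t - r) (Xl, Yl) ∧ 3 * (r : ℤ) ≤ F0 (E Xu) ∧
      ∀ z ∈ vs (E Xu + tn (lt Xu) (Dr Xu)) (tn (lt Xu) (Dr Xu)) Yu, ¬ 3 * (r : ℤ) ≤ F0 z := by
  obtain ⟨hBX, hBY, hN⟩ := hJ
  simp only at hBX hBY hN
  obtain ⟨Xl, Xu, rfl, hXl, hXu⟩ := ren_split hBX.1 (i := t + s + 1 - r) (by omega) (by omega) hX
  obtain ⟨Yu, Yl, rfl, hYu, hYl⟩ := ren_split hBY.1 (i := r) hr1 hrt hY
  have e1 : t + s + 1 - (t + s + 1 - r) = r := by omega
  have e2 : t + s + 1 - r - 1 = t - r + s := by omega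
  rw [e1] at hXu
  rw [e2] at hXl
  obtain ⟨a1, a2, a3⟩ := app_right (Q := Xu) hXl.tn_rt
  obtain ⟨b1, b2, b3⟩ := app_right (Q := Yl) hYu.tn_rt
  have c1 : F0 (E Xl + (1, 0)) = 3 * ((t : ℤ) - r + s) + 3 := by
    rw [F0_add, hXl.2]; simp [F0]; push_cast [Nat.cast_sub hrt]; ring
  have c2 : F0 (E Yu + (1, 0)) = 3 * (r : ℤ) := by
    rw [F0_add, hYu.2]; simp [F0]; push_cast [Nat.cast_sub hr1]; ring
  have hEXu : F0 (E Xu) = 3 * r := by
    have h1 := hBX.2.1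
    rw [a2, F0_add, c1] at h1
    push_cast at h1
    linarith
  have hEYl : F0 (E Yl) = 3 * ((t - r : ℕ) : ℤ) := by
    have h1 := hBY.2.1
    rw [b2, F0_add, c2] at h1
    rw [Nat.cast_sub hrt]
    linarith
  have hXuB : Be r Xu := ⟨hXu, hEXu, by rw [← a3]; exact hBX.2.2⟩
  have hYlB : Be (t - r) Yl := ⟨hYl, hEYl, by rw [← b3]; exact hBY.2.2⟩
  have hlt : lt (Xl ++ rt Xl :: Xu) = lt Xu := by unfold lt; rw [a3]
  obtain ⟨d1, d2, d3⟩ := app_left (Q := Yu) hXuB.tn_lt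
  refine ⟨Xl, Xu, Yu, Yl, rfl, rfl, ⟨⟨?_, ?_⟩, ?_, ?_, by simp⟩, ⟨hXl, hYlB, ?_⟩, hEXu.ge, ?_⟩
  · -- nodup
    rw [hlt] at hN
    have hlt' : tn (lt Xu) (Dr (Xl ++ rt Xl :: Xu)) = (-1, 0) := by rw [a3]; exact hXuB.tn_lt
    rw [(app_left (Q := Yu ++ rt Yu :: Yl) hlt').1, a1, b1, a2, List.map_append, ← List.append_assoc] at hN
    have hN1 := (List.nodup_append.1 hN).1
    rw [List.append_assoc] at hN1
    have hN2 := (List.nodup_append.1 hN1).2.1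
    refine List.Nodup.of_map (fun z => E Xl + (1, 0) + z) ?_
    rw [d1, List.map_append, List.map_map]
    convert hN2 using 3
    funext z
    simp only [Function.comp]
    ring
  · -- range
    intro z hz
    rw [d1, List.mem_append] at hz
    rcases hz with hz | hz
    · exact hXu.2 z hz
    · obtain ⟨w, hw, rfl⟩ := List.mem_map.1 hz
      have h1 := hYu.1.2 w hw
      rw [F0_sub, F0_add, hEXu]
      have h2 : F0 ((-1, 0) : ℤ × ℤ) = -2 := by decide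
      rw [h2]
      rw [Nat.cast_sub hr1] at h1
      push_cast at h1
      constructor <;> linarith [h1.1, h1.2]
  · refine ⟨E Xu, ?_, hEXu.ge⟩
    rw [d1]
    exact List.mem_append_left _ (E_mem _)
  · rw [d2, F0_sub, F0_add, hEXu, hYu.2]
    have h2 : F0 ((-1, 0) : ℤ × ℤ) = -2 := by decide
    rw [h2, Nat.cast_sub hr1]
    push_cast
    ring
  · -- no common renewal
    intro j hj1 hj2 hh
    obtain ⟨g1, g2⟩ := hh
    simp only at g1 g2
    refine hmax (r + j) (by omega) (by omega) ⟨?_, ?_⟩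
    · have e3 : t + s + 1 - (r + j) = t - r + s + 1 - j := by omega
      rw [e3]
      exact (ren_low hXl hXu (by omega)).2 g1
    · have h3 := (ren_high hYu hYl hj1).2 g2
      have e4 : r - 1 + 1 + j = r + j := by omega
      rwa [e4] at h3
  · intro z hz
    rw [hXuB.tn_lt, vs_left] at hz
    obtain ⟨w, hw, rfl⟩ := List.mem_map.1 hz
    have h1 := (hYu.1.2 w hw).1
    have h2 : F0 ((-1, 0) : ℤ × ℤ) = -2 := by decide
    rw [F0_sub, F0_add, hEXu, h2]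
    linarith

theorem JP_le (y : ℝ≥0∞) (s t : ℕ) : ms2 y (JP (t + s + 1) t) ≤
    ∑ r ∈ range t, ms y (Arc (r + 1)) * ms2 y (CP s (t - (r + 1))) + ms2 y (CP' s t) := by
  classical
  let QQ : ℕ → List Bool × List Bool → Prop := fun r p => JP (t + s + 1) t p ∧ Ren (t + s + 1 - (r + 1)) p.1 ∧
    Ren (r + 1) p.2 ∧ ∀ j, r + 1 < j → j ≤ t → ¬ (Ren (t + s + 1 - j) p.1 ∧ Ren j p.2)
  have key : ∀ p, JP (t + s + 1) t p → (∃ r ∈ range t, QQ r p) ∨ CP' s t p := by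
    intro p hp
    by_cases hnc : NC (t + s + 1) t p
    · exact Or.inr ⟨hp.1, hp.2.1, hnc⟩
    · left
      unfold NC at hnc
      push Not at hnc
      obtain ⟨r0, hr1, hr2, hr3⟩ := hnc
      let S := (range (t + 1)).filter (fun r => 1 ≤ r ∧ Ren (t + s + 1 - r) p.1 ∧ Ren r p.2)
      have hS : S.Nonempty := ⟨r0, by simp only [S, mem_filter, mem_range]; exact ⟨by omega, hr1, hr3⟩⟩
      obtain ⟨m, hmS, hmx⟩ : ∃ m ∈ S, ∀ j ∈ S, j ≤ m := ⟨S.max' hS, S.max'_mem hS, fun j hj => S.le_max' j hj⟩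
      have hm := hmS
      simp only [S, mem_filter, mem_range] at hm
      obtain ⟨hm1, hm2, hm3, hm4⟩ := hm
      refine ⟨m - 1, mem_range.2 (by omega), hp, ?_, ?_, ?_⟩
      · have e : m - 1 + 1 = m := by omega
        rw [e]; exact hm3
      · have e : m - 1 + 1 = m := by omega
        rw [e]; exact hm4
      · intro j hj1 hj2 hj3
        have hjS : j ∈ S := by simp only [S, mem_filter, mem_range]; exact ⟨by omega, by omega, hj3⟩
        have := hmx j hjS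
        omega
  refine (ms2_or key).trans (add_le_add ((ms2_union (range t) (Q := QQ) fun p h => h).trans
    (sum_le_sum fun r hr => ?_)) le_rfl)
  have hr' := mem_range.1 hr
  refine ms2_rel3 (fun p B q => ∃ Xu Yu, p.1 = q.1 ++ rt q.1 :: Xu ∧ p.2 = Yu ++ rt Yu :: q.2 ∧
    B = Xu ++ lt Xu :: Yu ∧ 3 * ((r + 1 : ℕ) : ℤ) ≤ F0 (E Xu) ∧
    ∀ z ∈ vs (E Xu + tn (lt Xu) (Dr Xu)) (tn (lt Xu) (Dr Xu)) Yu, ¬ 3 * ((r + 1 : ℕ) : ℤ) ≤ F0 z) ?_ ?_
  · rintro X Y ⟨h1, h2, h3, h4⟩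
    obtain ⟨Xl, Xu, Yu, Yl, rfl, rfl, h5, h6, h7, h8⟩ := fold_core h1 (by omega) (by omega) h2 h3 h4
    refine ⟨Xu ++ lt Xu :: Yu, Xl, Yl, h5, h6, ⟨Xu, Yu, rfl, rfl, rfl, h7, h8⟩, ?_⟩
    simp only [List.length_append, List.length_cons]
    ring
  · rintro ⟨X, Y⟩ ⟨X', Y'⟩ b ⟨C, D⟩ - - - - ⟨Xu, Yu, h1, h2, h3, h4, h5⟩ ⟨Xu', Yu', h1', h2', h3', h4', h5'⟩
    simp only at h1 h2 h1' h2'
    obtain ⟨e1, -, e2⟩ := split_uniq (fun z => 3 * ((r + 1 : ℕ) : ℤ) ≤ F0 z) (h3.symm.trans h3') h4 h5 h4' h5'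
    rw [h1, h2, h1', h2', e1, e2]

end Pool.Agent.HHP
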