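import Mathlib

/-!
Project HHP, analysis: a Gronwall inequality with gaps.

With `q = 1 - ε`, `A = 1 / √ε`, `Λ t = A * (1 - q ^ t)`: `S n * exp (- Λ n) <= K + ∑ b < n, κ b * S b * exp (- Λ b)`, where
`κ b = ∑ s, J (b + s + 1) b * q ^ (2 b + s + 1) * exp (- A q ^ b (1 - q ^ (s + 1)))`, and the sum of the `κ b` is at most
`4 C0 / √ε` because for every gap `s` the sum of `J (t + s + 1) t` is at most `C0`.
-/

namespace Pool.Agent.HHP

open Finset
open scoped ENNReal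

/-- Discrete Gronwall inequality. -/
theorem gron_disc (K : ℝ) (Z κ : ℕ → ℝ) (hκ : ∀ n, 0 ≤ κ n) (N : ℕ)
    (h : ∀ n ≤ N, Z n ≤ K + ∑ b ∈ range n, κ b * Z b) :
    ∀ n ≤ N, Z n ≤ K * ∏ b ∈ range n, (1 + κ b) := by
  have key : ∀ n, n ≤ N → K + ∑ b ∈ range n, κ b * Z b ≤ K * ∏ b ∈ range n, (1 + κ b) := by
    intro n
    induction n with
    | zero => intro _; simp
    | succ n ih =>
      intro hn
      have h1 := ih (by omega)
      have h2 := (h n (by omega)).trans h1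
      rw [sum_range_succ, prod_range_succ]
      have h3 := mul_le_mul_of_nonneg_left h2 (hκ n)
      nlinarith
  intro n hn
  exact (h n hn).trans (key n hn)

/-- `(m ε)² q ^ m ≤ (1 - q ^ m)²`. -/
theorem gron_sq {q : ℝ} (h0 : 0 < q) (h1 : q < 1) (m : ℕ) :
    ((m : ℝ) * (1 - q)) ^ 2 * q ^ m ≤ (1 - q ^ m) ^ 2 := by
  set ζ := Real.sqrt q with hζ
  have hζ2 : ζ ^ 2 = q := Real.sq_sqrt h0.le
  have hζ0 : 0 < ζ := Real.sqrt_pos.2 h0
  have hζ1 : ζ < 1 := by
    by_contra hc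
    push Not at hc
    nlinarith
  have key : ∀ m : ℕ, (m : ℝ) * (1 - ζ ^ 2) * ζ ^ m ≤ 1 - (ζ ^ 2) ^ m := by
    intro m
    induction m with
    | zero => simp
    | succ m ih =>
      have hp : 0 < ζ ^ m := pow_pos hζ0 m
      have hp1 : ζ ^ m ≤ 1 := pow_le_one₀ hζ0.le hζ1.le
      have e1 : (ζ ^ 2) ^ m = ζ ^ m * ζ ^ m := by rw [← pow_mul, two_mul, pow_add]
      have e2 : (ζ ^ 2) ^ (m + 1) = ζ ^ m * ζ ^ m * ζ ^ 2 := by rw [pow_succ, e1]
      have e3 : ζ ^ (m + 1) = ζ ^ m * ζ := pow_succ _ _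
      rw [e1] at ih
      rw [e2, e3]
      push_cast
      set p := ζ ^ m with hpd
      have h2 : (m : ℝ) * (1 - ζ ^ 2) * p * ζ ≤ (1 - p * p) * ζ :=
        mul_le_mul_of_nonneg_right ih hζ0.le
      have h3 : 0 ≤ (1 - ζ) * ((1 - p) ^ 2 + (1 - ζ) * p * (2 + ζ - p)) := by
        have a1 : 0 ≤ 1 - ζ := by linarith
        have a2 : 0 ≤ 2 + ζ - p := by linarith
        positivity
      have h4 : (1 - ζ) * ((1 - p) ^ 2 + (1 - ζ) * p * (2 + ζ - p)) =
          1 - p * p * ζ ^ 2 - ((1 - p * p) * ζ + (1 - ζ ^ 2) * p * ζ) := by ring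
      have h5 : ((m : ℝ) + 1) * (1 - ζ ^ 2) * (p * ζ) =
          (m : ℝ) * (1 - ζ ^ 2) * p * ζ + (1 - ζ ^ 2) * p * ζ := by ring
      linarith
  have h2 := key m
  rw [hζ2] at h2
  have h3 : 0 ≤ (m : ℝ) * (1 - q) * ζ ^ m := by
    have : 0 ≤ 1 - q := by linarith
    positivity
  have h4 := pow_le_pow_left₀ h3 h2 2
  have h5 : ((m : ℝ) * (1 - q) * ζ ^ m) ^ 2 = ((m : ℝ) * (1 - q)) ^ 2 * q ^ m := by
    rw [mul_pow, ← pow_mul, mul_comm m 2, pow_mul, hζ2]
  rw [h5] at h4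
  exact h4

/-- `r² e^{-r} ≤ 1`. -/
theorem gron_exp {r : ℝ} (hr : 0 ≤ r) : r ^ 2 * Real.exp (-r) ≤ 1 := by
  have h1 : r ^ 2 ≤ Real.exp r := by
    have h2 := Real.add_one_le_exp (r / 2)
    have h3 : (r / 2 + 1) ^ 2 ≤ Real.exp (r / 2) ^ 2 := pow_le_pow_left₀ (by positivity) h2 2
    have h4 : Real.exp (r / 2) ^ 2 = Real.exp r := by
      rw [← Real.exp_nat_mul]; congr 1; push_cast; ring
    rw [h4] at h3
    have h5 := Real.quadratic_le_exp_of_nonneg hr
    -- `r ^ 2 <= 1 + r + r ^ 2 / 2 + r ^ 3 / 6`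
    have h6 := Real.sum_le_exp_of_nonneg hr 4
    simp [Finset.sum_range_succ, Nat.factorial] at h6
    nlinarith [sq_nonneg (r - 2), sq_nonneg r, mul_nonneg hr (sq_nonneg (r - 2)), mul_nonneg hr (sq_nonneg (r - 1))]
  rw [Real.exp_neg]
  rw [mul_inv_le_iff₀ (Real.exp_pos _)]
  linarith

/-- Telescoping bound. -/
theorem gron_tel {v : ℝ} (hv : 0 < v) (n : ℕ) :
    ∑ s ∈ range n, 1 / (1 + v * ((s : ℝ) + 1)) ^ 2 ≤ 1 / v := by
  have key : ∀ s : ℕ, 1 / (1 + v * ((s : ℝ) + 1)) ^ 2 ≤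
      1 / v * (1 / (1 + v * (s : ℝ)) - 1 / (1 + v * ((s + 1 : ℕ) : ℝ))) := by
    intro s
    have hs : (0 : ℝ) ≤ s := Nat.cast_nonneg s
    push_cast
    have ha : 0 < 1 + v * (s : ℝ) := by positivity
    have hb : 0 < 1 + v * ((s : ℝ) + 1) := by positivity
    have h1 : 1 / v * (1 / (1 + v * (s : ℝ)) - 1 / (1 + v * ((s : ℝ) + 1))) =
        1 / ((1 + v * (s : ℝ)) * (1 + v * ((s : ℝ) + 1))) := by
      field_simp
      ring
    rw [h1, div_le_div_iff₀ (by positivity) (by positivity)]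
    nlinarith
  calc ∑ s ∈ range n, 1 / (1 + v * ((s : ℝ) + 1)) ^ 2
      ≤ ∑ s ∈ range n, 1 / v * (1 / (1 + v * (s : ℝ)) - 1 / (1 + v * ((s + 1 : ℕ) : ℝ))) :=
        sum_le_sum fun s _ => key s
    _ = 1 / v * (1 / (1 + v * ((0 : ℕ) : ℝ)) - 1 / (1 + v * (n : ℝ))) := by
        rw [← mul_sum, sum_range_sub']
    _ ≤ 1 / v * 1 := by
        apply mul_le_mul_of_nonneg_left _ (by positivity)
        have : 0 ≤ 1 / (1 + v * (n : ℝ)) := by positivity
        simp only [Nat.cast_zero, mul_zero, add_zero, div_one]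
        linarith
    _ = 1 / v := mul_one _

theorem gron_reorg (f : ℕ → ℕ → ℝ) (hf : ∀ a b, 0 ≤ f a b) {m n : ℕ} (hmn : m ≤ n) :
    ∑ a ∈ range (m + 1), ∑ b ∈ range a, f a b ≤
      ∑ b ∈ range m, ∑ s ∈ range n, f (b + s + 1) b := by
  have h1 : ∑ a ∈ range (m + 1), ∑ b ∈ range a, f a b =
      ∑ b ∈ range m, ∑ a ∈ Ico (b + 1) (m + 1), f a b := by
    apply sum_comm'
    intro a b
    simp only [mem_range, mem_Ico]
    omega
  rw [h1]
  refine sum_le_sum fun b hb => ?_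
  rw [mem_range] at hb
  rw [sum_Ico_eq_sum_range]
  have h2 : ∀ s, f (b + 1 + s) b = f (b + s + 1) b := fun s => by
    congr 1; ring
  simp only [h2]
  exact sum_le_sum_of_subset_of_nonneg (range_mono (by omega)) fun _ _ _ => hf _ _

theorem gron_kernel {v q : ℝ} (hv : 0 < v) (h0 : 0 < q) (h1 : q < 1) (hq : 1 - q = v ^ 2)
    (b m : ℕ) (hm : 1 ≤ m) :
    q ^ (2 * b + m) * Real.exp (-(1 / v * q ^ b * (1 - q ^ m))) ≤ 4 * (1 / (1 + v * m) ^ 2) := by
  have hm0 : (0 : ℝ) < m := by exact_mod_cast hm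
  set w := q ^ b with hw
  have hw0 : 0 < w := pow_pos h0 b
  have hw1 : w ≤ 1 := pow_le_one₀ h0.le h1.le
  set Q := q ^ m with hQ
  have hQ0 : 0 < Q := pow_pos h0 m
  have hQ1 : Q < 1 := pow_lt_one₀ h0.le h1 (by omega)
  have e1 : q ^ (2 * b + m) = w ^ 2 * Q := by rw [pow_add, hw, hQ]; ring
  rw [e1]
  set δ := 1 - Q with hδ
  have hδ0 : 0 < δ := by rw [hδ]; linarith
  have hE1 : Real.exp (-(1 / v * w * δ)) ≤ 1 := Real.exp_le_one_iff.2 (by
    have : 0 < 1 / v * w * δ := by positivity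
    linarith)
  have hE0 := (Real.exp_pos (-(1 / v * w * δ))).le
  set E := Real.exp (-(1 / v * w * δ)) with hE
  have hw2 : w ^ 2 ≤ 1 := pow_le_one₀ hw0.le hw1
  rw [mul_one_div, le_div_iff₀ (by positivity)]
  by_cases hc : v * m ≤ 1
  · have a1 : (1 + v * m) ^ 2 ≤ 4 := by
      have : 0 < v * m := by positivity
      nlinarith
    have a2 : w ^ 2 * Q * E ≤ 1 := by
      have b1 : w ^ 2 * Q ≤ 1 := by nlinarith
      have b2 : 0 ≤ w ^ 2 * Q := by positivity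
      nlinarith
    have a3 : 0 ≤ w ^ 2 * Q * E := by positivity
    nlinarith [sq_nonneg (1 + v * m)]
  · push Not at hc
    have a1 : (1 + v * m) ^ 2 ≤ 4 * (v * m) ^ 2 := by nlinarith
    have a2 := gron_exp (r := 1 / v * w * δ) (by positivity)
    have a3 := gron_sq h0 h1 m
    rw [hq, ← hQ, ← hδ] at a3
    -- `w² (1/v²) δ² E ≤ 1`, `(m v²)² Q ≤ δ²`
    have a4 : w ^ 2 * Q * E * (v * m) ^ 2 ≤ 1 := by
      have b1 : (m * v ^ 2) ^ 2 * Q * (1 / v ^ 2) ≤ δ ^ 2 * (1 / v ^ 2) :=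
        mul_le_mul_of_nonneg_right a3 (by positivity)
      have b2 : (m * v ^ 2) ^ 2 * Q * (1 / v ^ 2) = (v * m) ^ 2 * Q := by field_simp
      rw [b2] at b1
      have b3 : w ^ 2 * E * ((v * m) ^ 2 * Q) ≤ w ^ 2 * E * (δ ^ 2 * (1 / v ^ 2)) :=
        mul_le_mul_of_nonneg_left b1 (by positivity)
      have b4 : w ^ 2 * E * (δ ^ 2 * (1 / v ^ 2)) = (1 / v * w * δ) ^ 2 * E := by ring
      rw [b4] at b3
      calc w ^ 2 * Q * E * (v * m) ^ 2 = w ^ 2 * E * ((v * m) ^ 2 * Q) := by ring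
        _ ≤ _ := b3
        _ ≤ 1 := a2
    have a5 : 0 ≤ w ^ 2 * Q * E := by positivity
    calc w ^ 2 * Q * E * (1 + v * m) ^ 2 ≤ w ^ 2 * Q * E * (4 * (v * m) ^ 2) :=
          mul_le_mul_of_nonneg_left a1 a5
      _ = 4 * (w ^ 2 * Q * E * (v * m) ^ 2) := by ring
      _ ≤ 4 * 1 := by linarith
      _ = 4 := by norm_num

theorem gron_core {v q : ℝ} (hv : 0 < v) (h0 : 0 < q) (h1 : q < 1) (hq : 1 - q = v ^ 2)
    {K M : ℝ} (hK : 0 ≤ K) (hM : 0 ≤ M) (J : ℕ → ℕ → ℝ) (hJ : ∀ a b, 0 ≤ J a b)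
    (hJM : ∀ s D : ℕ, ∑ t ∈ range D, J (t + s + 1) t ≤ M) (S : ℕ → ℝ) (hS : ∀ n, 0 ≤ S n)
    (hrec : ∀ n, S n ≤ K + ∑ a ∈ range (n + 1), ∑ b ∈ range a, J a b * q ^ (a + b) * S b)
    (n : ℕ) : S n ≤ K * Real.exp (1 / v + 4 * M / v) := by
  set A := 1 / v with hA
  have hA0 : 0 < A := by positivity
  set Λ : ℕ → ℝ := fun t => A * (1 - q ^ t) with hΛ
  have hΛ0 : ∀ t, 0 ≤ Λ t := fun t => by
    have : q ^ t ≤ 1 := pow_le_one₀ h0.le h1.le
    exact mul_nonneg hA0.le (by linarith)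
  have hΛA : ∀ t, Λ t ≤ A := fun t => by
    have : 0 < q ^ t := pow_pos h0 t
    simp only [hΛ]
    nlinarith
  have hΛm : ∀ a b, a ≤ b → Λ a ≤ Λ b := fun a b hab => by
    have : q ^ b ≤ q ^ a := pow_le_pow_of_le_one h0.le h1.le hab
    simp only [hΛ]
    exact mul_le_mul_of_nonneg_left (by linarith) hA0.le
  set κ : ℕ → ℝ := fun b => ∑ s ∈ range n, J (b + s + 1) b * (4 * (1 / (1 + v * ((s + 1 : ℕ) : ℝ)) ^ 2)) with hκ
  have hκ0 : ∀ b, 0 ≤ κ b := fun b => sum_nonneg fun s _ => mul_nonneg (hJ _ _) (by positivity)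
  set Z : ℕ → ℝ := fun t => S t * Real.exp (-Λ t) with hZ
  have hZrec : ∀ m ≤ n, Z m ≤ K + ∑ b ∈ range m, κ b * Z b := by
    intro m hm
    have g1 := mul_le_mul_of_nonneg_right (hrec m) (Real.exp_pos (-Λ m)).le
    refine g1.trans ?_
    rw [add_mul]
    refine add_le_add ?_ ?_
    · have : Real.exp (-Λ m) ≤ 1 := Real.exp_le_one_iff.2 (by linarith [hΛ0 m])
      nlinarith
    · rw [sum_mul]
      simp_rw [sum_mul]
      calc ∑ a ∈ range (m + 1), ∑ b ∈ range a, J a b * q ^ (a + b) * S b * Real.exp (-Λ m)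
          ≤ ∑ a ∈ range (m + 1), ∑ b ∈ range a, J a b * q ^ (a + b) * S b * Real.exp (-Λ a) := by
            refine sum_le_sum fun a ha => sum_le_sum fun b _ => ?_
            rw [mem_range] at ha
            refine mul_le_mul_of_nonneg_left ?_ (mul_nonneg (mul_nonneg (hJ _ _) (pow_nonneg h0.le _)) (hS _))
            exact Real.exp_le_exp.2 (by linarith [hΛm a m (by omega)])
        _ ≤ ∑ b ∈ range m, ∑ s ∈ range n,
            J (b + s + 1) b * q ^ (b + s + 1 + b) * S b * Real.exp (-Λ (b + s + 1)) :=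
            gron_reorg (fun a b => J a b * q ^ (a + b) * S b * Real.exp (-Λ a))
              (fun a b => mul_nonneg (mul_nonneg (mul_nonneg (hJ _ _) (pow_nonneg h0.le _)) (hS _))
                (Real.exp_pos _).le) hm
        _ ≤ ∑ b ∈ range m, κ b * Z b := by
            refine sum_le_sum fun b _ => ?_
            rw [hκ]
            simp only
            rw [sum_mul]
            refine sum_le_sum fun s _ => ?_
            have k1 := gron_kernel hv h0 h1 hq b (s + 1) (by omega)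
            have k2 : Λ (b + s + 1) = Λ b + A * q ^ b * (1 - q ^ (s + 1)) := by
              simp only [hΛ]
              rw [show b + s + 1 = b + (s + 1) by ring, pow_add q b (s + 1)]
              ring
            have k3 : Real.exp (-Λ (b + s + 1)) =
                Real.exp (-(A * q ^ b * (1 - q ^ (s + 1)))) * Real.exp (-Λ b) := by
              rw [k2, ← Real.exp_add]; congr 1; ring
            rw [k3]
            have k4 : b + s + 1 + b = 2 * b + (s + 1) := by ring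
            rw [k4]
            have k5 : 0 ≤ J (b + s + 1) b * (S b * Real.exp (-Λ b)) :=
              mul_nonneg (hJ _ _) (mul_nonneg (hS _) (Real.exp_pos _).le)
            have k6 := mul_le_mul_of_nonneg_left k1 k5
            calc J (b + s + 1) b * q ^ (2 * b + (s + 1)) * S b *
                  (Real.exp (-(A * q ^ b * (1 - q ^ (s + 1)))) * Real.exp (-Λ b))
                = J (b + s + 1) b * (S b * Real.exp (-Λ b)) * (q ^ (2 * b + (s + 1)) *
                  Real.exp (-(A * q ^ b * (1 - q ^ (s + 1))))) := by ring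
              _ ≤ J (b + s + 1) b * (S b * Real.exp (-Λ b)) * (4 * (1 / (1 + v * ((s + 1 : ℕ) : ℝ)) ^ 2)) := k6
              _ = _ := by ring
  have hG := gron_disc K Z κ hκ0 n hZrec n le_rfl
  have hsum : ∑ b ∈ range n, κ b ≤ 4 * M / v := by
    rw [hκ]
    simp only
    rw [sum_comm]
    calc ∑ s ∈ range n, ∑ b ∈ range n, J (b + s + 1) b * (4 * (1 / (1 + v * ((s + 1 : ℕ) : ℝ)) ^ 2))
        = ∑ s ∈ range n, (∑ b ∈ range n, J (b + s + 1) b) * (4 * (1 / (1 + v * ((s + 1 : ℕ) : ℝ)) ^ 2)) :=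
          sum_congr rfl fun s _ => by rw [sum_mul]
      _ ≤ ∑ s ∈ range n, M * (4 * (1 / (1 + v * ((s + 1 : ℕ) : ℝ)) ^ 2)) := by
          refine sum_le_sum fun s _ => mul_le_mul_of_nonneg_right (hJM s n) (by positivity)
      _ = 4 * M * ∑ s ∈ range n, 1 / (1 + v * ((s : ℝ) + 1)) ^ 2 := by
          rw [mul_sum]
          refine sum_congr rfl fun s _ => ?_
          push_cast; ring
      _ ≤ 4 * M * (1 / v) := mul_le_mul_of_nonneg_left (gron_tel hv n) (by positivity)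
      _ = 4 * M / v := by ring
  have hprod : ∏ b ∈ range n, (1 + κ b) ≤ Real.exp (∑ b ∈ range n, κ b) := by
    rw [Real.exp_sum]
    refine prod_le_prod (fun b _ => by linarith [hκ0 b]) fun b _ => ?_
    linarith [Real.add_one_le_exp (κ b)]
  have hSn : S n = Z n * Real.exp (Λ n) := by
    simp only [hZ]
    rw [mul_assoc, ← Real.exp_add, neg_add_cancel, Real.exp_zero, mul_one]
  rw [hSn]
  calc Z n * Real.exp (Λ n) ≤ K * Real.exp (4 * M / v) * Real.exp A := by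
        refine mul_le_mul ?_ (Real.exp_le_exp.2 (hΛA n)) (Real.exp_pos _).le (by positivity)
        refine hG.trans (mul_le_mul_of_nonneg_left ?_ hK)
        exact hprod.trans (Real.exp_le_exp.2 hsum)
    _ = K * Real.exp (A + 4 * M / v) := by
        rw [mul_assoc, ← Real.exp_add]; congr 2; ring

theorem gron_real (C0 : ℝ) (hC0 : 0 ≤ C0) : ∃ C1 : ℝ, 0 < C1 ∧ ∀ ε : ℝ, 0 < ε → ε ≤ 1 / 2 → ∀ K : ℝ, 0 ≤ K →
    ∀ J : ℕ → ℕ → ℝ, (∀ a b, 0 ≤ J a b) → (∀ s D : ℕ, ∑ t ∈ range D, J (t + s + 1) t ≤ C0) →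
    ∀ S : ℕ → ℝ, (∀ n, 0 ≤ S n) →
    (∀ n, S n ≤ K + ∑ a ∈ range (n + 1), ∑ b ∈ range a, J a b * (1 - ε) ^ (a + b) * S b) →
    ∀ n, S n ≤ K * Real.exp (C1 / Real.sqrt ε) := by
  refine ⟨1 + 4 * C0, by linarith, fun ε hε hε2 K hK J hJ hJs S hS hrec n => ?_⟩
  have hv : 0 < Real.sqrt ε := Real.sqrt_pos.2 hε
  have h := gron_core hv (q := 1 - ε) (by linarith) (by linarith) (by rw [Real.sq_sqrt hε.le]; ring)
    hK hC0 J hJ hJs S hS hrec n
  refine h.trans (le_of_eq ?_)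
  congr 2
  ring

theorem gron (C0 : ℝ) (hC0 : 0 ≤ C0) : ∃ C1 : ℝ, 0 < C1 ∧ ∀ ε : ℝ, 0 < ε → ε ≤ 1 / 2 → ∀ K : ℝ≥0∞,
    ∀ J : ℕ → ℕ → ℝ≥0∞, (∀ s D : ℕ, ∑ t ∈ range D, J (t + s + 1) t ≤ ENNReal.ofReal C0) → ∀ S : ℕ → ℝ≥0∞,
    (∀ n, S n ≤ K + ∑ a ∈ range (n + 1), ∑ b ∈ range a, J a b * ENNReal.ofReal (1 - ε) ^ (a + b) * S b) →
    ∀ n, S n ≤ K * ENNReal.ofReal (Real.exp (C1 / Real.sqrt ε)) := by
  obtain ⟨C1, hC1, hg⟩ := gron_real C0 hC0
  refine ⟨C1, hC1, fun ε hε hε2 K J hJ S hrec n => ?_⟩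
  rcases eq_or_ne K ∞ with rfl | hK
  · rw [ENNReal.top_mul]
    · exact le_top
    · rw [Ne, ENNReal.ofReal_eq_zero, not_le]; exact Real.exp_pos _
  have h0 : 0 ≤ 1 - ε := by linarith
  have hJfin : ∀ a b, b < a → J a b ≤ ENNReal.ofReal C0 := by
    intro a b hab
    have h1 := hJ (a - b - 1) (b + 1)
    refine le_trans ?_ h1
    have h2 := single_le_sum (f := fun t => J (t + (a - b - 1) + 1) t) (s := range (b + 1))
      (fun _ _ => bot_le) (mem_range.2 (Nat.lt_succ_self b))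
    have h3 : b + (a - b - 1) + 1 = a := by omega
    simp only [h3] at h2
    exact h2
  have hJne : ∀ a b, b < a → J a b ≠ ∞ := fun a b h => ne_top_of_le_ne_top ENNReal.ofReal_ne_top (hJfin a b h)
  have hSfin : ∀ n, S n ≠ ∞ := by
    intro n
    induction n using Nat.strong_induction_on with
    | _ n ih =>
      refine ne_top_of_le_ne_top ?_ (hrec n)
      refine ENNReal.add_ne_top.2 ⟨hK, ?_⟩
      refine ENNReal.sum_ne_top.2 fun a ha => ENNReal.sum_ne_top.2 fun b hb => ?_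
      rw [mem_range] at ha hb
      exact ENNReal.mul_ne_top (ENNReal.mul_ne_top (hJne a b hb) (ENNReal.pow_ne_top ENNReal.ofReal_ne_top))
        (ih b (by omega))
  set J' : ℕ → ℕ → ℝ := fun a b => if b < a then (J a b).toReal else 0 with hJ'
  have hJ'0 : ∀ a b, 0 ≤ J' a b := fun a b => by
    simp only [hJ']; split_ifs <;> positivity
  have h1 := hg ε hε hε2 K.toReal ENNReal.toReal_nonneg J' hJ'0 ?_ (fun n => (S n).toReal)
    (fun n => ENNReal.toReal_nonneg) ?_ n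
  · have h2 : S n = ENNReal.ofReal (S n).toReal := (ENNReal.ofReal_toReal (hSfin n)).symm
    rw [h2]
    refine (ENNReal.ofReal_le_ofReal h1).trans (le_of_eq ?_)
    rw [ENNReal.ofReal_mul ENNReal.toReal_nonneg, ENNReal.ofReal_toReal hK]
  · intro s D
    have h2 := hJ s D
    have h3 : ∑ t ∈ range D, J' (t + s + 1) t = (∑ t ∈ range D, J (t + s + 1) t).toReal := by
      rw [ENNReal.toReal_sum (fun t _ => hJne _ _ (by omega))]
      refine sum_congr rfl fun t _ => ?_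
      simp only [hJ']
      rw [if_pos (by omega)]
    rw [h3]
    exact ENNReal.toReal_le_of_le_ofReal hC0 h2
  · intro n
    have h2 := hrec n
    have hfin : ∀ a ∈ range (n + 1), ∑ b ∈ range a, J a b * ENNReal.ofReal (1 - ε) ^ (a + b) * S b ≠ ∞ := by
      intro a ha
      refine ENNReal.sum_ne_top.2 fun b hb => ?_
      rw [mem_range] at hb
      exact ENNReal.mul_ne_top (ENNReal.mul_ne_top (hJne a b hb) (ENNReal.pow_ne_top ENNReal.ofReal_ne_top)) (hSfin b)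
    have h3 := ENNReal.toReal_mono (ENNReal.add_ne_top.2 ⟨hK, ENNReal.sum_ne_top.2 hfin⟩) h2
    rw [ENNReal.toReal_add hK (ENNReal.sum_ne_top.2 hfin), ENNReal.toReal_sum hfin] at h3
    refine h3.trans (le_of_eq ?_)
    congr 1
    refine sum_congr rfl fun a _ => ?_
    rw [ENNReal.toReal_sum (fun b hb => ENNReal.mul_ne_top (ENNReal.mul_ne_top (hJne a b (mem_range.1 hb))
      (ENNReal.pow_ne_top ENNReal.ofReal_ne_top)) (hSfin b))]
    refine sum_congr rfl fun b hb => ?_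
    rw [mem_range] at hb
    rw [ENNReal.toReal_mul, ENNReal.toReal_mul, ENNReal.toReal_pow, ENNReal.toReal_ofReal h0]
    simp only [hJ']
    rw [if_pos hb]

end Pool.Agent.HHP
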