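import Pool.Agent.HHP.Geo
import Pool.Agent.HHP.Tsum

/-!
Project HHP: superposition of pairs.

PAPER PROOF of `renew`. For `i <= d` let `M i` be the set of pairs `(P, Q)` with `Br (d + s) P`, `Be d Q`, `i = 0` or
(`1 <= i`, `Ren (d + s + 1 - i) P` and `Ren i Q`), and no common renewal level `r` with `i < r <= d`. The sets `M i` are
disjoint (`i` is the largest common renewal level, `0` if there is none) and contained in the product, so
`∑ i, ms2 y (M i) <= ms y (Br (d + s)) * ms y (Be d)` by `ms2_disj` and `ms_mul`.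
`uu y 0 * ms2 y (CP s d) <= ms2 y (M 0)`: `CP s d` is `M 0`.
`uu y i * ms2 y (CP s (d - i)) <= ms2 y (M i)` for `i = j + 1`: `uu y (j + 1) = ms y (Br j) ^ 2` and `ms_rel4` with the
map `X Y (P1, Q2) ↦ (P1 ++ rt P1 :: X, Y ++ rt Y :: Q2)` (`X`, `Y` in `Br j`). `join_Br`: the first word is in
`Br ((d - i + s) + 1 + j) = Br (d + s)`; `join_Be`: the second word is in `Be (j + 1 + (d - i)) = Be d`; `join` gives
the renewals `Ren (d - i + s + 1) = Ren (d + s + 1 - i)` and `Ren (j + 1) = Ren i`. For `i < r <= d` a common renewal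
`Ren (d + s + 1 - r)` of the first word (`ren_low`, `d + s + 1 - r <= d - i + s`) and `Ren r` of the second word
(`ren_high`, `r = j + 1 + (r - i)`) would be a common renewal level `r - i` of `(P1, Q2)`, against `NC`.
Injectivity: `ren_uniq` at the line `d - i + s + 1` for the first word, at the line `i` for the second word.
-/

namespace Pool.Agent.HHP

open Pool.Agent.Hhelper14.SAW Finset
open scoped ENNReal

/-- Beyond the junction. -/
private lemma beyond {a n : ℕ} {P Q : List Bool} (hP : Br a P) (hQ : In n Q) :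
    ∀ z ∈ vs (E P + tn (rt P) (Dr P)) (tn (rt P) (Dr P)) Q, 3 * ((a : ℤ) + 1) ≤ F0 z := by
  have hE : F0 (E P + (1, 0)) = 3 * a + 3 := by rw [F0_add, hP.2]; simp [F0]; ring
  intro z hz
  rw [hP.tn_rt, vs_right] at hz
  obtain ⟨w, hw, rfl⟩ := List.mem_map.1 hz
  have := (hQ.2 w hw).1
  rw [F0_add, hE]; omega

private lemma join_inj {a n n' : ℕ} {P P' Q Q' : List Bool} (hP : Br a P) (hP' : Br a P') (hQ : In n Q)
    (hQ' : In n' Q') (h : P ++ rt P :: Q = P' ++ rt P' :: Q') : P = P' ∧ Q = Q' := by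
  have h1 : ∀ z ∈ V P, F0 z < 3 * ((a : ℤ) + 1) := fun z hz => by
    have := (hP.1.2 z hz).2; omega
  have h1' : ∀ z ∈ V P', F0 z < 3 * ((a : ℤ) + 1) := fun z hz => by
    have := (hP'.1.2 z hz).2; omega
  obtain ⟨e1, -, e2⟩ := ren_uniq h h1 (beyond hP hQ) h1' (beyond hP' hQ')
  exact ⟨e1, e2⟩

/-- The pairs whose largest common renewal level is `i` (`0` if there is none). -/
private def M (s d i : ℕ) (p : List Bool × List Bool) : Prop :=
  (Br (d + s) p.1 ∧ Be d p.2) ∧ (i = 0 ∨ (Ren (d + s + 1 - i) p.1 ∧ Ren i p.2)) ∧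
    ∀ r, i < r → r ≤ d → ¬ (Ren (d + s + 1 - r) p.1 ∧ Ren r p.2)

private lemma M_disj {s d : ℕ} : ∀ i ∈ range (d + 1), ∀ j ∈ range (d + 1), ∀ p, M s d i p → M s d j p → i = j := by
  have key : ∀ i j, i < j → j ≤ d → ∀ p, M s d i p → M s d j p → False := by
    intro i j hij hj p h1 h2
    rcases h2.2.1 with h3 | h3
    · omega
    · exact h1.2.2 j hij hj h3
  intro i hi j hj p h1 h2
  rw [mem_range] at hi hj
  rcases lt_trichotomy i j with h | h | h
  · exact (key i j h (by omega) p h1 h2).elim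
  · exact h
  · exact (key j i h (by omega) p h2 h1).elim

private lemma step0 (y : ℝ≥0∞) (s d : ℕ) : uu y 0 * ms2 y (CP s (d - 0)) ≤ ms2 y (M s d 0) := by
  rw [Nat.sub_zero, show uu y 0 = 1 from rfl, one_mul]
  refine ms2_mono fun p hp => ⟨⟨hp.1, hp.2.1⟩, Or.inl rfl, fun r hr hr' => ?_⟩
  exact hp.2.2 r hr hr'

private lemma stepS (y : ℝ≥0∞) (s e j : ℕ) : uu y (j + 1) * ms2 y (CP s e) ≤ ms2 y (M s (e + (j + 1)) (j + 1)) := by
  rw [show uu y (j + 1) = ms y (Br j) ^ 2 from rfl, sq]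
  refine ms_rel4 (fun X Y p => (p.1 ++ rt p.1 :: X, Y ++ rt Y :: p.2)) ?_ ?_
  · rintro X Y ⟨A, B⟩ hX hY ⟨hA, hB, hN⟩
    simp only at hA hB
    refine ⟨⟨⟨?_, ?_⟩, Or.inr ⟨?_, ?_⟩, ?_⟩, ?_⟩
    · have := join_Br hA hX
      rwa [show e + s + 1 + j = e + (j + 1) + s by omega] at this
    · have := join_Be hY hB
      rwa [show j + 1 + e = e + (j + 1) by omega] at this
    · have := (join hA hX.1).2
      rwa [show e + s + 1 = e + (j + 1) + s + 1 - (j + 1) by omega] at this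
    · exact (join hY hB.1).2
    · rintro r hr hr' ⟨h1, h2⟩
      simp only at h1 h2
      rw [ren_low hA hX.1 (by omega)] at h1
      obtain ⟨t, rfl⟩ : ∃ t, r = j + 1 + t := ⟨r - (j + 1), by omega⟩
      rw [ren_high hY hB.1 (by omega)] at h2
      refine hN t (by omega) (by omega) ⟨?_, h2⟩
      rwa [show e + s + 1 - t = e + (j + 1) + s + 1 - (j + 1 + t) by omega]
    · simp only [List.length_append, List.length_cons]
      omega
  · rintro X Y ⟨A, B⟩ X' Y' ⟨A', B'⟩ hX hY ⟨hA, hB, -⟩ hX' hY' ⟨hA', hB', -⟩ h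
    simp only [Prod.mk.injEq] at h hA hB hA' hB'
    obtain ⟨e1, e2⟩ := join_inj hA hA' hX.1 hX'.1 h.1
    obtain ⟨e3, e4⟩ := join_inj hY hY' hB.1 hB'.1 h.2
    exact ⟨e2, e3, Prod.ext e1 e4⟩

theorem renew (y : ℝ≥0∞) (s d : ℕ) :
    ∑ i ∈ range (d + 1), uu y i * ms2 y (CP s (d - i)) ≤ ms y (Br (d + s)) * ms y (Be d) := by
  rw [← ms_mul]
  refine le_trans (Finset.sum_le_sum (fun i hi => ?_))
    (ms2_disj (range (d + 1)) (Q := M s d) (fun i _ p hp => hp.1) M_disj)
  rw [mem_range] at hi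
  rcases i with _ | j
  · exact step0 y s d
  · obtain ⟨e, rfl⟩ : ∃ e, d = e + (j + 1) := ⟨d - (j + 1), by omega⟩
    rw [Nat.add_sub_cancel]
    exact stepS y s e j

end Pool.Agent.HHP
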