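import Pool.Agent.HHP.Fold
import Pool.Agent.HHP.Cprime
import Pool.Agent.HHP.Renew
import Pool.Agent.HHP.Mass
import Pool.Agent.HHP.AnRen

/-!
Project HHP: for every gap the critical masses of the folds are summable.
-/

namespace Pool.Agent.HHP

open Pool.Agent.Hhelper14.SAW Finset
open scoped ENNReal

theorem CP_sum (s D : ℕ) : ∑ d ∈ range D, ms2 xE (CP s d) ≤ xE := by
  refine anRen (fun n => ms xE (Br n)) (fun d => ms2 xE (CP s d)) (uu xE) xE Br_one rfl (fun _ => rfl) s
    (fun d => (renew xE s d).trans ?_) D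
  calc ms xE (Br (d + s)) * ms xE (Be d) ≤ ms xE (Br (d + s)) * (xE * ms xE (Br d)) := by
        gcongr; exact Be_le xE d
    _ = _ := by ring

theorem CP'_sum (s D : ℕ) : ∑ t ∈ range D, ms2 xE (CP' s t) ≤ 2 := by
  have h1 : xE * ∑ t ∈ range D, ms2 xE (CP' s t) ≤ xE * 2 := by
    rw [mul_sum]
    calc ∑ t ∈ range D, xE * ms2 xE (CP' s t)
        ≤ ∑ t ∈ range D, (ms2 xE (CP s (t + 1)) + ms xE (Br 0) ^ 2 * ms2 xE (CP s t)) :=
          sum_le_sum fun t _ => CP'_le xE s t
      _ = ∑ t ∈ range D, ms2 xE (CP s (t + 1)) + ms xE (Br 0) ^ 2 * ∑ t ∈ range D, ms2 xE (CP s t) := by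
          rw [sum_add_distrib, mul_sum]
      _ ≤ xE + 1 * xE := by
          refine add_le_add ?_ ?_
          · refine le_trans ?_ (CP_sum s (D + 1))
            rw [sum_range_succ' (fun d => ms2 xE (CP s d)) D]
            exact le_self_add
          · refine mul_le_mul' ?_ (CP_sum s D)
            exact pow_le_one' (Br_one 0) 2
      _ = xE * 2 := by ring
  exact (ENNReal.mul_le_mul_iff_right xE_ne.1 xE_ne.2).1 h1

theorem JP_sum (s D : ℕ) : ∑ t ∈ range D, ms2 xE (JP (t + s + 1) t) ≤ 5 := by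
  calc ∑ t ∈ range D, ms2 xE (JP (t + s + 1) t)
      ≤ ∑ t ∈ range D, (∑ r ∈ range t, ms xE (Arc (r + 1)) * ms2 xE (CP s (t - (r + 1))) + ms2 xE (CP' s t)) :=
        sum_le_sum fun t _ => JP_le xE s t
    _ = ∑ t ∈ range D, ∑ r ∈ range t, ms xE (Arc (r + 1)) * ms2 xE (CP s (t - (r + 1))) +
        ∑ t ∈ range D, ms2 xE (CP' s t) := sum_add_distrib
    _ ≤ ∑ r ∈ range D, ms xE (Arc (r + 1)) * ∑ d ∈ range D, ms2 xE (CP s d) + 2 := by
        refine add_le_add ?_ (CP'_sum s D)
        have e : ∑ t ∈ range D, ∑ r ∈ range t, ms xE (Arc (r + 1)) * ms2 xE (CP s (t - (r + 1))) =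
            ∑ r ∈ range D, ∑ t ∈ (range D).filter (fun t => r < t),
              ms xE (Arc (r + 1)) * ms2 xE (CP s (t - (r + 1))) := by
          refine sum_comm' fun t r => ?_
          simp only [mem_range, mem_filter]; omega
        rw [e]
        refine sum_le_sum fun r _ => ?_
        rw [← mul_sum]
        gcongr
        refine le_trans (le_of_eq (sum_image (f := fun d => ms2 xE (CP s d)) (g := fun t => t - (r + 1)) ?_).symm) ?_
        · intro a ha b hb hab
          simp only [mem_coe, mem_filter, mem_range] at ha hb hab; omega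
        · refine sum_le_sum_of_subset_of_nonneg ?_ (fun _ _ _ => bot_le)
          intro d hd
          simp only [mem_image, mem_filter, mem_range] at hd ⊢; omega
    _ = (∑ r ∈ range D, ms xE (Arc (r + 1))) * ∑ d ∈ range D, ms2 xE (CP s d) + 2 := by rw [sum_mul]
    _ ≤ 3 * 1 + 2 := by
        gcongr
        · exact Arc_sum D
        · exact (CP_sum s D).trans xE_le
    _ = 5 := by norm_num

end Pool.Agent.HHP
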