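import Pool.Agent.HHP.StepA
import Pool.Agent.HHP.JSum
import Pool.Agent.HHP.Gron

/-!
Project HHP: masses of the strips below the critical fugacity.
-/

namespace Pool.Agent.HHP

open Pool.Agent.Hhelper14.SAW Finset
open scoped ENNReal

lemma Fi_len {k : ℕ} {W : List Bool} (h : Fi k W) : k ≤ W.length + 1 := by
  have := len_ge h.2; omega

lemma Be_len {k : ℕ} {W : List Bool} (h : Be k W) : k ≤ W.length + 1 := by
  have := len_ge (k := k) (W := W) (by rw [h.2.1]); omega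

lemma Fi_mass {θ : ℝ≥0∞} (hθ : θ ≤ 1) (k : ℕ) : ms (θ * xE) (Fi k) ≤ 3 * θ ^ k := by
  have hx := xE_le
  calc ms (θ * xE) (Fi k) ≤ θ ^ k * ms xE (Fi k) := ms_pow_le hθ fun W h => Fi_len h
    _ ≤ θ ^ k * ((1 + 1) * 1 + 1) := by
        gcongr
        refine (Fi_le xE k).trans ?_
        gcongr
        exact Br_one k
    _ = 3 * θ ^ k := by rw [mul_comm]; norm_num

lemma Be_mass {θ : ℝ≥0∞} (hθ : θ ≤ 1) (k : ℕ) : ms (θ * xE) (Be k) ≤ θ ^ k := by
  calc ms (θ * xE) (Be k) ≤ θ ^ k * ms xE (Be k) := ms_pow_le hθ fun W h => Be_len h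
    _ ≤ θ ^ k * (1 * 1) := by
        gcongr
        refine (Be_le xE k).trans ?_
        gcongr
        · exact xE_le
        · exact Br_one k
    _ = θ ^ k := by rw [mul_one, mul_one]

lemma JP_mass {θ : ℝ≥0∞} (hθ : θ ≤ 1) (a b : ℕ) : ms2 (θ * xE) (JP a b) ≤ ms2 xE (JP a b) * θ ^ (a + b) := by
  rw [mul_comm (ms2 xE (JP a b))]
  refine ms2_pow_le hθ fun A B h => ?_
  have h1 := Be_len h.1
  have h2 := Be_len h.2.1
  simp only at h1 h2
  omega

theorem SBound : ∃ C : ℝ, 0 < C ∧ ∀ ε : ℝ, 0 < ε → ε ≤ 1 / 2 → ∀ n : ℕ,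
    ms (ENNReal.ofReal ((1 - ε) * xc)) (In n) ≤ ENNReal.ofReal (C / ε ^ 2 * Real.exp (C / Real.sqrt ε)) := by
  obtain ⟨C1, hC1, hg⟩ := gron 5 (by norm_num)
  refine ⟨C1 + 12, by linarith, fun ε hε hε2 n => ?_⟩
  have h0 : 0 ≤ 1 - ε := by linarith
  have e1 : ENNReal.ofReal ((1 - ε) * xc) = ENNReal.ofReal (1 - ε) * xE := ENNReal.ofReal_mul h0
  set θ := ENNReal.ofReal (1 - ε) with hθd
  have hθ : θ ≤ 1 := by
    rw [hθd, ENNReal.ofReal_le_one]; linarith
  have hgeo : ∀ N : ℕ, ∑ k ∈ range N, θ ^ k ≤ ENNReal.ofReal (1 / ε) := by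
    intro N
    have e2 : ∑ k ∈ range N, θ ^ k = ENNReal.ofReal (∑ k ∈ range N, (1 - ε) ^ k) := by
      rw [ENNReal.ofReal_sum_of_nonneg (fun i _ => by positivity)]
      refine sum_congr rfl fun k _ => ?_
      rw [hθd, ENNReal.ofReal_pow h0]
    rw [e2]
    apply ENNReal.ofReal_le_ofReal
    have h1 := mul_neg_geom_sum (1 - ε) N
    have h2 : (1 - (1 - ε)) * ∑ k ∈ range N, (1 - ε) ^ k ≤ 1 := by
      rw [h1]
      have := pow_nonneg h0 N
      linarith
    rw [le_div_iff₀ hε]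
    linarith
  set K : ℝ := 3 * (1 / ε) + 3 * (1 / ε) ^ 2 with hK
  have hrec : ∀ n, ms (θ * xE) (SS n) ≤ ENNReal.ofReal K + ∑ a ∈ range (n + 1), ∑ b ∈ range a,
      ms2 xE (JP a b) * θ ^ (a + b) * ms (θ * xE) (SS b) := by
    intro n
    refine (SS_rec (θ * xE) n).trans (add_le_add ?_ ?_)
    · have a1 : ∑ k ∈ range (n + 1), ms (θ * xE) (Fi k) ≤ 3 * ENNReal.ofReal (1 / ε) := by
        calc ∑ k ∈ range (n + 1), ms (θ * xE) (Fi k) ≤ ∑ k ∈ range (n + 1), 3 * θ ^ k :=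
              sum_le_sum fun k _ => Fi_mass hθ k
          _ = 3 * ∑ k ∈ range (n + 1), θ ^ k := by rw [mul_sum]
          _ ≤ _ := by gcongr; exact hgeo _
      have a2 : ∑ a ∈ range (n + 1), ∑ b ∈ range a, ms (θ * xE) (Be a) * ms (θ * xE) (Fi b) ≤
          3 * (ENNReal.ofReal (1 / ε) * ENNReal.ofReal (1 / ε)) := by
        calc ∑ a ∈ range (n + 1), ∑ b ∈ range a, ms (θ * xE) (Be a) * ms (θ * xE) (Fi b)
            ≤ ∑ a ∈ range (n + 1), ∑ b ∈ range a, θ ^ a * (3 * θ ^ b) := by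
              refine sum_le_sum fun a _ => sum_le_sum fun b _ => ?_
              exact mul_le_mul' (Be_mass hθ a) (Fi_mass hθ b)
          _ = ∑ a ∈ range (n + 1), θ ^ a * (3 * ∑ b ∈ range a, θ ^ b) := by
              refine sum_congr rfl fun a _ => ?_
              rw [mul_sum, mul_sum]
          _ ≤ ∑ a ∈ range (n + 1), θ ^ a * (3 * ENNReal.ofReal (1 / ε)) := by
              refine sum_le_sum fun a _ => ?_
              gcongr; exact hgeo _
          _ = (∑ a ∈ range (n + 1), θ ^ a) * (3 * ENNReal.ofReal (1 / ε)) := by rw [sum_mul]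
          _ ≤ ENNReal.ofReal (1 / ε) * (3 * ENNReal.ofReal (1 / ε)) := by gcongr; exact hgeo _
          _ = _ := by ring
      refine (add_le_add a1 a2).trans (le_of_eq ?_)
      have hp : 0 ≤ 1 / ε := by positivity
      have e3 : (3 : ℝ≥0∞) = ENNReal.ofReal 3 := by norm_num
      rw [hK, ENNReal.ofReal_add (by positivity) (by positivity), ENNReal.ofReal_mul (by norm_num),
        ENNReal.ofReal_mul (by norm_num), ENNReal.ofReal_pow hp, ← e3, sq]
    · refine sum_le_sum fun a _ => sum_le_sum fun b _ => ?_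
      exact mul_le_mul' (JP_mass hθ a b) le_rfl
  have hS := hg ε hε hε2 (ENNReal.ofReal K) (fun a b => ms2 xE (JP a b))
    (fun s D => (JP_sum s D).trans (le_of_eq (by norm_num))) (fun n => ms (θ * xE) (SS n)) hrec n
  rw [e1]
  have hy : 1 + θ * xE ≤ 2 := by
    calc 1 + θ * xE ≤ 1 + 1 * 1 := by gcongr; exact xE_le
      _ = 2 := by norm_num
  calc ms (θ * xE) (In n) ≤ (1 + θ * xE) * ms (θ * xE) (SS n) := In_le _ n
    _ ≤ 2 * (ENNReal.ofReal K * ENNReal.ofReal (Real.exp (C1 / Real.sqrt ε))) := by gcongr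
    _ = ENNReal.ofReal (2 * (K * Real.exp (C1 / Real.sqrt ε))) := by
        have hK0 : 0 ≤ K := by positivity
        have e4 : (2 : ℝ≥0∞) = ENNReal.ofReal 2 := by norm_num
        rw [ENNReal.ofReal_mul (by norm_num), ENNReal.ofReal_mul hK0, ← e4]
    _ ≤ _ := by
        apply ENNReal.ofReal_le_ofReal
        have h1 : 1 / ε ≤ (1 / ε) ^ 2 := by
          have : 1 ≤ 1 / ε := by rw [le_div_iff₀ hε]; linarith
          nlinarith
        have h2 : 2 * K ≤ 12 / ε ^ 2 := by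
          rw [hK]
          have : 12 / ε ^ 2 = 12 * (1 / ε) ^ 2 := by ring
          rw [this]; linarith
        have h3 : 12 / ε ^ 2 ≤ (C1 + 12) / ε ^ 2 := by gcongr; linarith
        have h4 : Real.exp (C1 / Real.sqrt ε) ≤ Real.exp ((C1 + 12) / Real.sqrt ε) := by
          apply Real.exp_le_exp.2
          gcongr; linarith
        calc 2 * (K * Real.exp (C1 / Real.sqrt ε)) = 2 * K * Real.exp (C1 / Real.sqrt ε) := by ring
          _ ≤ (C1 + 12) / ε ^ 2 * Real.exp ((C1 + 12) / Real.sqrt ε) := by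
              apply mul_le_mul (h2.trans h3) h4 (Real.exp_pos _).le (by positivity)

end Pool.Agent.HHP
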